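import Pool.Agent.H353R2.K7
import Pool.Agent.H353R2.FB

open MeasureTheory Filter Topology Set
open scoped ContDiff
open H332.FL (sw)
open H353.FB

namespace H353

noncomputable section

/-- weights of the average over the orders of the Farey sequences -/
def wn (W : ℝ → ℝ) (x : ℝ) (n : ℕ) : ℝ := W (x / n) - W (x / (n + 1))

theorem wn_tele (W : ℝ → ℝ) (x : ℝ) (k N : ℕ) (hk : k ≤ N + 1) :
    ∑ n ∈ Finset.Icc k N, wn W x n = W (x / k) - W (x / ((N : ℝ) + 1)) := by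
  have h1 : ∀ m : ℕ, ∑ n ∈ Finset.Ico k (k + m), wn W x n = W (x / k) - W (x / ((k + m : ℕ) : ℝ)) := by
    intro m
    induction m with
    | zero => simp
    | succ m ih =>
      rw [← Nat.add_assoc, Finset.sum_Ico_succ_top (by omega), ih]
      unfold wn
      push_cast
      ring
  have h2 : Finset.Icc k N = Finset.Ico k (k + (N + 1 - k)) := by
    ext n
    simp only [Finset.mem_Icc, Finset.mem_Ico]
    omega
  rw [h2, h1]
  have h3 : k + (N + 1 - k) = N + 1 := by omega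
  rw [h3]
  push_cast
  rfl

theorem coef_eq (W : ℝ → ℝ) (h0 : ∀ y ≤ 1, W y = 0) (x : ℝ) (hx : 1 ≤ x) (d : ℕ) (hd : 1 ≤ d) :
    ∑ n ∈ Finset.Icc 1 ⌊x⌋₊, wn W x n * Mx ((n : ℝ) / d) =
      ∑ m ∈ Finset.Icc 1 ⌊x / d⌋₊, (ArithmeticFunction.moebius m : ℝ) * W ((x / d) / m) := by
  set N := ⌊x⌋₊ with hN
  have hx0 : 0 ≤ x := by linarith
  have hd0 : (0:ℝ) < d := by exact_mod_cast hd
  have hfl : ⌊x / d⌋₊ = N / d := by rw [hN, Nat.floor_div_natCast]
  have hM : ∀ n ∈ Finset.Icc 1 N, Mx ((n : ℝ) / d) =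
      ∑ m ∈ Finset.Icc 1 (N / d), if m * d ≤ n then H353.FB.mu m else 0 := by
    intro n hn
    rw [Finset.mem_Icc] at hn
    rw [Mx_div, ← Finset.sum_filter]
    refine Finset.sum_congr ?_ fun _ _ => rfl
    ext m
    simp only [Finset.mem_Icc, Finset.mem_filter]
    rw [Nat.le_div_iff_mul_le (by omega), Nat.le_div_iff_mul_le (by omega)]
    constructor
    · rintro ⟨a, b⟩
      exact ⟨⟨a, by omega⟩, b⟩
    · rintro ⟨⟨a, _⟩, b⟩
      exact ⟨a, b⟩
  rw [Finset.sum_congr rfl (fun n hn => by rw [hM n hn, Finset.mul_sum]), Finset.sum_comm, hfl]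
  refine Finset.sum_congr rfl fun m hm => ?_
  rw [Finset.mem_Icc, Nat.le_div_iff_mul_le (by omega)] at hm
  have hmd : 1 ≤ m * d := Nat.mul_pos hm.1 hd
  have e1 : ∀ n ∈ Finset.Icc 1 N, wn W x n * (if m * d ≤ n then H353.FB.mu m else 0) =
      if m * d ≤ n then H353.FB.mu m * wn W x n else 0 := by
    intro n _
    split_ifs
    · ring
    · ring
  rw [Finset.sum_congr rfl e1, ← Finset.sum_filter, ← Finset.mul_sum]
  have e2 : (Finset.Icc 1 N).filter (fun n => m * d ≤ n) = Finset.Icc (m * d) N := by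
    ext n
    simp only [Finset.mem_filter, Finset.mem_Icc]
    omega
  rw [e2, wn_tele W x (m * d) N (by omega)]
  have e3 : W (x / ((N : ℝ) + 1)) = 0 := by
    apply h0
    have hN1 : (0:ℝ) < (N:ℝ) + 1 := by positivity
    rw [div_le_one hN1]
    exact (Nat.lt_floor_add_one x).le
  rw [e3, sub_zero]
  have hm0 : (0:ℝ) < m := by exact_mod_cast hm.1
  have e4 : x / ((m * d : ℕ) : ℝ) = (x / d) / m := by
    push_cast
    field_simp
  rw [e4]
  rfl

theorem farey_main (θ : ℝ) (hθ : 1 / 2 < θ) (W : ℝ → ℝ) (hmono : Monotone W) (h0 : ∀ y ≤ 1, W y = 0)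
    (A : ℝ) (h1 : ∀ y, A ≤ y → W y = 1) (C : ℝ)
    (hC : ∀ x : ℝ, 1 ≤ x → |∑ n ∈ Finset.Icc 1 ⌊x⌋₊,
      (ArithmeticFunction.moebius n : ℝ) * W (x / n)| ≤ C * x ^ θ) :
    ∃ C' : ℝ, ∀ x : ℝ, 1 ≤ x →
      ∫ t in (0:ℝ)..1, (∑ n ∈ Finset.Icc 1 ⌊x⌋₊, (W (x / n) - W (x / (n + 1))) *
        ((((farey n).filter (fun f : ℚ => (f : ℝ) ≤ t)).card : ℝ) - (farey n).card * t)) ^ 2 ≤
      C' * x ^ (2 * θ) := by
  obtain ⟨K, hK, hq⟩ := H332.FL.quad_bound θ hθ
  refine ⟨2 * (K * C ^ 2) + 1 / 2, fun x hx => ?_⟩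
  set N := ⌊x⌋₊ with hN
  have hx0 : 0 < x := by linarith
  have hC0 : 0 ≤ C := by
    have := (abs_nonneg _).trans (hC x hx)
    have hp : 0 < x ^ θ := Real.rpow_pos_of_pos hx0 _
    by_contra h
    push Not at h
    nlinarith
  have hW0 : ∀ y, 0 ≤ W y := by
    intro y
    by_cases hy : y ≤ 1
    · exact (h0 y hy).ge
    · have := hmono (not_le.1 hy).le
      rwa [h0 1 le_rfl] at this
  have hW1 : ∀ y, W y ≤ 1 := by
    intro y
    have := hmono (le_max_left y A)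
    rwa [h1 _ (le_max_right y A)] at this
  set c : ℕ → ℝ := fun d => ∑ n ∈ Finset.Icc 1 N, wn W x n * Mx ((n : ℝ) / d) with hc
  have hcb : ∀ d ∈ Finset.Icc 1 N, |c d| ≤ (C * x ^ θ) * (d : ℝ) ^ (-θ) := by
    intro d hd
    rw [Finset.mem_Icc] at hd
    have hd0 : (0:ℝ) < d := by exact_mod_cast hd.1
    have hdx : (d:ℝ) ≤ x := (Nat.le_floor_iff hx0.le).1 hd.2
    rw [hc]
    simp only
    rw [coef_eq W h0 x hx d hd.1]
    have := hC (x / d) ((one_le_div hd0).2 hdx)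
    refine this.trans (le_of_eq ?_)
    rw [Real.div_rpow hx0.le hd0.le, Real.rpow_neg hd0.le]
    ring
  have hb := hq N c (C * x ^ θ) (by positivity) hcb
  set b : ℝ := ∑ n ∈ Finset.Icc 1 N, wn W x n with hbdef
  have hb01 : 0 ≤ b ∧ b ≤ 1 := by
    have e := wn_tele W x 1 N (by omega)
    have e3 : W (x / ((N : ℝ) + 1)) = 0 := by
      apply h0
      have hN1 : (0:ℝ) < (N:ℝ) + 1 := by positivity
      rw [div_le_one hN1]
      exact (Nat.lt_floor_add_one x).le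
    rw [e3, sub_zero] at e
    rw [hbdef, e]
    exact ⟨hW0 _, hW1 _⟩
  have hpt : ∀ t ∈ Icc (0:ℝ) 1, (∑ n ∈ Finset.Icc 1 N, (W (x / n) - W (x / (n + 1))) *
        ((((farey n).filter (fun f : ℚ => (f : ℝ) ≤ t)).card : ℝ) - (farey n).card * t)) =
      -(∑ d ∈ Finset.Icc 1 N, c d * sw ((d : ℝ) * t)) - b / 2 := by
    intro t ht
    have e1 : ∀ n ∈ Finset.Icc 1 N, (W (x / n) - W (x / (n + 1))) *
        ((((farey n).filter (fun f : ℚ => (f : ℝ) ≤ t)).card : ℝ) - (farey n).card * t) =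
        wn W x n * (-(∑ d ∈ Finset.Icc 1 N, Mx ((n : ℝ) / d) * sw ((d : ℝ) * t))) - wn W x n / 2 := by
      intro n hn
      rw [Finset.mem_Icc] at hn
      have e2 := cnt_sub hn.1 ht.1 ht.2
      have e3 : cnt n t = (((farey n).filter (fun f : ℚ => (f : ℝ) ≤ t)).card : ℝ) := by
        unfold cnt
        rw [← Finset.sum_filter, Finset.sum_const, nsmul_eq_mul, mul_one]
      rw [e3] at e2
      rw [e2]
      unfold Ef
      have e4 : ∑ d ∈ Finset.Icc 1 n, Mx ((n : ℝ) / d) * sw ((d : ℝ) * t) =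
          ∑ d ∈ Finset.Icc 1 N, Mx ((n : ℝ) / d) * sw ((d : ℝ) * t) := by
        refine Finset.sum_subset (Finset.Icc_subset_Icc_right hn.2) fun d hd hd2 => ?_
        rw [Finset.mem_Icc] at hd hd2
        have hlt : n < d := by
          by_contra h
          exact hd2 ⟨hd.1, not_lt.1 h⟩
        rw [Mx_div, Nat.div_eq_of_lt hlt]
        simp
      rw [e4]
      unfold wn
      ring
    rw [Finset.sum_congr rfl e1, Finset.sum_sub_distrib, ← Finset.sum_div]
    congr 1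
    simp_rw [mul_neg]
    rw [Finset.sum_neg_distrib]
    congr 1
    simp_rw [Finset.mul_sum]
    rw [Finset.sum_comm]
    refine Finset.sum_congr rfl fun d _ => ?_
    rw [hc]
    simp only
    rw [Finset.sum_mul]
    exact Finset.sum_congr rfl fun n _ => by ring
  have hSm : Measurable (fun t : ℝ => ∑ d ∈ Finset.Icc 1 N, c d * sw ((d : ℝ) * t)) := by
    refine Finset.measurable_sum _ fun d _ => Measurable.const_mul ?_ _
    exact H332.FL.measurable_sw_comp (by fun_prop)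
  have hSb : ∀ t, |∑ d ∈ Finset.Icc 1 N, c d * sw ((d : ℝ) * t)| ≤ ∑ d ∈ Finset.Icc 1 N, |c d| := by
    intro t
    refine (Finset.abs_sum_le_sum_abs _ _).trans (Finset.sum_le_sum fun d _ => ?_)
    rw [abs_mul]
    exact mul_le_of_le_one_right (abs_nonneg _) ((H332.FL.abs_sw_le _).trans (by norm_num))
  have hSi : IntervalIntegrable (fun t : ℝ => (∑ d ∈ Finset.Icc 1 N, c d * sw ((d : ℝ) * t)) ^ 2)
      volume 0 1 := by
    refine (intervalIntegrable_const (c := (∑ d ∈ Finset.Icc 1 N, |c d|) ^ 2)).mono_fun ?_ ?_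
    · exact (hSm.pow_const 2).aestronglyMeasurable
    · refine Filter.Eventually.of_forall fun t => ?_
      beta_reduce
      rw [Real.norm_of_nonneg (sq_nonneg _), Real.norm_of_nonneg (sq_nonneg _), ← sq_abs (∑ d ∈ Finset.Icc 1 N, c d * sw ((d : ℝ) * t))]
      exact pow_le_pow_left₀ (abs_nonneg _) (hSb t) 2
  have hSi2 : IntervalIntegrable (fun t : ℝ => (-(∑ d ∈ Finset.Icc 1 N, c d * sw ((d : ℝ) * t)) - b / 2) ^ 2)
      volume 0 1 := by
    refine (intervalIntegrable_const (c := ((∑ d ∈ Finset.Icc 1 N, |c d|) + 1) ^ 2)).mono_fun ?_ ?_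
    · exact ((hSm.neg.sub_const (b / 2)).pow_const 2).aestronglyMeasurable
    · refine Filter.Eventually.of_forall fun t => ?_
      beta_reduce
      rw [Real.norm_of_nonneg (sq_nonneg _), Real.norm_of_nonneg (sq_nonneg _), ← sq_abs (-(∑ d ∈ Finset.Icc 1 N, c d * sw ((d : ℝ) * t)) - b / 2)]
      refine pow_le_pow_left₀ (abs_nonneg _) ?_ 2
      have h2 := abs_sub (-(∑ d ∈ Finset.Icc 1 N, c d * sw ((d : ℝ) * t))) (b / 2)
      rw [abs_neg] at h2
      have h3 : |b / 2| ≤ 1 := by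
        rw [abs_of_nonneg (by linarith [hb01.1])]
        linarith [hb01.2]
      linarith [hSb t]
  have e0 : ∫ t in (0:ℝ)..1, (∑ n ∈ Finset.Icc 1 N, (W (x / n) - W (x / (n + 1))) *
        ((((farey n).filter (fun f : ℚ => (f : ℝ) ≤ t)).card : ℝ) - (farey n).card * t)) ^ 2 =
      ∫ t in (0:ℝ)..1, (-(∑ d ∈ Finset.Icc 1 N, c d * sw ((d : ℝ) * t)) - b / 2) ^ 2 := by
    refine intervalIntegral.integral_congr fun t ht => ?_
    rw [uIcc_of_le zero_le_one] at ht
    rw [hpt t ht]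
  rw [e0]
  have e5 : ∫ t in (0:ℝ)..1, (-(∑ d ∈ Finset.Icc 1 N, c d * sw ((d : ℝ) * t)) - b / 2) ^ 2 ≤
      ∫ t in (0:ℝ)..1, (2 * (∑ d ∈ Finset.Icc 1 N, c d * sw ((d : ℝ) * t)) ^ 2 + 1 / 2) := by
    refine intervalIntegral.integral_mono_on zero_le_one hSi2 ((hSi.const_mul 2).add intervalIntegrable_const) ?_
    intro t _
    set S := ∑ d ∈ Finset.Icc 1 N, c d * sw ((d : ℝ) * t)
    nlinarith [sq_nonneg (S - b / 2), hb01.1, hb01.2]
  refine e5.trans ?_
  rw [intervalIntegral.integral_add (hSi.const_mul 2) intervalIntegrable_const,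
    intervalIntegral.integral_const_mul, intervalIntegral.integral_const]
  have hxp : 1 ≤ x ^ (2 * θ) := Real.one_le_rpow hx (by linarith)
  have e6 : (C * x ^ θ) ^ 2 = C ^ 2 * x ^ (2 * θ) := by
    rw [mul_pow, ← Real.rpow_natCast (x ^ θ) 2, ← Real.rpow_mul hx0.le]
    congr 2
    push_cast
    ring
  rw [e6] at hb
  simp only [sub_zero, smul_eq_mul, one_mul]
  nlinarith

end

end H353
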