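import Pool.Agent.H353R2.Z6

open Complex Filter Topology Set MeasureTheory

namespace H353

/-- the zeros with real part `≥ σ` in the upper half plane -/
abbrev ZS (σ : ℝ) : Type := {ρ : ℂ // FF ρ = 0 ∧ σ ≤ ρ.re ∧ 0 < ρ.im}

theorem zero_sum (σ : ℝ) (h1 : 1 / 2 < σ) (h2 : σ < 1) :
    Summable (fun ρ : ZS σ => (mu ρ.1 : ℝ) / ρ.1.im) := by
  classical
  obtain ⟨C, δ, hC, hδ, hb⟩ := block σ h1 h2
  -- the low zeros
  have hfin : {ρ : ℂ | FF ρ = 0 ∧ ρ ∈ Icc σ 1 ×ℂ Icc 0 3}.Finite :=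
    zeros_finite _ (isCompact_Icc.reProdIm isCompact_Icc)
  set B0 : ℝ := ∑ ρ ∈ hfin.toFinset, |(mu ρ : ℝ) / ρ.im| with hB0
  set q : ℝ := (2:ℝ) ^ (-δ) with hq
  have hq0 : 0 < q := Real.rpow_pos_of_pos (by norm_num) _
  have hq1 : q < 1 := Real.rpow_lt_one_of_one_lt_of_neg (by norm_num) (by linarith)
  have hgeo : Summable (fun j : ℕ => C * (3:ℝ) ^ (-δ) * q ^ j) :=
    (summable_geometric_of_lt_one hq0.le hq1).mul_left _
  refine summable_of_sum_le (c := B0 + ∑' j : ℕ, C * (3:ℝ) ^ (-δ) * q ^ j)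
    (fun ρ => div_nonneg (Nat.cast_nonneg _) ρ.2.2.2.le) ?_
  intro u
  -- transfer to a finset of complex numbers
  set S : Finset ℂ := u.map (Function.Embedding.subtype _) with hS
  have hSum : ∑ ρ ∈ u, (mu ρ.1 : ℝ) / ρ.1.im = ∑ ρ ∈ S, (mu ρ : ℝ) / ρ.im := by
    rw [hS, Finset.sum_map]
    rfl
  have hSp : ∀ ρ ∈ S, FF ρ = 0 ∧ σ ≤ ρ.re ∧ 0 < ρ.im := by
    intro ρ hρ
    rw [hS, Finset.mem_map] at hρ
    obtain ⟨a, _, rfl⟩ := hρ
    exact a.2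
  rw [hSum]
  set S1 := S.filter (fun ρ => ρ.im < 3) with hS1
  set S2 := S.filter (fun ρ => ¬ ρ.im < 3) with hS2
  rw [← Finset.sum_filter_add_sum_filter_not S (fun ρ => ρ.im < 3)]
  have hlow : ∑ ρ ∈ S1, (mu ρ : ℝ) / ρ.im ≤ B0 := by
    have hsub : S1 ⊆ hfin.toFinset := by
      intro ρ hρ
      rw [hS1, Finset.mem_filter] at hρ
      obtain ⟨z1, z2, z3⟩ := hSp ρ hρ.1
      rw [Set.Finite.mem_toFinset]
      refine ⟨z1, ?_⟩
      rw [Complex.mem_reProdIm]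
      exact ⟨⟨z2, (ZU.J_g2b.FF_zero_re z1).le⟩, ⟨z3.le, hρ.2.le⟩⟩
    calc ∑ ρ ∈ S1, (mu ρ : ℝ) / ρ.im ≤ ∑ ρ ∈ S1, |(mu ρ : ℝ) / ρ.im| :=
          Finset.sum_le_sum fun _ _ => le_abs_self _
      _ ≤ B0 := Finset.sum_le_sum_of_subset_of_nonneg hsub fun _ _ _ => abs_nonneg _
  -- the high zeros
  let J : ℂ → ℕ := fun ρ => ⌊Real.logb 2 (ρ.im / 3)⌋₊
  have hJ : ∀ ρ ∈ S2, 3 * (2:ℝ) ^ (J ρ) ≤ ρ.im ∧ ρ.im ≤ 2 * (3 * (2:ℝ) ^ (J ρ)) := by
    intro ρ hρ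
    rw [hS2, Finset.mem_filter, not_lt] at hρ
    have hp : 0 < ρ.im / 3 := by linarith [hρ.2]
    have h1' : 0 ≤ Real.logb 2 (ρ.im / 3) := Real.logb_nonneg (by norm_num) (by linarith [hρ.2])
    have h3 := Nat.floor_le h1'
    have h4 := Nat.lt_floor_add_one (Real.logb 2 (ρ.im / 3))
    have h5 : (2:ℝ) ^ (J ρ) ≤ ρ.im / 3 := by
      rw [← Real.rpow_natCast]
      exact (Real.le_logb_iff_rpow_le (by norm_num) hp).1 h3
    have h6 : ρ.im / 3 < (2:ℝ) ^ (J ρ + 1) := by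
      rw [← Real.rpow_natCast]
      push_cast
      exact (Real.logb_lt_iff_lt_rpow (by norm_num) hp).1 h4
    rw [pow_succ] at h6
    constructor <;> linarith
  have hblock : ∀ j : ℕ, ∑ ρ ∈ S2.filter (fun ρ => J ρ = j), (mu ρ : ℝ) / ρ.im ≤
      C * (3:ℝ) ^ (-δ) * q ^ j := by
    intro j
    set T : ℝ := 3 * (2:ℝ) ^ j with hT
    have h2j : (1:ℝ) ≤ (2:ℝ) ^ j := one_le_pow₀ (by norm_num)
    have hT3 : 3 ≤ T := by rw [hT]; linarith
    have hT0 : 0 < T := by linarith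
    have h7 := hb T hT3 (S2.filter (fun ρ => J ρ = j)) (by
      intro ρ hρ
      rw [Finset.mem_filter] at hρ
      have h8 := hJ ρ hρ.1
      rw [hρ.2] at h8
      have h9 := hSp ρ (Finset.mem_filter.1 hρ.1).1
      exact ⟨h9.1, h9.2.1, h8.1, h8.2⟩)
    calc ∑ ρ ∈ S2.filter (fun ρ => J ρ = j), (mu ρ : ℝ) / ρ.im
        ≤ ∑ ρ ∈ S2.filter (fun ρ => J ρ = j), (mu ρ : ℝ) / T := by
          refine Finset.sum_le_sum fun ρ hρ => ?_
          rw [Finset.mem_filter] at hρ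
          have h8 := hJ ρ hρ.1
          rw [hρ.2] at h8
          exact div_le_div_of_nonneg_left (Nat.cast_nonneg _) hT0 h8.1
      _ = (∑ ρ ∈ S2.filter (fun ρ => J ρ = j), (mu ρ : ℝ)) / T := by rw [Finset.sum_div]
      _ ≤ (C * T ^ (1 - δ)) / T := div_le_div_of_nonneg_right h7 hT0.le
      _ = C * T ^ (-δ) := by
          rw [sub_eq_add_neg, Real.rpow_add hT0, Real.rpow_one]
          field_simp
      _ = _ := by
          rw [hT, Real.mul_rpow (by norm_num) (by positivity), hq, ← Real.rpow_natCast 2 j,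
            ← Real.rpow_natCast ((2:ℝ) ^ (-δ)) j, ← Real.rpow_mul (by norm_num),
            ← Real.rpow_mul (by norm_num)]
          rw [mul_assoc]
          congr 3
          ring
  have hhigh : ∑ ρ ∈ S2, (mu ρ : ℝ) / ρ.im ≤ ∑' j : ℕ, C * (3:ℝ) ^ (-δ) * q ^ j := by
    rw [← Finset.sum_fiberwise_of_maps_to (s := S2) (t := S2.image J) (g := J)
      (fun ρ hρ => Finset.mem_image_of_mem J hρ)]
    calc ∑ j ∈ S2.image J, ∑ ρ ∈ S2.filter (fun ρ => J ρ = j), (mu ρ : ℝ) / ρ.im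
        ≤ ∑ j ∈ S2.image J, C * (3:ℝ) ^ (-δ) * q ^ j := Finset.sum_le_sum fun j _ => hblock j
      _ ≤ _ := hgeo.sum_le_tsum _ fun j _ => by positivity
  exact add_le_add hlow hhigh

end H353
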