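import Mathlib

open Complex MeasureTheory Filter Topology Set
open scoped ContDiff FourierTransform

namespace H353

noncomputable section

/-- smooth functions supported in `[0, ε]` -/
structure TF (ε : ℝ) (f : ℝ → ℝ) : Prop where
  smooth : ContDiff ℝ ∞ f
  supp : ∀ t, t ∉ Icc 0 ε → f t = 0

theorem TF.deriv {ε : ℝ} {f : ℝ → ℝ} (h : TF ε f) : TF ε (deriv f) := by
  refine ⟨(contDiff_infty_iff_deriv.1 h.smooth).2, fun t ht => ?_⟩
  have h1 : (Icc 0 ε)ᶜ ∈ 𝓝 t := isClosed_Icc.isOpen_compl.mem_nhds ht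
  have h2 : f =ᶠ[𝓝 t] fun _ => 0 := by
    filter_upwards [h1] with x hx using h.supp x hx
  rw [h2.deriv_eq]
  simp

theorem TF.hcs {ε : ℝ} {f : ℝ → ℝ} (h : TF ε f) : HasCompactSupport f :=
  HasCompactSupport.intro isCompact_Icc h.supp

/-- two sided Laplace transform -/
def DD (f : ℝ → ℝ) (s : ℂ) : ℂ := ∫ t : ℝ, (f t : ℂ) * cexp (-s * t)

theorem TF.integrable {ε : ℝ} {f : ℝ → ℝ} (h : TF ε f) (g : ℝ → ℂ) (hg : Continuous g) :
    Integrable (fun t : ℝ => (f t : ℂ) * g t) := by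
  refine Continuous.integrable_of_hasCompactSupport ?_ ?_
  · have := h.smooth.continuous
    fun_prop
  · refine HasCompactSupport.intro (isCompact_Icc (a := (0:ℝ)) (b := ε)) fun t ht => ?_
    rw [h.supp t ht]
    simp

theorem TF.ibp {ε : ℝ} {f : ℝ → ℝ} (h : TF ε f) (s : ℂ) : DD (_root_.deriv f) s = s * DD f s := by
  unfold DD
  have hd : ∀ x : ℝ, HasDerivAt (fun t : ℝ => (f t : ℂ)) ((_root_.deriv f x : ℝ) : ℂ) x := by
    intro x
    have := ((contDiff_infty_iff_deriv.1 h.smooth).1 x).hasDerivAt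
    exact this.ofReal_comp
  have he : ∀ x : ℝ, HasDerivAt (fun t : ℝ => cexp (-s * t)) (-s * cexp (-s * x)) x := by
    intro x
    have h1 : HasDerivAt (fun z : ℂ => cexp (-s * z)) (cexp (-s * x) * (-s * 1)) (x : ℂ) :=
      ((hasDerivAt_id (x : ℂ)).const_mul (-s)).cexp
    have h2 := h1.comp_ofReal
    convert h2 using 1
    ring
  have key := integral_mul_deriv_eq_deriv_mul_of_integrable (u := fun t : ℝ => cexp (-s * t))
    (v := fun t : ℝ => (f t : ℂ)) (u' := fun t => -s * cexp (-s * t))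
    (v' := fun t => ((_root_.deriv f t : ℝ) : ℂ)) (fun x _ => he x) (fun x _ => hd x) ?_ ?_ ?_
  · simp_rw [mul_comm] at key ⊢
    rw [key, ← integral_neg, ← integral_const_mul]
    refine integral_congr_ae (ae_of_all _ fun t => ?_)
    show -(_ : ℂ) = _
    ring
  · have := h.deriv.integrable (fun t => cexp (-s * t)) (by fun_prop)
    refine this.congr (ae_of_all _ fun t => ?_)
    simp [mul_comm]
  · have := h.integrable (fun t => -s * cexp (-s * t)) (by fun_prop)
    refine this.congr (ae_of_all _ fun t => ?_)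
    simp [mul_comm]
  · have := h.integrable (fun t => cexp (-s * t)) (by fun_prop)
    refine this.congr (ae_of_all _ fun t => ?_)
    simp [mul_comm]

theorem TF.bound {ε : ℝ} {f : ℝ → ℝ} (h : TF ε f) : ∃ C : ℝ, 0 < C ∧ ∀ s : ℂ, 0 ≤ s.re → ‖DD f s‖ ≤ C := by
  have hi : Integrable (fun t => ‖(f t : ℂ) * (1 : ℂ)‖) := (h.integrable (fun _ => 1) continuous_const).norm
  refine ⟨(∫ t, ‖(f t : ℂ) * (1 : ℂ)‖) + 1, ?_, fun s hs => ?_⟩
  · have : 0 ≤ ∫ t, ‖(f t : ℂ) * (1 : ℂ)‖ := integral_nonneg fun _ => norm_nonneg _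
    linarith
  · have : ‖DD f s‖ ≤ ∫ t, ‖(f t : ℂ) * (1 : ℂ)‖ := by
      refine norm_integral_le_of_norm_le hi (ae_of_all _ fun t => ?_)
      by_cases ht : t ∈ Icc 0 ε
      · rw [norm_mul, norm_mul]
        refine mul_le_mul_of_nonneg_left ?_ (norm_nonneg _)
        rw [Complex.norm_exp, norm_one]
        have : (-s * (t : ℂ)).re = -(s.re * t) := by simp
        rw [this]
        exact Real.exp_le_one_iff.2 (neg_nonpos.2 (mul_nonneg hs ht.1))
      · rw [h.supp t ht]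
        simp
    linarith

theorem TF.decay {ε : ℝ} (k : ℕ) : ∀ {f : ℝ → ℝ}, TF ε f → ∃ C : ℝ, 0 < C ∧ ∀ s : ℂ, 0 ≤ s.re →
    ‖s‖ ^ k * ‖DD f s‖ ≤ C := by
  induction k with
  | zero =>
    intro f h
    obtain ⟨C, hC, hb⟩ := h.bound
    exact ⟨C, hC, fun s hs => by simpa using hb s hs⟩
  | succ k ih =>
    intro f h
    obtain ⟨C, hC, hb⟩ := ih h.deriv
    refine ⟨C, hC, fun s hs => ?_⟩
    have := hb s hs
    rw [h.ibp s, norm_mul] at this
    calc ‖s‖ ^ (k + 1) * ‖DD f s‖ = ‖s‖ ^ k * (‖s‖ * ‖DD f s‖) := by ring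
      _ ≤ C := this

theorem TF.diff {ε : ℝ} {f : ℝ → ℝ} (h : TF ε f) : Differentiable ℂ (DD f) := by
  intro s0
  have hcont := h.smooth.continuous
  have key := hasDerivAt_integral_of_dominated_loc_of_deriv_le (μ := (volume : Measure ℝ))
    (F := fun (s : ℂ) (t : ℝ) => (f t : ℂ) * cexp (-s * t))
    (F' := fun (s : ℂ) (t : ℝ) => (f t : ℂ) * (-(t : ℂ) * cexp (-s * t))) (x₀ := s0)
    (s := Metric.ball s0 1) (bound := fun t => ‖(f t : ℂ) * ((t : ℂ) * cexp ((‖s0‖ + 1) * |t|))‖)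
    (Metric.ball_mem_nhds s0 one_pos) ?_ ?_ ?_ ?_ ?_ ?_
  · exact key.2.differentiableAt
  · refine Eventually.of_forall fun s => ?_
    exact (by fun_prop : Continuous _).aestronglyMeasurable
  · exact h.integrable (fun t => cexp (-s0 * t)) (by fun_prop)
  · exact (by fun_prop : Continuous _).aestronglyMeasurable
  · refine ae_of_all _ fun t s hs => ?_
    rw [norm_mul, norm_mul, norm_mul, norm_mul, norm_neg]
    refine mul_le_mul_of_nonneg_left ?_ (norm_nonneg _)
    refine mul_le_mul_of_nonneg_left ?_ (norm_nonneg _)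
    rw [Complex.norm_exp, Complex.norm_exp]
    refine Real.exp_le_exp.2 ?_
    have e : ((‖s0‖ + 1 : ℂ) * ((|t| : ℝ) : ℂ)).re = (‖s0‖ + 1) * |t| := by
      have : ((‖s0‖ + 1 : ℂ) * ((|t| : ℝ) : ℂ)) = (((‖s0‖ + 1) * |t| : ℝ) : ℂ) := by push_cast; ring
      rw [this, Complex.ofReal_re]
    rw [e]
    refine (Complex.re_le_norm _).trans ?_
    rw [norm_mul, norm_neg, Complex.norm_real, Real.norm_eq_abs]
    refine mul_le_mul_of_nonneg_right ?_ (abs_nonneg _)
    rw [Metric.mem_ball, dist_eq_norm] at hs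
    have := norm_add_le (s - s0) s0
    rw [sub_add_cancel] at this
    linarith
  · exact (h.integrable (fun t => (t : ℂ) * cexp ((‖s0‖ + 1) * |t|)) (by fun_prop)).norm
  · refine ae_of_all _ fun t s _ => ?_
    have h1 : HasDerivAt (fun z : ℂ => cexp (-z * t)) (cexp (-s * t) * (-1 * t)) s :=
      (((hasDerivAt_id s).neg).mul_const (t : ℂ)).cexp
    have h2 := h1.const_mul (f t : ℂ)
    have e : (f t : ℂ) * (cexp (-s * t) * (-1 * t)) = (f t : ℂ) * (-(t : ℂ) * cexp (-s * t)) := by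
      ring
    rw [e] at h2
    exact h2

/-- smooth step from 0 (on `t ≤ 0`) to 1 (on `t ≥ ε`) -/
def Ph (ε : ℝ) (t : ℝ) : ℝ := Real.smoothTransition (t / ε)

theorem Ph_smooth (ε : ℝ) : ContDiff ℝ ∞ (Ph ε) := by
  unfold Ph
  exact Real.smoothTransition.contDiff.comp (contDiff_id.div_const _)

theorem Ph_zero (ε : ℝ) (hε : 0 < ε) (t : ℝ) (ht : t ≤ 0) : Ph ε t = 0 :=
  Real.smoothTransition.zero_of_nonpos (div_nonpos_of_nonpos_of_nonneg ht hε.le)

theorem Ph_one (ε : ℝ) (hε : 0 < ε) (t : ℝ) (ht : ε ≤ t) : Ph ε t = 1 :=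
  Real.smoothTransition.one_of_one_le ((one_le_div hε).2 ht)

theorem Ph_nonneg (ε t : ℝ) : 0 ≤ Ph ε t := Real.smoothTransition.nonneg _
theorem Ph_le_one (ε t : ℝ) : Ph ε t ≤ 1 := Real.smoothTransition.le_one _

theorem Ph_mono (ε : ℝ) (hε : 0 < ε) : Monotone (Ph ε) := by
  intro a b hab
  exact Real.smoothTransition.monotone (div_le_div_of_nonneg_right hab hε.le)

theorem Ph_TF (ε : ℝ) (hε : 0 < ε) : TF ε (deriv (Ph ε)) := by
  refine ⟨(contDiff_infty_iff_deriv.1 (Ph_smooth ε)).2, fun t ht => ?_⟩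
  by_cases h0 : t < 0
  · have h2 : Ph ε =ᶠ[𝓝 t] fun _ => 0 := by
      filter_upwards [Iio_mem_nhds h0] with x hx using Ph_zero ε hε x (le_of_lt hx)
    rw [h2.deriv_eq]; simp
  · have h1 : ε < t := by
      by_contra h
      exact ht ⟨not_lt.1 h0, not_lt.1 h⟩
    have h2 : Ph ε =ᶠ[𝓝 t] fun _ => 1 := by
      filter_upwards [Ioi_mem_nhds h1] with x hx using Ph_one ε hε x (le_of_lt hx)
    rw [h2.deriv_eq]; simp

theorem Ph_exp_integrable (ε : ℝ) (hε : 0 < ε) (s : ℂ) (hs : 0 < s.re) :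
    Integrable (fun t : ℝ => (Ph ε t : ℂ) * cexp (-s * t)) := by
  have h1 : IntegrableOn (fun t : ℝ => Real.exp (-s.re * t)) (Ioi 0) :=
    integrableOn_exp_mul_Ioi (by linarith) 0
  have h2 : Integrable (indicator (Ioi 0) (fun t : ℝ => Real.exp (-s.re * t))) :=
    h1.integrable_indicator measurableSet_Ioi
  refine h2.mono' ?_ (ae_of_all _ fun t => ?_)
  · have := (Ph_smooth ε).continuous
    exact (by fun_prop : Continuous _).aestronglyMeasurable
  · rw [norm_mul, Complex.norm_real, Real.norm_eq_abs, abs_of_nonneg (Ph_nonneg _ _),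
      Complex.norm_exp]
    have e : (-s * (t : ℂ)).re = -s.re * t := by simp
    rw [e]
    by_cases ht : 0 < t
    · rw [indicator_of_mem (show t ∈ Ioi 0 from ht)]
      have := Ph_le_one ε t
      exact mul_le_of_le_one_left (Real.exp_pos _).le this
    · rw [indicator_of_notMem (show t ∉ Ioi 0 from ht), Ph_zero ε hε t (not_lt.1 ht)]
      simp

theorem Ph_laplace (ε : ℝ) (hε : 0 < ε) (s : ℂ) (hs : 0 < s.re) :
    ∫ t : ℝ, (Ph ε t : ℂ) * cexp (-s * t) = DD (deriv (Ph ε)) s / s := by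
  have hs0 : s ≠ 0 := by
    rintro rfl
    simp at hs
  unfold DD
  have hd : ∀ x : ℝ, HasDerivAt (fun t : ℝ => (Ph ε t : ℂ)) ((deriv (Ph ε) x : ℝ) : ℂ) x := by
    intro x
    have := ((contDiff_infty_iff_deriv.1 (Ph_smooth ε)).1 x).hasDerivAt
    exact this.ofReal_comp
  have he : ∀ x : ℝ, HasDerivAt (fun t : ℝ => cexp (-s * t)) (-s * cexp (-s * x)) x := by
    intro x
    have h1 : HasDerivAt (fun z : ℂ => cexp (-s * z)) (cexp (-s * x) * (-s * 1)) (x : ℂ) :=
      ((hasDerivAt_id (x : ℂ)).const_mul (-s)).cexp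
    have h2 := h1.comp_ofReal
    convert h2 using 1
    ring
  have key := integral_mul_deriv_eq_deriv_mul_of_integrable (v := fun t : ℝ => cexp (-s * t))
    (u := fun t : ℝ => (Ph ε t : ℂ)) (v' := fun t => -s * cexp (-s * t))
    (u' := fun t => ((deriv (Ph ε) t : ℝ) : ℂ)) (fun x _ => hd x) (fun x _ => he x) ?_ ?_ ?_
  · rw [eq_div_iff hs0]
    have e : ∫ t : ℝ, (Ph ε t : ℂ) * (-s * cexp (-s * t)) =
        -((∫ t : ℝ, (Ph ε t : ℂ) * cexp (-s * t)) * s) := by
      rw [← integral_mul_const, ← integral_neg]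
      refine integral_congr_ae (ae_of_all _ fun t => ?_)
      ring
    rw [e] at key
    exact neg_injective key
  · have := (Ph_exp_integrable ε hε s hs).mul_const (-s)
    refine this.congr (ae_of_all _ fun t => ?_)
    simp only [Pi.mul_apply]
    ring
  · have := (Ph_TF ε hε).integrable (fun t => cexp (-s * t)) (by fun_prop)
    exact this
  · exact Ph_exp_integrable ε hε s hs

end

end H353
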