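import Pool.Agent.H353R2.K2
import Pool.Agent.H353R2.K4

open Complex MeasureTheory ProbabilityTheory Filter Topology Set
open scoped ContDiff

set_option linter.unusedSectionVars false

namespace H353

noncomputable section

/-- contour shift on the lines `x + i y` -/
theorem shift_y (a b : ℝ) (hab : a ≤ b) (f : ℂ → ℂ)
    (hf : ∀ s : ℂ, a ≤ s.re → s.re ≤ b → DifferentiableAt ℂ f s) (C : ℝ)
    (hC : ∀ s : ℂ, a ≤ s.re → s.re ≤ b → ‖f s‖ ≤ C * (1 + s.im ^ 2)⁻¹) :
    ∫ y : ℝ, f ((a : ℂ) + y * I) = ∫ y : ℝ, f ((b : ℂ) + y * I) := by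
  have hre : ∀ c y : ℝ, ((c : ℂ) + y * I).re = c := by intro c y; simp
  have him : ∀ c y : ℝ, ((c : ℂ) + y * I).im = y := by intro c y; simp
  have hC0 : 0 ≤ C := by
    have h1 := hC (a : ℂ) (by simp) (by simpa using hab)
    simp only [ofReal_im] at h1
    have := norm_nonneg (f a)
    norm_num at h1
    linarith
  have hint : ∀ c : ℝ, a ≤ c → c ≤ b → Integrable (fun y : ℝ => f ((c : ℂ) + y * I)) := by
    intro c h1 h2
    refine (integrable_inv_one_add_sq.const_mul C).mono' ?_ (ae_of_all _ fun y => ?_)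
    · refine Continuous.aestronglyMeasurable ?_
      rw [continuous_iff_continuousAt]
      intro y
      have hd : DifferentiableAt ℂ f ((c : ℂ) + y * I) := hf _ (by rw [hre]; exact h1) (by rw [hre]; exact h2)
      exact ContinuousAt.comp (f := fun y : ℝ => (c : ℂ) + y * I) (g := f) hd.continuousAt
        (by fun_prop)
    · have := hC ((c : ℂ) + y * I) (by rw [hre]; exact h1) (by rw [hre]; exact h2)
      rwa [him] at this
  have hV : ∀ c : ℝ, a ≤ c → c ≤ b → Tendsto (fun T : ℝ => ∫ y in (-T)..T, f ((c : ℂ) + y * I)) atTop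
      (𝓝 (∫ y : ℝ, f ((c : ℂ) + y * I))) := fun c h1 h2 =>
    intervalIntegral_tendsto_integral (hint c h1 h2) tendsto_neg_atTop_atBot tendsto_id
  have hdiff := (hV b hab le_rfl).sub (hV a le_rfl hab)
  have hzero : Tendsto (fun T : ℝ => (∫ y in (-T)..T, f ((b : ℂ) + y * I)) -
      ∫ y in (-T)..T, f ((a : ℂ) + y * I)) atTop (𝓝 0) := by
    have hb2 : Tendsto (fun T : ℝ => 2 * ((C * (1 + T ^ 2)⁻¹) * |b - a|)) atTop (𝓝 0) := by
      have h1 : Tendsto (fun T : ℝ => (1 + T ^ 2)⁻¹) atTop (𝓝 0) := by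
        refine tendsto_inv_atTop_zero.comp ?_
        exact tendsto_atTop_add_const_left _ _ (tendsto_pow_atTop (by norm_num))
      have h2 := ((h1.const_mul C).mul_const |b - a|).const_mul 2
      simpa using h2
    refine squeeze_zero_norm' ?_ hb2
    filter_upwards [eventually_ge_atTop (0:ℝ)] with T hT
    have key := Complex.integral_boundary_rect_eq_zero_of_differentiableOn f
      ((a : ℂ) + ((-T : ℝ) : ℂ) * I) ((b : ℂ) + (T : ℂ) * I) ?_
    · rw [hre, hre, him, him] at key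
      have hh : ∀ τ : ℝ, τ ^ 2 = T ^ 2 → ‖∫ x : ℝ in a..b, f (x + τ * I)‖ ≤ (C * (1 + T ^ 2)⁻¹) * |b - a| := by
        intro τ hτ
        refine intervalIntegral.norm_integral_le_of_norm_le_const fun x hx => ?_
        rw [uIoc_of_le hab] at hx
        have := hC ((x : ℂ) + τ * I) (by rw [hre]; exact hx.1.le) (by rw [hre]; exact hx.2)
        rwa [him, hτ] at this
      have e1 := hh (-T) (by ring)
      have e2 := hh T rfl
      have e3 : (∫ y in (-T)..T, f ((b : ℂ) + y * I)) - ∫ y in (-T)..T, f ((a : ℂ) + y * I) =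
          I * ((∫ x : ℝ in a..b, f (x + ((-T : ℝ) : ℂ) * I)) - ∫ x : ℝ in a..b, f (x + (T : ℂ) * I)) := by
        simp only [smul_eq_mul] at key
        have hI : I * I = -1 := Complex.I_mul_I
        linear_combination (-I) * key + ((∫ y in (-T)..T, f ((b : ℂ) + y * I)) - ∫ y in (-T)..T, f ((a : ℂ) + y * I)) * hI
      rw [e3, norm_mul, Complex.norm_I, one_mul]
      refine (norm_sub_le _ _).trans ?_
      linarith
    · intro s hs
      rw [Complex.mem_reProdIm, hre, hre] at hs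
      rw [uIcc_of_le hab] at hs
      exact (hf s hs.1.1 hs.1.2).differentiableWithinAt
  have := tendsto_nhds_unique hdiff hzero
  exact (sub_eq_zero.1 this).symm

theorem shift_ln (a b : ℝ) (hab : a ≤ b) (f : ℂ → ℂ)
    (hf : ∀ s : ℂ, a ≤ s.re → s.re ≤ b → DifferentiableAt ℂ f s) (C : ℝ)
    (hC : ∀ s : ℂ, a ≤ s.re → s.re ≤ b → ‖f s‖ ≤ C * (1 + s.im ^ 2)⁻¹) :
    ∫ ξ : ℝ, f (ln a ξ) = ∫ ξ : ℝ, f (ln b ξ) := by
  have h := shift_y a b hab f hf C hC
  have e : ∀ c : ℝ, ∫ ξ : ℝ, f (ln c ξ) = |(2 * Real.pi)⁻¹| • ∫ y : ℝ, f ((c : ℂ) + y * I) := by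
    intro c
    rw [← Measure.integral_comp_mul_left (fun y : ℝ => f ((c : ℂ) + y * I)) (2 * Real.pi)]
    rfl
  rw [e, e, h]

section sum

variable {ι : Type*} [Countable ι] (b h : ι → ℝ) (h0 : ∀ i, 0 ≤ h i) (hs : Summable h)

/-- the smoothed Mertens sum as a series -/
def gg (b h : ι → ℝ) (ε t : ℝ) : ℝ :=
  ∑' n : ℕ, (ArithmeticFunction.moebius n : ℝ) * Av b h (Ph ε) (t - Real.log n)

include h0 hs in
theorem KK_line_cont (c : ℝ) : Continuous (fun ξ => KK b h (ln c ξ)) :=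
  (KK_diff b h h0 hs).continuous.comp (ln_cont c)

include h0 hs in
theorem gg_formula (ε : ℝ) (hε : 0 < ε) (t : ℝ) :
    (gg b h ε t : ℂ) = ∫ ξ : ℝ, GG ε (ln 2 ξ) * KK b h (ln 2 ξ) * cexp (ln 2 ξ * t) *
      (riemannZeta (ln 2 ξ))⁻¹ := by
  have hG := GG_int ε hε 2 (by norm_num)
  have hGc := GG_line_cont ε hε 2 (by norm_num)
  have hKc := KK_line_cont b h h0 hs 2
  have hlc := ln_cont 2
  set F : ℕ → ℝ → ℂ := fun n ξ => ((ArithmeticFunction.moebius n : ℤ) : ℂ) *
    (GG ε (ln 2 ξ) * KK b h (ln 2 ξ) * cexp (ln 2 ξ * ((t - Real.log n : ℝ) : ℂ))) with hF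
  set B : ℕ → ℝ → ℝ := fun n ξ => ‖GG ε (ln 2 ξ)‖ * (Real.exp (2 * t) * (1 / (n : ℝ) ^ 2)) with hB
  have hBi : ∀ n, Integrable (B n) := fun n => hG.norm.mul_const _
  have hFB : ∀ n ξ, ‖F n ξ‖ ≤ B n ξ := by
    intro n ξ
    by_cases hn : n = 0
    · rw [hF]
      simp only [hn, ArithmeticFunction.map_zero, Int.cast_zero, zero_mul, norm_zero]
      rw [hB]
      positivity
    · have hn0 : (0:ℝ) < n := by exact_mod_cast Nat.pos_of_ne_zero hn
      have hmu : ‖((ArithmeticFunction.moebius n : ℤ) : ℂ)‖ ≤ 1 := by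
        have h1 := ArithmeticFunction.abs_moebius_le_one (n := n)
        rw [Complex.norm_intCast]
        exact_mod_cast h1
      have hK : ‖KK b h (ln 2 ξ)‖ ≤ 1 := KK_norm b h h0 _ (by rw [ln_re]; norm_num)
      have he : ‖cexp (ln 2 ξ * ((t - Real.log n : ℝ) : ℂ))‖ = Real.exp (2 * t) * (1 / (n : ℝ) ^ 2) := by
        rw [Complex.norm_exp, Complex.re_mul_ofReal, ln_re, mul_sub, Real.exp_sub,
          show (2:ℝ) * Real.log n = Real.log ((n:ℝ) ^ 2) by rw [Real.log_pow]; norm_num,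
          Real.exp_log (by positivity)]
        ring
      rw [hF, hB]
      simp only [norm_mul]
      rw [he]
      have hG0 := norm_nonneg (GG ε (ln 2 ξ))
      have hp : 0 ≤ Real.exp (2 * t) * (1 / (n : ℝ) ^ 2) := by positivity
      calc ‖((ArithmeticFunction.moebius n : ℤ) : ℂ)‖ * (‖GG ε (ln 2 ξ)‖ * ‖KK b h (ln 2 ξ)‖ *
            (Real.exp (2 * t) * (1 / (n : ℝ) ^ 2)))
          ≤ 1 * (‖GG ε (ln 2 ξ)‖ * 1 * (Real.exp (2 * t) * (1 / (n : ℝ) ^ 2))) := by gcongr
        _ = _ := by ring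
  have hFi : ∀ n, Integrable (F n) := by
    intro n
    refine (hBi n).mono' ?_ (ae_of_all _ (hFB n))
    exact (by rw [hF]; fun_prop : Continuous (F n)).aestronglyMeasurable
  have hsum : Summable (fun n => ∫ ξ, ‖F n ξ‖) := by
    refine Summable.of_nonneg_of_le (fun n => integral_nonneg fun _ => norm_nonneg _)
      (fun n => integral_mono (hFi n).norm (hBi n) (hFB n)) ?_
    have e : (fun n : ℕ => ∫ ξ, B n ξ) = fun n : ℕ => (∫ ξ, ‖GG ε (ln 2 ξ)‖) * Real.exp (2 * t) * (1 / (n : ℝ) ^ 2) := by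
      funext n
      rw [hB]
      simp only
      rw [integral_mul_const]
      ring
    rw [e]
    exact (Real.summable_one_div_nat_pow.2 (by norm_num)).mul_left _
  have key := integral_tsum_of_summable_integral_norm hFi hsum
  have e1 : ∀ n, ∫ ξ, F n ξ = (((ArithmeticFunction.moebius n : ℝ) *
      Av b h (Ph ε) (t - Real.log n) : ℝ) : ℂ) := by
    intro n
    rw [hF]
    simp only
    rw [integral_const_mul, Av_Ph_inv b h h0 hs ε hε]
    push_cast
    rfl
  have e2 : ∀ ξ, ∑' n, F n ξ = GG ε (ln 2 ξ) * KK b h (ln 2 ξ) * cexp (ln 2 ξ * t) *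
      (riemannZeta (ln 2 ξ))⁻¹ := by
    intro ξ
    have hre1 : 1 < (ln 2 ξ).re := by rw [ln_re]; norm_num
    have hL : LSeries (fun n => ((ArithmeticFunction.moebius n : ℤ) : ℂ)) (ln 2 ξ) =
        (riemannZeta (ln 2 ξ))⁻¹ := by
      have h2 := ArithmeticFunction.LSeries_zeta_mul_Lseries_moebius hre1
      rw [ArithmeticFunction.LSeries_zeta_eq_riemannZeta hre1] at h2
      exact eq_inv_of_mul_eq_one_right h2
    rw [← hL, LSeries, ← tsum_mul_left]
    refine tsum_congr fun n => ?_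
    rw [hF]
    simp only
    by_cases hn : n = 0
    · simp [hn]
    · rw [LSeries.term_of_ne_zero hn]
      have hn0 : (0:ℝ) < n := by exact_mod_cast Nat.pos_of_ne_zero hn
      have hnc : (n : ℂ) ≠ 0 := by exact_mod_cast hn
      have e3 : cexp (ln 2 ξ * ((t - Real.log n : ℝ) : ℂ)) = cexp (ln 2 ξ * t) / (n : ℂ) ^ (ln 2 ξ) := by
        rw [Complex.cpow_def_of_ne_zero hnc, ← Complex.exp_sub]
        congr 1
        rw [← Complex.natCast_log]
        push_cast
        ring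
      rw [e3]
      ring
  simp_rw [e1, e2] at key
  rw [← key, gg, Complex.ofReal_tsum]

end sum

end

end H353
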