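import Pool.Agent.H353R2.K5

open Complex MeasureTheory ProbabilityTheory Filter Topology Set
open scoped ContDiff

namespace H353

noncomputable section

theorem exists_H (σ θ : ℝ) (h1 : 1 / 2 < σ) (h2 : σ < θ) (h3 : θ < 1) :
    ∃ H : ℂ → ℂ, ∃ D : ℝ, ∃ N : ℕ, 0 < D ∧ (∀ s : ℂ, σ < s.re → DifferentiableAt ℂ H s) ∧
      (∀ s : ℂ, σ < s.re → KS σ s = FF s * H s) ∧
      ∀ s : ℂ, θ ≤ s.re → s.re ≤ 2 → ‖H s‖ ≤ D * ‖s‖ ^ N := by
  obtain ⟨H, hH, hKH⟩ := exists_quot {s : ℂ | σ < s.re} FF (KS σ) ZU.J_g2b.FF_diff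
    (KS_diff σ h1 (by linarith)) FF_order_ne_top
    (fun ρ hρ h0 => KS_order σ h1 (by linarith) ρ h0 (le_of_lt hρ))
  set κ : ℝ := 2 * (2 - θ) / (θ - σ) with hκ
  have hκ0 : 0 ≤ κ := div_nonneg (by linarith) (by linarith)
  have hσ : 0 < σ := by linarith
  set Q : ℝ → ℝ := fun y => 2 * (2 * ((1 + 2 / σ) * (5 + |y|) ^ 2)) ^ κ with hQ
  have hQc : Continuous Q := by
    rw [hQ]
    refine continuous_const.mul ?_
    refine Continuous.rpow_const (by fun_prop) fun y => Or.inr hκ0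
  have hbase : ∀ s : ℂ, θ ≤ s.re → s.re ≤ 2 → FF s ≠ 0 → ‖H s‖ ≤ Q s.im := by
    intro s hs1 hs2 h0
    have h4 := KS_le σ θ h1 h2 h3 s hs1 hs2
    rw [hKH s (show σ < s.re by linarith), norm_mul] at h4
    exact le_of_mul_le_mul_left h4 (norm_pos_iff.2 h0)
  have hall : ∀ s : ℂ, θ ≤ s.re → s.re ≤ 2 → ‖H s‖ ≤ Q s.im := by
    intro s hs1 hs2
    have hev : ∀ᶠ w in 𝓝[≠] s, FF w ≠ 0 := by
      rcases (FF_anal s).eventually_eq_zero_or_eventually_ne_zero with h | h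
      · exact absurd (analyticOrderAt_eq_top.2 h) (FF_order_ne_top s)
      · exact h
    have hpath : Tendsto (fun η : ℝ => s + (η : ℂ) * I) (𝓝[≠] 0) (𝓝[≠] s) := by
      refine tendsto_nhdsWithin_iff.2 ⟨?_, ?_⟩
      · have : Continuous (fun η : ℝ => s + (η : ℂ) * I) := by fun_prop
        have h := this.tendsto 0
        simp only [ofReal_zero, zero_mul, add_zero] at h
        exact h.mono_left nhdsWithin_le_nhds
      · filter_upwards [self_mem_nhdsWithin] with η hη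
        have hη0 : (η : ℂ) ≠ 0 := by exact_mod_cast hη
        simp only [mem_compl_iff, mem_singleton_iff, add_eq_left, mul_eq_zero, not_or]
        exact ⟨hη0, Complex.I_ne_zero⟩
    have hHs : Tendsto (fun η : ℝ => ‖H (s + (η : ℂ) * I)‖) (𝓝[≠] 0) (𝓝 ‖H s‖) := by
      have : Tendsto H (𝓝[≠] s) (𝓝 (H s)) :=
        (hH s (show σ < s.re by linarith)).continuousAt.tendsto.mono_left nhdsWithin_le_nhds
      exact (this.comp hpath).norm
    have hQs : Tendsto (fun η : ℝ => Q (s.im + η)) (𝓝[≠] 0) (𝓝 (Q s.im)) := by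
      have : Continuous (fun η : ℝ => Q (s.im + η)) := by fun_prop
      have h := this.tendsto 0
      simp only [add_zero] at h
      exact h.mono_left nhdsWithin_le_nhds
    refine le_of_tendsto_of_tendsto hHs hQs ?_
    filter_upwards [hpath.eventually hev] with η hη
    have := hbase (s + (η : ℂ) * I) (by simpa using hs1) (by simpa using hs2) hη
    simpa using this
  set D0 : ℝ := 2 * (1 + 2 / σ) * 121 with hD0
  have hD0p : 242 ≤ D0 := by
    have : 0 < 2 / σ := by positivity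
    rw [hD0]; nlinarith
  refine ⟨H, 2 * D0 ^ ⌈κ⌉₊, 2 * ⌈κ⌉₊, by positivity, fun s hs => (hH s hs).differentiableAt, hKH, ?_⟩
  intro s hs1 hs2
  refine (hall s hs1 hs2).trans ?_
  have hn : 1 / 2 ≤ ‖s‖ := by
    have := (le_abs_self s.re).trans (Complex.abs_re_le_norm s)
    linarith
  have hn0 : 0 < ‖s‖ := by linarith
  have him := Complex.abs_im_le_norm s
  have h5 : 2 * ((1 + 2 / σ) * (5 + |s.im|) ^ 2) ≤ D0 * ‖s‖ ^ 2 := by
    have h6 : (5 + |s.im|) ^ 2 ≤ (11 * ‖s‖) ^ 2 :=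
      pow_le_pow_left₀ (by positivity) (by linarith) 2
    have : 0 < 2 / σ := by positivity
    rw [hD0]
    nlinarith
  have h7 : 0 ≤ 2 * ((1 + 2 / σ) * (5 + |s.im|) ^ 2) := by positivity
  have h8 : 1 ≤ D0 * ‖s‖ ^ 2 := by nlinarith
  rw [hQ]
  simp only
  calc 2 * (2 * ((1 + 2 / σ) * (5 + |s.im|) ^ 2)) ^ κ ≤ 2 * (D0 * ‖s‖ ^ 2) ^ κ := by
        have := Real.rpow_le_rpow h7 h5 hκ0
        linarith
    _ ≤ 2 * (D0 * ‖s‖ ^ 2) ^ ((⌈κ⌉₊ : ℕ) : ℝ) := by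
        have := Real.rpow_le_rpow_of_exponent_le h8 (Nat.le_ceil κ)
        linarith
    _ = 2 * D0 ^ ⌈κ⌉₊ * ‖s‖ ^ (2 * ⌈κ⌉₊) := by
        rw [Real.rpow_natCast, mul_pow, ← pow_mul]
        ring

theorem gg_bound (σ θ ε : ℝ) (h1 : 1 / 2 < σ) (h2 : σ < θ) (h3 : θ < 1) (hε : 0 < ε) :
    ∃ C : ℝ, 0 < C ∧ ∀ t : ℝ, |gg (bx σ) (hx σ) ε t| ≤ C * Real.exp (θ * t) := by
  obtain ⟨H, D, N, hD, hHd, hKH, hHb⟩ := exists_H σ θ h1 h2 h3
  obtain ⟨C2, hC2, hG⟩ := GG_decay ε hε (N + 2)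
  have := ZS_countable σ h1 (by linarith)
  set f : ℝ → ℂ → ℂ := fun t s => GG ε s * ((s - 1) * H s) * cexp (s * t) with hf
  have hfb : ∀ t : ℝ, ∀ s : ℂ, θ ≤ s.re → s.re ≤ 2 →
      ‖f t s‖ ≤ (12 * D * C2) * Real.exp (s.re * t) * (1 + s.im ^ 2)⁻¹ := by
    intro t s hs1 hs2
    have hn : 1 / 2 ≤ ‖s‖ := by
      have := (le_abs_self s.re).trans (Complex.abs_re_le_norm s)
      linarith
    have hn0 : 0 < ‖s‖ := by linarith
    have e1 : ‖f t s‖ = ‖GG ε s‖ * (‖s - 1‖ * ‖H s‖) * Real.exp (s.re * t) := by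
      rw [hf]
      simp only [norm_mul]
      rw [Complex.norm_exp, Complex.re_mul_ofReal]
    have e2 : ‖s - 1‖ ≤ 3 * ‖s‖ := by
      have := norm_sub_le s 1
      rw [norm_one] at this
      linarith
    have e3 := hHb s hs1 hs2
    have e4 := hG s (by linarith)
    have e5 : (1 + s.im ^ 2) ≤ 4 * ‖s‖ ^ 2 := by
      rw [Complex.sq_norm, Complex.normSq_apply]
      nlinarith [sq_nonneg s.im]
    have hpos : 0 < 1 + s.im ^ 2 := by positivity
    rw [e1, ← div_eq_mul_inv, le_div_iff₀ hpos]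
    have hGn := norm_nonneg (GG ε s)
    have hE := Real.exp_pos (s.re * t)
    calc ‖GG ε s‖ * (‖s - 1‖ * ‖H s‖) * Real.exp (s.re * t) * (1 + s.im ^ 2)
        ≤ ‖GG ε s‖ * ((3 * ‖s‖) * (D * ‖s‖ ^ N)) * Real.exp (s.re * t) * (4 * ‖s‖ ^ 2) := by gcongr
      _ = (12 * D * Real.exp (s.re * t)) * (‖s‖ ^ (N + 2 + 1) * ‖GG ε s‖) := by ring
      _ ≤ (12 * D * Real.exp (s.re * t)) * C2 := by gcongr
      _ = _ := by ring
  have hpi : 0 < ∫ ξ : ℝ, (1 + ξ ^ 2)⁻¹ := by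
    rw [integral_univ_inv_one_add_sq]
    exact Real.pi_pos
  refine ⟨(12 * D * C2) * ∫ ξ : ℝ, (1 + ξ ^ 2)⁻¹, by positivity, fun t => ?_⟩
  have hfd : ∀ s : ℂ, θ ≤ s.re → s.re ≤ 2 → DifferentiableAt ℂ (f t) s := by
    intro s hs1 _
    have hs0 : s ≠ 0 := by
      rintro rfl
      simp at hs1
      linarith
    have d1 := GG_diffAt ε hε s hs0
    have d2 := hHd s (by linarith)
    rw [hf]
    simp only
    fun_prop
  have hshift := shift_ln θ 2 (by linarith) (f t) hfd ((12 * D * C2) * Real.exp (2 * |t|)) (by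
    intro s hs1 hs2
    refine (hfb t s hs1 hs2).trans ?_
    have : s.re * t ≤ 2 * |t| := by
      have h6 : s.re * t ≤ s.re * |t| := mul_le_mul_of_nonneg_left (le_abs_self t) (by linarith)
      have h7 : s.re * |t| ≤ 2 * |t| := mul_le_mul_of_nonneg_right hs2 (abs_nonneg t)
      linarith
    gcongr)
  have hform := gg_formula (bx σ) (hx σ) (fun i => (hx_pos σ i).le) (hx_summable σ h1 (by linarith)) ε hε t
  have e2 : (∫ ξ : ℝ, GG ε (ln 2 ξ) * KK (bx σ) (hx σ) (ln 2 ξ) * cexp (ln 2 ξ * t) *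
      (riemannZeta (ln 2 ξ))⁻¹) = ∫ ξ : ℝ, f t (ln 2 ξ) := by
    refine integral_congr_ae (ae_of_all _ fun ξ => ?_)
    simp only [hf]
    have hre : (ln 2 ξ).re = 2 := ln_re 2 ξ
    have hne1 : ln 2 ξ ≠ 1 := by
      intro h
      have := congrArg Complex.re h
      rw [hre] at this
      simp at this
    have hz : riemannZeta (ln 2 ξ) ≠ 0 := riemannZeta_ne_zero_of_one_lt_re (by rw [hre]; norm_num)
    have hK : KK (bx σ) (hx σ) (ln 2 ξ) = FF (ln 2 ξ) * H (ln 2 ξ) := hKH _ (by rw [hre]; linarith)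
    rw [hK, show FF (ln 2 ξ) = (ln 2 ξ - 1) * riemannZeta (ln 2 ξ) from ZU.J_g2b.FF_ne hne1]
    field_simp
  rw [e2, ← hshift] at hform
  have hn : |gg (bx σ) (hx σ) ε t| = ‖(gg (bx σ) (hx σ) ε t : ℂ)‖ := by
    rw [Complex.norm_real, Real.norm_eq_abs]
  rw [hn, hform]
  calc ‖∫ ξ : ℝ, f t (ln θ ξ)‖ ≤ ∫ ξ : ℝ, (12 * D * C2) * Real.exp (θ * t) * (1 + ξ ^ 2)⁻¹ := by
        refine norm_integral_le_of_norm_le (integrable_inv_one_add_sq.const_mul _) (ae_of_all _ fun ξ => ?_)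
        refine (hfb t (ln θ ξ) (by rw [ln_re]) (by rw [ln_re]; linarith)).trans ?_
        rw [ln_re, ln_im]
        have : ξ ^ 2 ≤ (2 * Real.pi * ξ) ^ 2 := by
          have hpi : 1 ≤ (2 * Real.pi) ^ 2 := by nlinarith [Real.pi_gt_three]
          nlinarith [sq_nonneg ξ]
        have hp : 0 < 1 + ξ ^ 2 := by positivity
        have : (1 + (2 * Real.pi * ξ) ^ 2)⁻¹ ≤ (1 + ξ ^ 2)⁻¹ := inv_anti₀ hp (by linarith)
        gcongr
    _ = (12 * D * C2 * ∫ ξ : ℝ, (1 + ξ ^ 2)⁻¹) * Real.exp (θ * t) := by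
        rw [integral_const_mul]
        ring

end

end H353
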