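import Pool.Agent.H353R2.K6

open Complex MeasureTheory ProbabilityTheory Filter Topology Set
open scoped ContDiff

namespace H353

noncomputable section

def Sset (σ : ℝ) : Set ℂ := {ρ : ℂ | FF ρ = 0 ∧ σ ≤ ρ.re ∧ 0 < ρ.im}

def wt (ρ : ℂ) : ℝ := (mu ρ : ℝ) / ρ.im

/-- total length used by the kernel -/
def HT (σ : ℝ) : ℝ := ∑' i, hx σ i

theorem HT_eq (σ : ℝ) (h1 : 1 / 2 < σ) (h2 : σ < 1) :
    HT σ = Real.pi * ∑' ρ : ℂ, (Sset σ).indicator wt ρ := by
  unfold HT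
  rw [hx_tsum σ h1 h2, ← tsum_subtype]
  rfl

theorem ind_summable (σ : ℝ) (h1 : 1 / 2 < σ) (h2 : σ < 1) :
    Summable ((Sset σ).indicator wt) := by
  rw [← summable_subtype_iff_indicator]
  exact zero_sum σ h1 h2

theorem HT_nonneg (σ : ℝ) : 0 ≤ HT σ := tsum_nonneg fun i => (hx_pos σ i).le

theorem HT_tendsto : Tendsto HT (𝓝[<] 1) (𝓝 0) := by
  have key : Tendsto (fun σ : ℝ => ∑' ρ : ℂ, (Sset σ).indicator wt ρ) (𝓝[<] 1)
      (𝓝 (∑' ρ : ℂ, (0:ℝ))) := by
    refine tendsto_tsum_of_dominated_convergence (bound := (Sset (3/4)).indicator wt)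
      (ind_summable (3/4) (by norm_num) (by norm_num)) ?_ ?_
    · intro ρ
      by_cases hz : FF ρ = 0
      · have hre := ZU.J_g2b.FF_zero_re hz
        refine tendsto_const_nhds.congr' ?_
        have : Ioi ρ.re ∈ 𝓝[<] (1:ℝ) := mem_nhdsWithin_of_mem_nhds (Ioi_mem_nhds hre)
        filter_upwards [this] with σ hσ
        show (0:ℝ) = (Sset σ).indicator wt ρ
        rw [indicator_of_notMem]
        rintro ⟨_, h, _⟩
        exact absurd h (not_le.2 hσ)
      · refine tendsto_const_nhds.congr' (Eventually.of_forall fun σ => ?_)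
        show (0:ℝ) = (Sset σ).indicator wt ρ
        rw [indicator_of_notMem]
        rintro ⟨h, _, _⟩
        exact hz h
    · have : Ioi (3/4 : ℝ) ∈ 𝓝[<] (1:ℝ) := mem_nhdsWithin_of_mem_nhds (Ioi_mem_nhds (by norm_num))
      filter_upwards [this] with σ hσ ρ
      have hσ' : 3 / 4 < σ := hσ
      by_cases hm : ρ ∈ Sset σ
      · have hm2 : ρ ∈ Sset (3/4) := ⟨hm.1, by linarith [hm.2.1], hm.2.2⟩
        rw [indicator_of_mem hm, indicator_of_mem hm2, Real.norm_eq_abs, abs_of_nonneg]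
        exact div_nonneg (Nat.cast_nonneg _) hm.2.2.le
      · rw [indicator_of_notMem hm, norm_zero]
        refine indicator_nonneg ?_ ρ
        intro z hz
        exact div_nonneg (Nat.cast_nonneg _) hz.2.2.le
  rw [tsum_zero] at key
  have h2 := key.const_mul Real.pi
  rw [mul_zero] at h2
  refine h2.congr' ?_
  have h3 : Ioi (1/2 : ℝ) ∈ 𝓝[<] (1:ℝ) := mem_nhdsWithin_of_mem_nhds (Ioi_mem_nhds (by norm_num))
  filter_upwards [h3, self_mem_nhdsWithin] with σ hσ hσ1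
  exact (HT_eq σ hσ hσ1).symm

/-- the abscissa attached to `θ` -/
def sg (θ : ℝ) : ℝ := 1 / 2 + θ * (θ - 1 / 2)

theorem sg_bounds (θ : ℝ) (h1 : 1 / 2 < θ) (h2 : θ < 1) : 1 / 2 < sg θ ∧ sg θ < θ := by
  unfold sg
  constructor <;> nlinarith

theorem sg_tendsto : Tendsto sg (𝓝[<] 1) (𝓝[<] 1) := by
  refine tendsto_nhdsWithin_iff.2 ⟨?_, ?_⟩
  · have : Continuous sg := by unfold sg; fun_prop
    have h := this.tendsto 1
    have e : sg 1 = 1 := by unfold sg; norm_num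
    rw [e] at h
    exact h.mono_left nhdsWithin_le_nhds
  · have h3 : Ioi (1/2 : ℝ) ∈ 𝓝[<] (1:ℝ) := mem_nhdsWithin_of_mem_nhds (Ioi_mem_nhds (by norm_num))
    filter_upwards [h3, self_mem_nhdsWithin] with θ h1 h2
    exact (sg_bounds θ h1 h2).2.trans h2

/-- the scale -/
def AA (θ : ℝ) : ℝ := Real.exp ((1 - θ) + HT (sg θ))

theorem AA_tendsto : Tendsto AA (𝓝[<] 1) (𝓝 1) := by
  have h1 : Tendsto (fun θ : ℝ => (1 - θ) + HT (sg θ)) (𝓝[<] 1) (𝓝 0) := by
    have h2 : Tendsto (fun θ : ℝ => 1 - θ) (𝓝[<] 1) (𝓝 0) := by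
      have : Continuous (fun θ : ℝ => 1 - θ) := by fun_prop
      have h := this.tendsto 1
      rw [sub_self] at h
      exact h.mono_left nhdsWithin_le_nhds
    have h3 := h2.add (HT_tendsto.comp sg_tendsto)
    rw [add_zero] at h3
    exact h3
  have := (Real.continuous_exp.tendsto 0).comp h1
  rw [Real.exp_zero] at this
  exact this

/-- the cutoff -/
def WW (θ : ℝ) (y : ℝ) : ℝ :=
  if 0 < y then Av (bx (sg θ)) (hx (sg θ)) (Ph (1 - θ)) (Real.log y) else 0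

section

variable (θ : ℝ) (h1 : 1 / 2 < θ) (h2 : θ < 1)

include h1 h2

theorem WW_zero (y : ℝ) (hy : y ≤ 1) : WW θ y = 0 := by
  have hb := sg_bounds θ h1 h2
  have := ZS_countable (sg θ) hb.1 (by linarith)
  unfold WW
  split_ifs with h
  · exact Av_Ph_zero _ _ (fun i => (hx_pos _ i).le) (1 - θ) (by linarith) _
      (Real.log_nonpos h.le hy)
  · rfl

theorem WW_one (y : ℝ) (hy : AA θ ≤ y) : WW θ y = 1 := by
  have hb := sg_bounds θ h1 h2
  have := ZS_countable (sg θ) hb.1 (by linarith)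
  have hA : 0 < AA θ := Real.exp_pos _
  unfold WW
  rw [if_pos (by linarith)]
  refine Av_Ph_one _ _ (fun i => (hx_pos _ i).le) (hx_summable _ hb.1 (by linarith)) (1 - θ) (by linarith) _ ?_
  rw [Real.le_log_iff_exp_le (by linarith)]
  exact hy

theorem WW_mono : Monotone (WW θ) := by
  have hb := sg_bounds θ h1 h2
  have := ZS_countable (sg θ) hb.1 (by linarith)
  intro y z hyz
  unfold WW
  by_cases hy : 0 < y
  · rw [if_pos hy, if_pos (by linarith)]
    exact Av_Ph_mono _ _ (fun i => (hx_pos _ i).le) (hx_summable _ hb.1 (by linarith)) (1 - θ)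
      (by linarith) (Real.log_le_log hy hyz)
  · rw [if_neg hy]
    split_ifs
    · exact Av_Ph_nonneg _ _ _ _
    · exact le_rfl

theorem WW_smooth : ContDiff ℝ ∞ (WW θ) := by
  have hb := sg_bounds θ h1 h2
  have := ZS_countable (sg θ) hb.1 (by linarith)
  rw [contDiff_iff_contDiffAt]
  intro y
  by_cases hy : y < 1
  · have : WW θ =ᶠ[𝓝 y] fun _ => 0 := by
      filter_upwards [Iio_mem_nhds hy] with z hz using WW_zero θ h1 h2 z (le_of_lt hz)
    exact contDiffAt_const.congr_of_eventuallyEq this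
  · have hy0 : 0 < y := by linarith [not_lt.1 hy]
    have : WW θ =ᶠ[𝓝 y] fun z => Av (bx (sg θ)) (hx (sg θ)) (Ph (1 - θ)) (Real.log z) := by
      filter_upwards [Ioi_mem_nhds hy0] with z hz
      unfold WW
      rw [if_pos (show 0 < z from hz)]
    refine ContDiffAt.congr_of_eventuallyEq ?_ this
    have hs := Av_Ph_smooth (bx (sg θ)) (hx (sg θ)) (fun i => (hx_pos _ i).le)
      (hx_summable _ hb.1 (by linarith)) (1 - θ) (by linarith)
    exact hs.contDiffAt.comp y (Real.contDiffAt_log.2 hy0.ne')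

theorem WW_bound : ∃ C : ℝ, 0 < C ∧ ∀ x : ℝ, 1 ≤ x →
    |∑ n ∈ Finset.Icc 1 ⌊x⌋₊, (ArithmeticFunction.moebius n : ℝ) * WW θ (x / n)| ≤ C * x ^ θ := by
  have hb := sg_bounds θ h1 h2
  have := ZS_countable (sg θ) hb.1 (by linarith)
  obtain ⟨C, hC, hg⟩ := gg_bound (sg θ) θ (1 - θ) hb.1 hb.2 h2 (by linarith)
  refine ⟨C, hC, fun x hx1 => ?_⟩
  have hx0 : 0 < x := by linarith
  have h := hg (Real.log x)
  have e1 : gg (bx (sg θ)) (hx (sg θ)) (1 - θ) (Real.log x) =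
      ∑ n ∈ Finset.Icc 1 ⌊x⌋₊, (ArithmeticFunction.moebius n : ℝ) * WW θ (x / n) := by
    unfold gg
    rw [tsum_eq_sum (s := Finset.Icc 1 ⌊x⌋₊)]
    · refine Finset.sum_congr rfl fun n hn => ?_
      rw [Finset.mem_Icc] at hn
      have hn0 : (0:ℝ) < n := by exact_mod_cast hn.1
      unfold WW
      rw [if_pos (by positivity), Real.log_div hx0.ne' hn0.ne']
    · intro n hn
      by_cases h0 : n = 0
      · simp [h0]
      · have hn1 : 1 ≤ n := Nat.one_le_iff_ne_zero.2 h0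
        have hn2 : ⌊x⌋₊ < n := by
          by_contra h'
          exact hn (Finset.mem_Icc.2 ⟨hn1, not_lt.1 h'⟩)
        have hn3 : x < n := (Nat.floor_lt hx0.le).1 hn2
        rw [Av_Ph_zero _ _ (fun i => (hx_pos _ i).le) (1 - θ) (by linarith) _ ?_, mul_zero]
        have := Real.log_lt_log hx0 hn3
        linarith
  rw [e1] at h
  refine h.trans (le_of_eq ?_)
  rw [Real.rpow_def_of_pos hx0]
  ring_nf

end

theorem main : ∃ A : ℝ → ℝ, Tendsto A (𝓝[<] 1) (𝓝 1) ∧ ∀ θ : ℝ, 1 / 2 < θ → θ < 1 →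
    ∃ W : ℝ → ℝ, ContDiff ℝ ∞ W ∧ Monotone W ∧ (∀ y ≤ 1, W y = 0) ∧ (∀ y, A θ ≤ y → W y = 1) ∧
      ∃ C : ℝ, ∀ x : ℝ, 1 ≤ x →
        |∑ n ∈ Finset.Icc 1 ⌊x⌋₊, (ArithmeticFunction.moebius n : ℝ) * W (x / n)| ≤ C * x ^ θ := by
  refine ⟨AA, AA_tendsto, fun θ h1 h2 => ⟨WW θ, WW_smooth θ h1 h2, WW_mono θ h1 h2,
    WW_zero θ h1 h2, WW_one θ h1 h2, ?_⟩⟩
  obtain ⟨C, _, hC⟩ := WW_bound θ h1 h2
  exact ⟨C, hC⟩

end

end H353
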