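import Pool.Agent.H353R2.K7

open Complex MeasureTheory ProbabilityTheory Filter Topology Set
open scoped ContDiff

set_option linter.unusedSectionVars false

namespace H353

noncomputable section

section sum

variable {ι : Type*} [Countable ι] (b h : ι → ℝ) (h0 : ∀ i, 0 ≤ h i) (hs : Summable h)

include h0 hs in
theorem gen_formula (ε : ℝ) (hε : 0 < ε) (t : ℝ) (a : ℕ → ℝ) (ha0 : a 0 = 0)
    (hsum : Summable (fun n : ℕ => |a n| / (n : ℝ) ^ 2)) :
    ((∑' n : ℕ, a n * Av b h (Ph ε) (t - Real.log n) : ℝ) : ℂ) =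
      ∫ ξ : ℝ, GG ε (ln 2 ξ) * KK b h (ln 2 ξ) * cexp (ln 2 ξ * t) *
      LSeries (fun n => (a n : ℂ)) (ln 2 ξ) := by
  have hG := GG_int ε hε 2 (by norm_num)
  have hGc := GG_line_cont ε hε 2 (by norm_num)
  have hKc := KK_line_cont b h h0 hs 2
  have hlc := ln_cont 2
  set F : ℕ → ℝ → ℂ := fun n ξ => (a n : ℂ) *
    (GG ε (ln 2 ξ) * KK b h (ln 2 ξ) * cexp (ln 2 ξ * ((t - Real.log n : ℝ) : ℂ))) with hF
  set B : ℕ → ℝ → ℝ := fun n ξ => ‖GG ε (ln 2 ξ)‖ * (Real.exp (2 * t) * (|a n| / (n : ℝ) ^ 2)) with hB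
  have hBi : ∀ n, Integrable (B n) := fun n => hG.norm.mul_const _
  have hFB : ∀ n ξ, ‖F n ξ‖ ≤ B n ξ := by
    intro n ξ
    by_cases hn : n = 0
    · rw [hF]
      simp only [hn, ha0, Complex.ofReal_zero, zero_mul, norm_zero]
      rw [hB]
      positivity
    · have hn0 : (0:ℝ) < n := by exact_mod_cast Nat.pos_of_ne_zero hn
      have hK : ‖KK b h (ln 2 ξ)‖ ≤ 1 := KK_norm b h h0 _ (by rw [ln_re]; norm_num)
      have he : ‖cexp (ln 2 ξ * ((t - Real.log n : ℝ) : ℂ))‖ = Real.exp (2 * t) * (1 / (n : ℝ) ^ 2) := by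
        rw [Complex.norm_exp, Complex.re_mul_ofReal, ln_re, mul_sub, Real.exp_sub,
          show (2:ℝ) * Real.log n = Real.log ((n:ℝ) ^ 2) by rw [Real.log_pow]; norm_num,
          Real.exp_log (by positivity)]
        ring
      rw [hF, hB]
      simp only [norm_mul, Complex.norm_real, Real.norm_eq_abs]
      rw [he]
      have hG0 := norm_nonneg (GG ε (ln 2 ξ))
      have hp : 0 ≤ Real.exp (2 * t) * (1 / (n : ℝ) ^ 2) := by positivity
      have hab := abs_nonneg (a n)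
      calc |a n| * (‖GG ε (ln 2 ξ)‖ * ‖KK b h (ln 2 ξ)‖ *
            (Real.exp (2 * t) * (1 / (n : ℝ) ^ 2)))
          ≤ |a n| * (‖GG ε (ln 2 ξ)‖ * 1 * (Real.exp (2 * t) * (1 / (n : ℝ) ^ 2))) := by gcongr
        _ = _ := by ring
  have hFi : ∀ n, Integrable (F n) := by
    intro n
    refine (hBi n).mono' ?_ (ae_of_all _ (hFB n))
    exact (by rw [hF]; fun_prop : Continuous (F n)).aestronglyMeasurable
  have hsum' : Summable (fun n => ∫ ξ, ‖F n ξ‖) := by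
    refine Summable.of_nonneg_of_le (fun n => integral_nonneg fun _ => norm_nonneg _)
      (fun n => integral_mono (hFi n).norm (hBi n) (hFB n)) ?_
    have e : (fun n : ℕ => ∫ ξ, B n ξ) = fun n : ℕ => (∫ ξ, ‖GG ε (ln 2 ξ)‖) * Real.exp (2 * t) * (|a n| / (n : ℝ) ^ 2) := by
      funext n
      rw [hB]
      simp only
      rw [integral_mul_const]
      ring
    rw [e]
    exact hsum.mul_left _
  have key := integral_tsum_of_summable_integral_norm hFi hsum'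
  have e1 : ∀ n, ∫ ξ, F n ξ = ((a n * Av b h (Ph ε) (t - Real.log n) : ℝ) : ℂ) := by
    intro n
    rw [hF]
    simp only
    rw [integral_const_mul, Av_Ph_inv b h h0 hs ε hε]
    push_cast
    rfl
  have e2 : ∀ ξ, ∑' n, F n ξ = GG ε (ln 2 ξ) * KK b h (ln 2 ξ) * cexp (ln 2 ξ * t) *
      LSeries (fun n => (a n : ℂ)) (ln 2 ξ) := by
    intro ξ
    rw [LSeries, ← tsum_mul_left]
    refine tsum_congr fun n => ?_
    rw [hF]
    simp only
    by_cases hn : n = 0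
    · simp [hn, ha0]
    · rw [LSeries.term_of_ne_zero hn]
      have hnc : (n : ℂ) ≠ 0 := by exact_mod_cast hn
      have e3 : cexp (ln 2 ξ * ((t - Real.log n : ℝ) : ℂ)) = cexp (ln 2 ξ * t) / (n : ℂ) ^ (ln 2 ξ) := by
        rw [Complex.cpow_def_of_ne_zero hnc, ← Complex.exp_sub]
        congr 1
        rw [← Complex.natCast_log]
        push_cast
        ring
      rw [e3]
      ring
  simp_rw [e1, e2] at key
  rw [← key, Complex.ofReal_tsum]

end sum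

/-- shift of the inversion integral with a polynomially bounded factor -/
theorem shift_bound (θ ε : ℝ) (h1 : 1 / 2 < θ) (h3 : θ < 1) (hε : 0 < ε) (P : ℂ → ℂ) (D : ℝ) (N : ℕ)
    (hD : 0 < D) (hPd : ∀ s : ℂ, θ ≤ s.re → s.re ≤ 2 → DifferentiableAt ℂ P s)
    (hPb : ∀ s : ℂ, θ ≤ s.re → s.re ≤ 2 → ‖P s‖ ≤ D * ‖s‖ ^ N) :
    ∃ C : ℝ, 0 < C ∧ ∀ t : ℝ, ‖∫ ξ : ℝ, GG ε (ln 2 ξ) * P (ln 2 ξ) * cexp (ln 2 ξ * t)‖ ≤
      C * Real.exp (θ * t) := by
  obtain ⟨C2, hC2, hG⟩ := GG_decay ε hε (N + 1)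
  set f : ℝ → ℂ → ℂ := fun t s => GG ε s * P s * cexp (s * t) with hf
  have hfb : ∀ t : ℝ, ∀ s : ℂ, θ ≤ s.re → s.re ≤ 2 →
      ‖f t s‖ ≤ (4 * D * C2) * Real.exp (s.re * t) * (1 + s.im ^ 2)⁻¹ := by
    intro t s hs1 hs2
    have hn : 1 / 2 ≤ ‖s‖ := by
      have := (le_abs_self s.re).trans (Complex.abs_re_le_norm s)
      linarith
    have hn0 : 0 < ‖s‖ := by linarith
    have e1 : ‖f t s‖ = ‖GG ε s‖ * ‖P s‖ * Real.exp (s.re * t) := by
      rw [hf]
      simp only [norm_mul]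
      rw [Complex.norm_exp, Complex.re_mul_ofReal]
    have e3 := hPb s hs1 hs2
    have e4 := hG s (by linarith)
    have e5 : (1 + s.im ^ 2) ≤ 4 * ‖s‖ ^ 2 := by
      rw [Complex.sq_norm, Complex.normSq_apply]
      nlinarith [sq_nonneg s.im]
    have hpos : 0 < 1 + s.im ^ 2 := by positivity
    rw [e1, ← div_eq_mul_inv, le_div_iff₀ hpos]
    have hGn := norm_nonneg (GG ε s)
    have hE := Real.exp_pos (s.re * t)
    calc ‖GG ε s‖ * ‖P s‖ * Real.exp (s.re * t) * (1 + s.im ^ 2)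
        ≤ ‖GG ε s‖ * (D * ‖s‖ ^ N) * Real.exp (s.re * t) * (4 * ‖s‖ ^ 2) := by gcongr
      _ = (4 * D * Real.exp (s.re * t)) * (‖s‖ ^ (N + 1 + 1) * ‖GG ε s‖) := by ring
      _ ≤ (4 * D * Real.exp (s.re * t)) * C2 := by gcongr
      _ = _ := by ring
  have hpi : 0 < ∫ ξ : ℝ, (1 + ξ ^ 2)⁻¹ := by
    rw [integral_univ_inv_one_add_sq]
    exact Real.pi_pos
  refine ⟨(4 * D * C2) * ∫ ξ : ℝ, (1 + ξ ^ 2)⁻¹, by positivity, fun t => ?_⟩
  have hfd : ∀ s : ℂ, θ ≤ s.re → s.re ≤ 2 → DifferentiableAt ℂ (f t) s := by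
    intro s hs1 hs2
    have hs0 : s ≠ 0 := by
      rintro rfl
      simp at hs1
      linarith
    have d1 := GG_diffAt ε hε s hs0
    have d2 := hPd s hs1 hs2
    rw [hf]
    simp only
    fun_prop
  have hshift := shift_ln θ 2 (by linarith) (f t) hfd ((4 * D * C2) * Real.exp (2 * |t|)) (by
    intro s hs1 hs2
    refine (hfb t s hs1 hs2).trans ?_
    have : s.re * t ≤ 2 * |t| := by
      have h6 : s.re * t ≤ s.re * |t| := mul_le_mul_of_nonneg_left (le_abs_self t) (by linarith)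
      have h7 : s.re * |t| ≤ 2 * |t| := mul_le_mul_of_nonneg_right hs2 (abs_nonneg t)
      linarith
    gcongr)
  show ‖∫ ξ : ℝ, f t (ln 2 ξ)‖ ≤ _
  rw [← hshift]
  calc ‖∫ ξ : ℝ, f t (ln θ ξ)‖ ≤ ∫ ξ : ℝ, (4 * D * C2) * Real.exp (θ * t) * (1 + ξ ^ 2)⁻¹ := by
        refine norm_integral_le_of_norm_le (integrable_inv_one_add_sq.const_mul _) (ae_of_all _ fun ξ => ?_)
        refine (hfb t (ln θ ξ) (by rw [ln_re]) (by rw [ln_re]; linarith)).trans ?_
        rw [ln_re, ln_im]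
        have : ξ ^ 2 ≤ (2 * Real.pi * ξ) ^ 2 := by
          have hpi : 1 ≤ (2 * Real.pi) ^ 2 := by nlinarith [Real.pi_gt_three]
          nlinarith [sq_nonneg ξ]
        have hp : 0 < 1 + ξ ^ 2 := by positivity
        have : (1 + (2 * Real.pi * ξ) ^ 2)⁻¹ ≤ (1 + ξ ^ 2)⁻¹ := inv_anti₀ hp (by linarith)
        gcongr
    _ = (4 * D * C2 * ∫ ξ : ℝ, (1 + ξ ^ 2)⁻¹) * Real.exp (θ * t) := by
        rw [integral_const_mul]
        ring

theorem FF_deriv_bound (s : ℂ) (hs : 1 / 2 < s.re) : ‖deriv FF s‖ ≤ 80 * (1 + ‖s‖) ^ 2 := by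
  have h := Complex.norm_deriv_le_of_forall_mem_sphere_norm_le (c := s) (R := 1 / 4)
    (C := 20 * (1 + ‖s‖) ^ 2) (f := FF) (by norm_num) (ZU.J_g2b.FF_diff.diffContOnCl) (by
      intro z hz
      rw [mem_sphere_iff_norm] at hz
      have hre : 1 / 4 ≤ z.re := by
        have h1 := (abs_le.1 ((Complex.abs_re_le_norm (z - s)).trans hz.le)).1
        rw [Complex.sub_re] at h1
        linarith
      have hn : ‖z‖ ≤ ‖s‖ + 1 / 4 := by
        have := norm_add_le (z - s) s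
        rw [sub_add_cancel, hz] at this
        linarith
      have h2 := FF_bound (1 / 4) (by norm_num) z hre
      have hs0 := norm_nonneg s
      have hz0 := norm_nonneg z
      have h3 : (1 + ‖z‖) ^ 2 ≤ 4 * (1 + ‖s‖) ^ 2 := by nlinarith
      calc ‖FF z‖ ≤ (1 + 1 / (1 / 4)) * (1 + ‖z‖) ^ 2 := h2
        _ ≤ 20 * (1 + ‖s‖) ^ 2 := by nlinarith)
  calc ‖deriv FF s‖ ≤ 20 * (1 + ‖s‖) ^ 2 / (1 / 4) := h
    _ = 80 * (1 + ‖s‖) ^ 2 := by ring

theorem FF_dslope_bound (s : ℂ) (hs : 1 / 2 < s.re) :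
    ‖dslope FF 1 s‖ ≤ 1 + 2 * ‖s‖ + ‖deriv FF 1‖ := by
  have hd := norm_nonneg (deriv FF 1)
  by_cases h : s = 1
  · rw [h, dslope_same]
    have := norm_nonneg (1:ℂ)
    linarith
  · have hs1 : s - 1 ≠ 0 := sub_ne_zero.2 h
    have e : dslope FF 1 s = 1 - s * ∫ u in Ioi (1 : ℝ), ((Int.fract u : ℝ) : ℂ) * (u : ℂ) ^ (-s - 1) := by
      rw [dslope_of_ne _ h, slope_def_field, FF_eq s (by linarith) h,
        show FF 1 = 1 from ZU.J_g2b.FF_one]
      field_simp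
      ring
    rw [e]
    have h1 := frac_int_le s (by linarith)
    have h2 : 1 / s.re ≤ 2 := by
      rw [div_le_iff₀ (by linarith)]
      linarith
    have hn := norm_nonneg s
    calc _ ≤ ‖(1:ℂ)‖ + ‖s * ∫ u in Ioi (1 : ℝ), ((Int.fract u : ℝ) : ℂ) * (u : ℂ) ^ (-s - 1)‖ := norm_sub_le _ _
      _ ≤ 1 + ‖s‖ * 2 := by
          rw [norm_one, norm_mul]
          have := h1.trans h2
          gcongr
      _ ≤ _ := by linarith

end

end H353
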