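import Pool.Agent.H353R2.K8

open Complex MeasureTheory ProbabilityTheory Filter Topology Set
open ArithmeticFunction (vonMangoldt)
open scoped ContDiff

namespace H353

noncomputable section

/-- `Λ(n) - 1` -/
def aL (n : ℕ) : ℝ := if n = 0 then 0 else vonMangoldt n - 1

theorem aL_series (s : ℂ) (hs : 1 < s.re) :
    LSeries (fun n => (aL n : ℂ)) s = -deriv riemannZeta s / riemannZeta s - riemannZeta s := by
  have h1 : LSeriesSummable (fun n => ((vonMangoldt n : ℝ) : ℂ)) s :=
    ArithmeticFunction.LSeriesSummable_vonMangoldt hs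
  have h2 : LSeriesSummable (fun _ => (1:ℂ)) s :=
    LSeriesSummable_of_bounded_of_one_lt_re (m := 1) (fun n _ => by simp) hs
  have e1 := ArithmeticFunction.LSeries_vonMangoldt_eq_deriv_riemannZeta_div hs
  have e2 : LSeries (fun _ => (1:ℂ)) s = riemannZeta s := LSeries_one_eq_riemannZeta hs
  rw [← e1, ← e2, ← LSeries_sub h1 h2]
  refine LSeries_congr (fun {n} hn => ?_) s
  simp only [aL, if_neg hn, Pi.sub_apply]
  push_cast
  rfl

theorem aL_summable : Summable (fun n : ℕ => |aL n| / (n : ℝ) ^ 2) := by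
  have h1 : LSeriesSummable (fun n => ((vonMangoldt n : ℝ) : ℂ)) 2 :=
    ArithmeticFunction.LSeriesSummable_vonMangoldt (by norm_num)
  have h2 : Summable (fun n : ℕ => 1 / (n : ℝ) ^ 2) := Real.summable_one_div_nat_pow.2 (by norm_num)
  refine Summable.of_nonneg_of_le (fun n => by positivity) (fun n => ?_) (h1.norm.add h2)
  rw [LSeries.norm_term_eq]
  by_cases hn : n = 0
  · simp [hn, aL]
  · rw [if_neg hn, Complex.norm_real, Real.norm_eq_abs, abs_of_nonneg ArithmeticFunction.vonMangoldt_nonneg]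
    have e : (n : ℝ) ^ (2:ℂ).re = (n:ℝ) ^ 2 := by
      simp
    rw [e, ← add_div]
    refine div_le_div_of_nonneg_right ?_ (by positivity)
    unfold aL
    rw [if_neg hn]
    have := ArithmeticFunction.vonMangoldt_nonneg (n := n)
    calc |vonMangoldt n - 1| ≤ |vonMangoldt n| + |1| := abs_sub _ _
      _ = vonMangoldt n + 1 := by rw [abs_of_nonneg this, abs_one]

theorem gl_bound (σ θ ε : ℝ) (h1 : 1 / 2 < σ) (h2 : σ < θ) (h3 : θ < 1) (hε : 0 < ε) :
    ∃ C : ℝ, 0 < C ∧ ∀ t : ℝ,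
      |∑' n : ℕ, aL n * Av (bx σ) (hx σ) (Ph ε) (t - Real.log n)| ≤ C * Real.exp (θ * t) := by
  obtain ⟨H, D, N, hD, hHd, hKH, hHb⟩ := exists_H σ θ h1 h2 h3
  have := ZS_countable σ h1 (by linarith)
  set P : ℂ → ℂ := fun s => -(deriv FF s * H s) - KS σ s * dslope FF 1 s with hP
  have hFFd : Differentiable ℂ FF := ZU.J_g2b.FF_diff
  have hFF' : Differentiable ℂ (deriv FF) := by
    intro s
    exact (hFFd.analyticAt s).deriv.differentiableAt
  have hds : Differentiable ℂ (dslope FF 1) := by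
    have := (Complex.differentiableOn_dslope (f := FF) (s := univ) (c := 1) univ_mem).2
      hFFd.differentiableOn
    exact differentiableOn_univ.1 this
  set d1 : ℝ := ‖deriv FF 1‖ with hd1
  have hd10 : 0 ≤ d1 := norm_nonneg _
  obtain ⟨C, hC, hb⟩ := shift_bound θ ε (by linarith) h3 hε P (720 * D + (4 + 2 * d1) * 2 ^ (N + 1)) (N + 2)
    (by positivity) (fun s hs _ => by
      have d2 := hHd s (by linarith)
      have d3 := KS_diff σ h1 (by linarith) s
      have d4 := hFF' s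
      have d5 := hds s
      rw [hP]
      exact ((d4.mul d2).neg).sub (d3.mul d5)) (by
      intro s hs1 hs2
      have hn : 1 / 2 ≤ ‖s‖ := by
        have := (le_abs_self s.re).trans (Complex.abs_re_le_norm s)
        linarith
      have hn0 : 0 < ‖s‖ := by linarith
      have b1 := FF_deriv_bound s (by linarith)
      have b2 := hHb s hs1 hs2
      have b3 := KS_norm σ s (by linarith)
      have b4 := FF_dslope_bound s (by linarith)
      have b5 : (1 + ‖s‖) ^ 2 ≤ 9 * ‖s‖ ^ 2 := by nlinarith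
      have b6 : 1 + 2 * ‖s‖ + d1 ≤ (4 + 2 * d1) * ‖s‖ := by nlinarith
      have b7 : 1 ≤ (2 * ‖s‖) ^ (N + 1) := one_le_pow₀ (by linarith)
      have b8 : (4 + 2 * d1) * ‖s‖ ≤ (4 + 2 * d1) * 2 ^ (N + 1) * ‖s‖ ^ (N + 2) := by
        calc (4 + 2 * d1) * ‖s‖ = (4 + 2 * d1) * ‖s‖ * 1 := by ring
          _ ≤ (4 + 2 * d1) * ‖s‖ * (2 * ‖s‖) ^ (N + 1) := by gcongr
          _ = _ := by rw [mul_pow]; ring
      calc ‖P s‖ ≤ ‖deriv FF s * H s‖ + ‖KS σ s * dslope FF 1 s‖ := by
            rw [hP]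
            refine (norm_sub_le _ _).trans ?_
            rw [norm_neg]
        _ ≤ (80 * (1 + ‖s‖) ^ 2) * (D * ‖s‖ ^ N) + 1 * (1 + 2 * ‖s‖ + d1) := by
            rw [norm_mul, norm_mul]
            gcongr
        _ ≤ (80 * (9 * ‖s‖ ^ 2)) * (D * ‖s‖ ^ N) + (4 + 2 * d1) * 2 ^ (N + 1) * ‖s‖ ^ (N + 2) := by
            rw [one_mul]
            gcongr
            exact b6.trans b8
        _ = _ := by ring)
  refine ⟨C, hC, fun t => ?_⟩
  have hform := gen_formula (bx σ) (hx σ) (fun i => (hx_pos σ i).le) (hx_summable σ h1 (by linarith)) ε hε t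
    aL (by simp [aL]) aL_summable
  have e2 : (∫ ξ : ℝ, GG ε (ln 2 ξ) * KK (bx σ) (hx σ) (ln 2 ξ) * cexp (ln 2 ξ * t) *
      LSeries (fun n => (aL n : ℂ)) (ln 2 ξ)) = ∫ ξ : ℝ, GG ε (ln 2 ξ) * P (ln 2 ξ) * cexp (ln 2 ξ * t) := by
    refine integral_congr_ae (ae_of_all _ fun ξ => ?_)
    have hre : (ln 2 ξ).re = 2 := ln_re 2 ξ
    simp only
    generalize ln 2 ξ = s at hre ⊢
    have hne1 : s ≠ 1 := by
      intro h
      have := congrArg Complex.re h
      rw [hre] at this
      simp at this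
    have hs1 : s - 1 ≠ 0 := sub_ne_zero.2 hne1
    have hz : riemannZeta s ≠ 0 := riemannZeta_ne_zero_of_one_lt_re (by rw [hre]; norm_num)
    have hK : KK (bx σ) (hx σ) s = FF s * H s := hKH _ (by rw [hre]; linarith)
    have hK' : KS σ s = FF s * H s := hK
    have hFFs : FF s = (s - 1) * riemannZeta s := ZU.J_g2b.FF_ne hne1
    have hder : deriv FF s = riemannZeta s + (s - 1) * deriv riemannZeta s := by
      have e3 : FF =ᶠ[𝓝 s] fun z => (z - 1) * riemannZeta z := by
        filter_upwards [isOpen_ne.mem_nhds hne1] with z hz using ZU.J_g2b.FF_ne hz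
      rw [e3.deriv_eq]
      have h4 : HasDerivAt (fun z : ℂ => z - 1) 1 s := (hasDerivAt_id s).sub_const 1
      have h5 : HasDerivAt riemannZeta (deriv riemannZeta s) s := (differentiableAt_riemannZeta hne1).hasDerivAt
      have h6 := (h4.fun_mul h5).deriv
      rw [h6]
      ring
    rw [aL_series s (by rw [hre]; norm_num), hP]
    simp only
    rw [hK, hK', dslope_of_ne _ hne1, slope_def_field, show FF 1 = 1 from ZU.J_g2b.FF_one, hder, hFFs]
    field_simp
    ring
  rw [e2] at hform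
  have hn : |∑' n : ℕ, aL n * Av (bx σ) (hx σ) (Ph ε) (t - Real.log n)| =
      ‖((∑' n : ℕ, aL n * Av (bx σ) (hx σ) (Ph ε) (t - Real.log n) : ℝ) : ℂ)‖ := by
    rw [Complex.norm_real, Real.norm_eq_abs]
  rw [hn, hform]
  exact hb t

end

end H353
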