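import Mathlib

open Complex Filter Topology Set MeasureTheory

namespace H353

/-- continuation of a Dirichlet series whose partial sums are `O(x^θ)` -/
theorem cont_F (f : ℕ → ℂ) (θ C : ℝ) (hθ : 0 ≤ θ) (hC : 0 ≤ C)
    (hsum : ∀ s : ℂ, 1 < s.re → LSeriesSummable f s) (hθ1 : θ ≤ 1)
    (hS : ∀ x : ℝ, 1 ≤ x → ‖∑ n ∈ Finset.Icc 1 ⌊x⌋₊, f n‖ ≤ C * x ^ θ) :
    ∃ F : ℂ → ℂ, (∀ s : ℂ, θ < s.re → DifferentiableAt ℂ F s) ∧
      ∀ s : ℂ, 1 < s.re → F s = LSeries f s := by
  set S : ℝ → ℂ := fun t => ∑ k ∈ Finset.Icc 1 ⌊t⌋₊, f k with hSdef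
  set g : ℝ → ℂ := indicator (Ioi 1) S with hg
  have hSm : Measurable S := by
    have : S = (fun n : ℕ => ∑ k ∈ Finset.Icc 1 n, f k) ∘ (fun t : ℝ => ⌊t⌋₊) := rfl
    rw [this]
    exact (measurable_from_nat).comp Nat.measurable_floor
  have hgm : Measurable g := hSm.indicator measurableSet_Ioi
  have hgb : ∀ t : ℝ, ‖g t‖ ≤ C * |t| ^ θ := by
    intro t
    by_cases ht : 1 < t
    · rw [hg, indicator_of_mem (show t ∈ Ioi 1 from ht), abs_of_pos (by linarith)]
      exact hS t ht.le
    · rw [hg, indicator_of_notMem (show t ∉ Ioi 1 from ht), norm_zero]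
      positivity
  have hloc : LocallyIntegrableOn g (Ioi 0) := by
    have h1 : LocallyIntegrable (fun t : ℝ => C * |t| ^ θ) := by
      refine Continuous.locallyIntegrable ?_
      exact continuous_const.mul (continuous_abs.rpow_const fun t => Or.inr hθ)
    refine (h1.mono hgm.aestronglyMeasurable (ae_of_all _ fun t => ?_)).locallyIntegrableOn _
    refine (hgb t).trans (le_abs_self _)
  have htop : g =O[atTop] (fun t : ℝ => t ^ (-(-θ))) := by
    rw [Asymptotics.isBigO_iff]
    refine ⟨C, ?_⟩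
    filter_upwards [eventually_gt_atTop 1] with t ht
    have := hgb t
    rw [abs_of_pos (by linarith)] at this
    rw [neg_neg, Real.norm_of_nonneg (by positivity)]
    exact this
  have hbot : ∀ b : ℝ, g =O[𝓝[>] 0] (fun t : ℝ => t ^ (-b)) := by
    intro b
    rw [Asymptotics.isBigO_iff]
    refine ⟨0, ?_⟩
    have : Iio (1:ℝ) ∈ 𝓝[>] (0:ℝ) := mem_nhdsWithin_of_mem_nhds (Iio_mem_nhds one_pos)
    filter_upwards [this] with t ht
    have ht1 : t < 1 := ht
    have ht' : t ∉ Ioi (1:ℝ) := fun h => absurd (lt_trans (show 1 < t from h) ht1) (lt_irrefl _)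
    rw [hg, indicator_of_notMem ht']
    simp
  refine ⟨fun s => s * mellin g (-s), fun s hs => ?_, fun s hs => ?_⟩
  · have h1 : DifferentiableAt ℂ (mellin g) (-s) :=
      mellin_differentiableAt_of_isBigO_rpow (a := -θ) (b := (-s).re - 1) hloc htop
        (by simp only [neg_re]; linarith) (hbot _) (by linarith)
    have h2 : DifferentiableAt ℂ (fun s => mellin g (-s)) s :=
      DifferentiableAt.comp (g := mellin g) (f := fun s : ℂ => -s) s h1 differentiableAt_id.neg
    exact differentiableAt_id.mul h2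
  · have hO : (fun n : ℕ => ∑ k ∈ Finset.Icc 1 n, f k) =O[atTop] fun n : ℕ => (n : ℝ) ^ θ := by
      rw [Asymptotics.isBigO_iff]
      refine ⟨C, ?_⟩
      filter_upwards [eventually_ge_atTop 1] with n hn
      have := hS n (by exact_mod_cast hn)
      rw [Nat.floor_natCast] at this
      rwa [Real.norm_of_nonneg (by positivity)]
    rw [LSeries_eq_mul_integral f hθ (lt_of_le_of_lt hθ1 hs) (hsum s hs) hO]
    unfold mellin
    rw [hg]
    have e : ∀ t : ℝ, (t : ℂ) ^ (-s - 1) • indicator (Ioi 1) S t =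
        indicator (Ioi 1) (fun t : ℝ => (t : ℂ) ^ (-s - 1) • S t) t := by
      intro t
      by_cases ht : t ∈ Ioi 1
      · rw [indicator_of_mem ht, indicator_of_mem ht]
      · rw [indicator_of_notMem ht, indicator_of_notMem ht, smul_zero]
    simp_rw [e]
    rw [setIntegral_indicator measurableSet_Ioi]
    have e2 : Ioi (0:ℝ) ∩ Ioi 1 = Ioi 1 := by
      ext t
      simp only [mem_inter_iff, mem_Ioi]
      constructor
      · rintro ⟨_, h⟩; exact h
      · intro h; exact ⟨by linarith, h⟩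
    rw [e2]
    congr 1
    refine setIntegral_congr_fun measurableSet_Ioi fun t _ => ?_
    simp only [smul_eq_mul]
    rw [mul_comm, show -s - 1 = -(s + 1) by ring]

end H353
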