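import Pool.Agent.H353R2.P1
import Pool.Agent.H353R2.R2

open Complex Filter Topology Set

namespace H353

noncomputable section

/-- Euler product criterion for nonnegative multiplicative functions -/
theorem euler_sum (w : ℕ → ℝ) (w0 : w 0 = 0) (w1 : w 1 = 1)
    (hmul : ∀ {m n : ℕ}, Nat.Coprime m n → w (m * n) = w m * w n) (hw : ∀ n, 0 ≤ w n)
    (c : ℕ → ℝ) (hc : ∀ p : ℕ, p.Prime → 0 ≤ c p)
    (hcs : Summable (fun p : Nat.Primes => c p))
    (hp : ∀ p : ℕ, p.Prime → Summable (fun n => w (p ^ n)) ∧ ∑' n, w (p ^ n) ≤ Real.exp (c p)) :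
    Summable w := by
  refine summable_of_sum_range_le (c := Real.exp (∑' p : Nat.Primes, c p)) hw fun N => ?_
  have hE := (EulerProduct.summable_and_hasSum_smoothNumbers_prod_primesBelow_tsum (f := w) w1 hmul
    (fun {p} h => (hp p h).1.norm) N).2
  rw [show (fun m : N.smoothNumbers => w m) = w ∘ ((↑) : N.smoothNumbers → ℕ) from rfl,
    hasSum_subtype_iff_indicator] at hE
  have h1 : ∑ n ∈ Finset.range N, w n ≤ ∏ p ∈ N.primesBelow, ∑' n : ℕ, w (p ^ n) := by
    have e : ∑ n ∈ Finset.range N, w n = ∑ n ∈ Finset.range N, (N.smoothNumbers).indicator w n := by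
      refine Finset.sum_congr rfl fun n hn => ?_
      by_cases h0 : n = 0
      · subst h0
        by_cases h : (0:ℕ) ∈ N.smoothNumbers
        · rw [indicator_of_mem h]
        · rw [indicator_of_notMem h, w0]
      · rw [indicator_of_mem (Nat.mem_smoothNumbers_of_lt (Nat.pos_of_ne_zero h0) (Finset.mem_range.1 hn))]
    rw [e]
    exact sum_le_hasSum _ (fun n _ => indicator_nonneg (fun x _ => hw x) n) hE
  refine h1.trans ?_
  have h2 : ∏ p ∈ N.primesBelow, ∑' n : ℕ, w (p ^ n) ≤ ∏ p ∈ N.primesBelow, Real.exp (c p) := by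
    refine Finset.prod_le_prod (fun p _ => tsum_nonneg fun n => hw _) fun p h => ?_
    exact (hp p (Nat.prime_of_mem_primesBelow h)).2
  refine h2.trans ?_
  rw [← Real.exp_sum]
  refine Real.exp_le_exp.2 ?_
  have h3 : ∑ p ∈ N.primesBelow, c p = ∑ p ∈ N.primesBelow.attach.map ⟨fun p => (⟨p.1, Nat.prime_of_mem_primesBelow p.2⟩ : Nat.Primes), fun a b h => by
      have : (a : ℕ) = b := congrArg (fun q : Nat.Primes => (q : ℕ)) h
      exact Subtype.ext this⟩, c p := by
    rw [Finset.sum_map]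
    exact (Finset.sum_attach _ _).symm
  rw [h3]
  exact Summable.sum_le_tsum (f := fun p : Nat.Primes => c p) _ (fun p _ => hc p p.2) hcs

variable (g : ℕ →*₀ ℝ)

def gA : ArithmeticFunction ℝ := ⟨fun n => g n, map_zero g⟩

def mA : ArithmeticFunction ℝ := ((ArithmeticFunction.moebius : ArithmeticFunction ℤ) : ArithmeticFunction ℝ)

def zA : ArithmeticFunction ℝ := ((ArithmeticFunction.zeta : ArithmeticFunction ℕ) : ArithmeticFunction ℝ)

def fA : ArithmeticFunction ℝ := ArithmeticFunction.pmul mA (gA g)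

/-- `1 * (μ g)` -/
def uA : ArithmeticFunction ℝ := zA * fA g

/-- `μ * g` -/
def vA : ArithmeticFunction ℝ := mA * gA g

theorem gA_apply (n : ℕ) : gA g n = g n := rfl

theorem mA_apply (n : ℕ) : mA n = (ArithmeticFunction.moebius n : ℝ) := rfl

theorem fA_apply (n : ℕ) : fA g n = (ArithmeticFunction.moebius n : ℝ) * g n := rfl

theorem mz : mA * zA = 1 := ArithmeticFunction.coe_moebius_mul_coe_zeta

theorem fg : fA g * gA g = 1 := by
  ext n
  rw [ArithmeticFunction.mul_apply]
  have h1 : ∀ x ∈ n.divisorsAntidiagonal, fA g x.1 * gA g x.2 = g n * (mA x.1 * zA x.2) := by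
    intro x hx
    rw [Nat.mem_divisorsAntidiagonal] at hx
    have h2 : x.2 ≠ 0 := by
      rintro h
      rw [h, mul_zero] at hx
      exact hx.2 hx.1.symm
    have h3 : zA x.2 = 1 := by
      unfold zA
      rw [ArithmeticFunction.natCoe_apply, ArithmeticFunction.zeta_apply_ne h2]
      simp
    rw [h3, ← hx.1, map_mul, fA_apply, gA_apply, mA_apply]
    ring
  rw [Finset.sum_congr rfl h1, ← Finset.mul_sum, ← ArithmeticFunction.mul_apply, mz]
  by_cases h : n = 1
  · subst h
    simp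
  · rw [ArithmeticFunction.one_apply_ne h, mul_zero]

theorem uv : uA g * vA g = 1 := by
  unfold uA vA
  have : zA * fA g * (mA * gA g) = (mA * zA) * (fA g * gA g) := by ring
  rw [this, mz, fg, mul_one]

theorem m_eq : mA = vA g * fA g := by
  unfold vA
  rw [mul_assoc, mul_comm (gA g), fg, mul_one]

theorem f_eq : fA g = uA g * mA := by
  unfold uA
  have : zA * fA g * mA = (mA * zA) * fA g := by ring
  rw [this, mz, one_mul]

theorem gA_mult : (gA g).IsMultiplicative := ⟨map_one g, fun {m n} _ => map_mul g m n⟩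

theorem mA_mult : mA.IsMultiplicative := ArithmeticFunction.isMultiplicative_moebius.intCast

theorem zA_mult : zA.IsMultiplicative := ArithmeticFunction.isMultiplicative_zeta.natCast

theorem fA_mult : (fA g).IsMultiplicative := mA_mult.pmul (gA_mult g)

theorem uA_mult : (uA g).IsMultiplicative := zA_mult.mul (fA_mult g)

theorem vA_mult : (vA g).IsMultiplicative := mA_mult.mul (gA_mult g)

theorem mA_pow (p : ℕ) (hp : p.Prime) (j : ℕ) : mA (p ^ (j + 2)) = 0 := by
  rw [mA_apply, ArithmeticFunction.moebius_apply_prime_pow hp (by omega), if_neg (by omega)]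
  simp

theorem mA_prime (p : ℕ) (hp : p.Prime) : mA p = -1 := by
  rw [mA_apply, ArithmeticFunction.moebius_apply_prime hp]
  simp

theorem fA_pow (p : ℕ) (hp : p.Prime) (j : ℕ) : fA g (p ^ (j + 2)) = 0 := by
  have := mA_pow p hp j
  rw [mA_apply] at this
  rw [fA_apply, this, zero_mul]

theorem fA_prime (p : ℕ) (hp : p.Prime) : fA g p = - g p := by
  have := mA_prime p hp
  rw [mA_apply] at this
  rw [fA_apply, this]
  ring

theorem uA_pow (p : ℕ) (hp : p.Prime) (j : ℕ) : uA g (p ^ (j + 1)) = 1 - g p := by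
  have : uA g (p ^ (j + 1)) = ∑ i ∈ (p ^ (j + 1)).divisors, fA g i := by
    unfold uA zA
    rw [ArithmeticFunction.coe_zeta_mul_apply]
  rw [this, Nat.sum_divisors_prime_pow hp, Finset.sum_range_succ', Finset.sum_range_succ']
  rw [Finset.sum_eq_zero fun i _ => fA_pow g p hp i]
  rw [pow_zero, (fA_mult g).1, zero_add, zero_add, pow_one, fA_prime g p hp]
  ring

theorem vA_pow (p : ℕ) (hp : p.Prime) (j : ℕ) : vA g (p ^ (j + 1)) = - ((1 - g p) * g p ^ j) := by
  have : vA g (p ^ (j + 1)) = ∑ i ∈ (p ^ (j + 1)).divisors, mA i * gA g (p ^ (j + 1) / i) := by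
    unfold vA
    rw [ArithmeticFunction.mul_apply, Nat.sum_divisorsAntidiagonal (f := fun x y => mA x * gA g y)]
  rw [this, Nat.sum_divisors_prime_pow hp, Finset.sum_range_succ', Finset.sum_range_succ']
  rw [Finset.sum_eq_zero fun i _ => by rw [mA_pow p hp i, zero_mul]]
  rw [pow_zero, mA_mult.1, zero_add, zero_add, pow_one, mA_prime p hp, Nat.div_one, gA_apply, gA_apply,
    pow_succ p j, Nat.mul_div_cancel _ hp.pos, map_mul, map_pow]
  ring

variable {g}

theorem g_nonneg (hg : ∀ p : ℕ, p.Prime → 0 ≤ g p ∧ g p ≤ 1) (n : ℕ) : 0 ≤ g n ∧ g n ≤ 1 := by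
  induction n using Nat.recOnMul with
  | zero => simp
  | one => simp
  | prime p hp => exact hg p hp
  | mul a b ha hb =>
    rw [map_mul]
    exact ⟨mul_nonneg ha.1 hb.1, mul_le_one₀ ha.2 hb.1 hb.2⟩

theorem v_le_u (hg : ∀ p : ℕ, p.Prime → 0 ≤ g p ∧ g p ≤ 1) (n : ℕ) : |vA g n| ≤ uA g n := by
  induction n using Nat.recOnPosPrimePosCoprime with
  | zero => simp
  | one =>
    rw [(vA_mult g).1, (uA_mult g).1]
    simp
  | prime_pow p n hp hn =>
    obtain ⟨j, rfl⟩ : ∃ j, n = j + 1 := ⟨n - 1, by omega⟩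
    rw [vA_pow g p hp, uA_pow g p hp, abs_neg, abs_mul, abs_of_nonneg (sub_nonneg.2 (hg p hp).2)]
    refine mul_le_of_le_one_right (sub_nonneg.2 (hg p hp).2) ?_
    rw [abs_of_nonneg (pow_nonneg (hg p hp).1 _)]
    exact pow_le_one₀ (hg p hp).1 (hg p hp).2
  | coprime a b _ha _hb hab ha' hb' =>
    rw [(vA_mult g).map_mul_of_coprime hab, (uA_mult g).map_mul_of_coprime hab, abs_mul]
    exact mul_le_mul ha' hb' (abs_nonneg _) ((abs_nonneg _).trans ha')

theorem u_nonneg (hg : ∀ p : ℕ, p.Prime → 0 ≤ g p ∧ g p ≤ 1) (n : ℕ) : 0 ≤ uA g n :=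
  (abs_nonneg _).trans (v_le_u hg n)

theorem f_le (hg : ∀ p : ℕ, p.Prime → 0 ≤ g p ∧ g p ≤ 1) (n : ℕ) : |fA g n| ≤ g n := by
  rw [fA_apply, abs_mul, abs_of_nonneg (g_nonneg hg n).1]
  refine mul_le_of_le_one_left (g_nonneg hg n).1 ?_
  have := ArithmeticFunction.abs_moebius_le_one (n := n)
  exact_mod_cast this

end

end H353
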