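import Pool.Agent.H353R2.P2

open Complex Filter Topology Set

namespace H353

noncomputable section

variable {g : ℕ →*₀ ℝ}

theorem summ_u (hg : ∀ p : ℕ, p.Prime → 0 ≤ g p ∧ g p ≤ 1) (σ : ℝ) (hσ : 0 < σ)
    (hs : Summable (fun p : Nat.Primes => (1 - g p) / ((p : ℕ) : ℝ) ^ σ)) :
    Summable (fun n : ℕ => uA g n / (n : ℝ) ^ σ) := by
  have h2 : (2:ℝ) ^ (-σ) < 1 := Real.rpow_lt_one_of_one_lt_of_neg (by norm_num) (by linarith)
  set K : ℝ := 1 / (1 - (2:ℝ) ^ (-σ)) with hK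
  have hK0 : 0 < K := by
    rw [hK]
    exact one_div_pos.2 (by linarith)
  refine euler_sum (fun n : ℕ => uA g n / (n : ℝ) ^ σ) (by simp) (by simp [(uA_mult g).1]) ?_
    (fun n => div_nonneg (u_nonneg hg n) (by positivity))
    (fun p => K * ((1 - g p) / (p : ℝ) ^ σ)) (fun p hp => ?_) (hs.mul_left K) (fun p hp => ?_)
  · intro m n h
    rw [(uA_mult g).map_mul_of_coprime h, Nat.cast_mul, Real.mul_rpow (Nat.cast_nonneg _) (Nat.cast_nonneg _)]
    rw [mul_div_mul_comm]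
  · exact mul_nonneg hK0.le (div_nonneg (sub_nonneg.2 (hg p hp).2) (by positivity))
  · have hp2 : (2:ℝ) ≤ p := by exact_mod_cast hp.two_le
    have hp0 : (0:ℝ) < p := by linarith
    set r : ℝ := (p : ℝ) ^ (-σ) with hr
    have hr0 : 0 < r := by positivity
    have hr2 : r ≤ (2:ℝ) ^ (-σ) := by
      rw [hr, Real.rpow_neg hp0.le, Real.rpow_neg (by norm_num)]
      exact inv_anti₀ (by positivity) (Real.rpow_le_rpow (by norm_num) hp2 hσ.le)
    have hr1 : r < 1 := by linarith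
    have hval : ∀ j : ℕ, uA g (p ^ (j + 1)) / (((p ^ (j + 1) : ℕ) : ℝ)) ^ σ = (1 - g p) * r * r ^ j := by
      intro j
      rw [uA_pow g p hp, Nat.cast_pow, ← Real.rpow_natCast, ← Real.rpow_mul hp0.le, mul_comm _ σ,
        Real.rpow_mul hp0.le, Real.rpow_natCast, div_eq_mul_inv, ← inv_pow, ← Real.rpow_neg hp0.le,
        ← hr, pow_succ]
      ring
    have hgeo : HasSum (fun j : ℕ => (1 - g p) * r * r ^ j) ((1 - g p) * r * (1 - r)⁻¹) :=
      (hasSum_geometric_of_lt_one hr0.le hr1).mul_left _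
    have hH : HasSum (fun n : ℕ => uA g (p ^ n) / (((p ^ n : ℕ) : ℝ)) ^ σ) ((1 - g p) * r * (1 - r)⁻¹ + 1) := by
      rw [← hasSum_nat_add_iff' 1]
      simp only [Finset.sum_range_one, pow_zero, Nat.cast_one, Real.one_rpow, div_one, (uA_mult g).1, add_sub_cancel_right]
      rw [funext hval]
      exact hgeo
    refine ⟨hH.summable, ?_⟩
    rw [hH.tsum_eq]
    refine (Real.add_one_le_exp _).trans (Real.exp_le_exp.2 ?_)
    have h3 : (1 - g p) / (p : ℝ) ^ σ = (1 - g p) * r := by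
      rw [div_eq_mul_inv, hr, Real.rpow_neg hp0.le]
    rw [h3, mul_comm K]
    refine mul_le_mul_of_nonneg_left ?_ (mul_nonneg (sub_nonneg.2 (hg p hp).2) hr0.le)
    rw [hK, one_div]
    exact inv_anti₀ (by linarith) (by linarith)

theorem summ_f (hg : ∀ p : ℕ, p.Prime → 0 ≤ g p ∧ g p ≤ 1) (σ : ℝ)
    (hs : Summable (fun p : Nat.Primes => g p / ((p : ℕ) : ℝ) ^ σ)) :
    Summable (fun n : ℕ => |fA g n| / (n : ℝ) ^ σ) := by
  refine euler_sum (fun n : ℕ => |fA g n| / (n : ℝ) ^ σ) (by simp) (by simp [(fA_mult g).1]) ?_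
    (fun n => div_nonneg (abs_nonneg _) (by positivity))
    (fun p => g p / (p : ℝ) ^ σ) (fun p hp => ?_) hs (fun p hp => ?_)
  · intro m n h
    rw [(fA_mult g).map_mul_of_coprime h, Nat.cast_mul, Real.mul_rpow (Nat.cast_nonneg _) (Nat.cast_nonneg _),
      abs_mul, mul_div_mul_comm]
  · exact div_nonneg (hg p hp).1 (by positivity)
  · have hz : ∀ n ∉ Finset.range 2, |fA g (p ^ n)| / (((p ^ n : ℕ) : ℝ)) ^ σ = 0 := by
      intro n hn
      rw [Finset.mem_range] at hn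
      obtain ⟨j, rfl⟩ : ∃ j, n = j + 2 := ⟨n - 2, by omega⟩
      rw [fA_pow g p hp]
      simp
    refine ⟨summable_of_ne_finset_zero hz, ?_⟩
    rw [tsum_eq_sum hz, Finset.sum_range_succ, Finset.sum_range_one, pow_zero, pow_one,
      (fA_mult g).1, fA_prime g p hp, abs_neg, abs_of_nonneg (hg p hp).1]
    simp only [abs_one, Nat.cast_one, Real.one_rpow, div_one]
    rw [add_comm]
    exact Real.add_one_le_exp _

theorem conv_bound (a b : ArithmeticFunction ℝ) (θ C : ℝ)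
    (hb : ∀ x : ℝ, 1 ≤ x → |∑ n ∈ Finset.Icc 1 ⌊x⌋₊, b n| ≤ C * x ^ θ)
    (ha : Summable (fun n : ℕ => |a n| / (n : ℝ) ^ θ)) :
    ∃ C' : ℝ, ∀ x : ℝ, 1 ≤ x → |∑ n ∈ Finset.Icc 1 ⌊x⌋₊, (a * b) n| ≤ C' * x ^ θ := by
  have hC : 0 ≤ C := by
    have := (abs_nonneg _).trans (hb 1 le_rfl)
    simpa using this
  refine ⟨(∑' n : ℕ, |a n| / (n : ℝ) ^ θ) * C, fun x hx => ?_⟩
  have hIcc : ∀ N : ℕ, Finset.Icc 1 N = Finset.Ioc 0 N := fun N => by ext; simp [Nat.succ_le_iff]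
  rw [hIcc, ArithmeticFunction.sum_Ioc_mul_eq_sum_sum]
  have hterm : ∀ n ∈ Finset.Ioc 0 ⌊x⌋₊, |a n * ∑ m ∈ Finset.Ioc 0 (⌊x⌋₊ / n), b m| ≤
      |a n| / (n : ℝ) ^ θ * (C * x ^ θ) := by
    intro n hn
    rw [Finset.mem_Ioc] at hn
    have hn0 : (0:ℝ) < n := by exact_mod_cast hn.1
    have hnx : (n : ℝ) ≤ x := (Nat.le_floor_iff (by linarith)).1 hn.2
    have h1 : 1 ≤ x / n := (one_le_div hn0).2 hnx
    have h2 := hb (x / n) h1
    rw [Nat.floor_div_natCast, hIcc] at h2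
    rw [abs_mul]
    refine (mul_le_mul_of_nonneg_left h2 (abs_nonneg _)).trans (le_of_eq ?_)
    rw [Real.div_rpow (by linarith) hn0.le]
    ring
  refine (Finset.abs_sum_le_sum_abs _ _).trans ((Finset.sum_le_sum hterm).trans ?_)
  rw [← Finset.sum_mul, mul_assoc]
  refine mul_le_mul_of_nonneg_right ?_ (by positivity)
  exact Summable.sum_le_tsum _ (fun n _ => by positivity) ha

theorem summ_mono (b : Nat.Primes → ℝ) (hb : ∀ p, 0 ≤ b p) {σ σ' : ℝ} (h : σ ≤ σ')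
    (hs : Summable (fun p : Nat.Primes => b p / ((p : ℕ) : ℝ) ^ σ)) :
    Summable (fun p : Nat.Primes => b p / ((p : ℕ) : ℝ) ^ σ') := by
  refine Summable.of_nonneg_of_le (fun p => div_nonneg (hb p) (by positivity)) (fun p => ?_) hs
  have hp2 : (1:ℝ) ≤ (p : ℕ) := by exact_mod_cast p.2.one_le
  exact div_le_div_of_nonneg_left (hb p) (by positivity) (Real.rpow_le_rpow_of_exponent_le hp2 h)

/-- sufficiency, sparse case -/
theorem suff_sparse (hg : ∀ p : ℕ, p.Prime → 0 ≤ g p ∧ g p ≤ 1) (σ : ℝ) (hσ : σ < 1)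
    (hs : Summable (fun p : Nat.Primes => g p / ((p : ℕ) : ℝ) ^ σ)) :
    ∃ θ < (1:ℝ), ∃ C : ℝ, ∀ x : ℝ, 1 ≤ x → |∑ n ∈ Finset.Icc 1 ⌊x⌋₊, fA g n| ≤ C * x ^ θ := by
  have hs' := summ_mono (fun p => g p) (fun p => (hg p p.2).1) (le_max_left σ 0) hs
  have hS := summ_f hg (max σ 0) hs'
  refine ⟨max σ 0, max_lt hσ one_pos, ∑' n : ℕ, |fA g n| / (n : ℝ) ^ (max σ 0), fun x hx => ?_⟩
  have hterm : ∀ n ∈ Finset.Icc 1 ⌊x⌋₊, |fA g n| ≤ |fA g n| / (n : ℝ) ^ (max σ 0) * x ^ (max σ 0) := by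
    intro n hn
    rw [Finset.mem_Icc] at hn
    have hn0 : (0:ℝ) < n := by exact_mod_cast hn.1
    have hnx : (n : ℝ) ≤ x := (Nat.le_floor_iff (by linarith)).1 hn.2
    have h3 : (n : ℝ) ^ (max σ 0) ≤ x ^ (max σ 0) := Real.rpow_le_rpow hn0.le hnx (le_max_right _ _)
    rw [div_mul_eq_mul_div, le_div_iff₀ (by positivity)]
    exact mul_le_mul_of_nonneg_left h3 (abs_nonneg _)
  refine (Finset.abs_sum_le_sum_abs _ _).trans ((Finset.sum_le_sum hterm).trans ?_)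
  rw [← Finset.sum_mul]
  refine mul_le_mul_of_nonneg_right ?_ (by positivity)
  exact Summable.sum_le_tsum _ (fun n _ => by positivity) hS

/-- sufficiency, dense case -/
theorem suff_dense (hg : ∀ p : ℕ, p.Prime → 0 ≤ g p ∧ g p ≤ 1) (σ : ℝ) (hσ : σ < 1)
    (hs : Summable (fun p : Nat.Primes => (1 - g p) / ((p : ℕ) : ℝ) ^ σ)) (θ : ℝ) (hθ : θ < 1) (C : ℝ)
    (hM : ∀ x : ℝ, 1 ≤ x → |∑ n ∈ Finset.Icc 1 ⌊x⌋₊, (ArithmeticFunction.moebius n : ℝ)| ≤ C * x ^ θ) :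
    ∃ θ < (1:ℝ), ∃ C : ℝ, ∀ x : ℝ, 1 ≤ x → |∑ n ∈ Finset.Icc 1 ⌊x⌋₊, fA g n| ≤ C * x ^ θ := by
  have hC : 0 ≤ C := by
    have := (abs_nonneg _).trans (hM 1 le_rfl)
    simpa using this
  set κ : ℝ := max (max σ θ) (1 / 2) with hκ
  have h1 : σ ≤ κ := (le_max_left _ _).trans (le_max_left _ _)
  have h2 : θ ≤ κ := (le_max_right _ _).trans (le_max_left _ _)
  have h3 : 1 / 2 ≤ κ := le_max_right _ _
  have h4 : κ < 1 := max_lt (max_lt hσ hθ) (by norm_num)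
  have hs' := summ_mono (fun p => 1 - g p) (fun p => sub_nonneg.2 (hg p p.2).2) h1 hs
  have hS := summ_u hg κ (by linarith) hs'
  have hM' : ∀ x : ℝ, 1 ≤ x → |∑ n ∈ Finset.Icc 1 ⌊x⌋₊, mA n| ≤ C * x ^ κ := fun x hx =>
    (hM x hx).trans (mul_le_mul_of_nonneg_left (Real.rpow_le_rpow_of_exponent_le hx h2) hC)
  obtain ⟨C', hC'⟩ := conv_bound (uA g) mA κ C hM' (by
    simp_rw [abs_of_nonneg (u_nonneg hg _)]
    exact hS)
  refine ⟨κ, h4, C', ?_⟩
  rw [f_eq]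
  exact hC'

/-- cast to a complex arithmetic function -/
def cA (a : ArithmeticFunction ℝ) : ArithmeticFunction ℂ := ⟨fun n => (a n : ℂ), by simp⟩

theorem cA_apply (a : ArithmeticFunction ℝ) (n : ℕ) : cA a n = (a n : ℂ) := rfl

theorem cA_mul (a b : ArithmeticFunction ℝ) : cA (a * b) = cA a * cA b := by
  ext n
  rw [cA_apply, ArithmeticFunction.mul_apply, ArithmeticFunction.mul_apply]
  push_cast
  rfl

theorem cA_one : cA 1 = 1 := by
  ext n
  rw [cA_apply]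
  by_cases h : n = 1
  · subst h; simp
  · rw [ArithmeticFunction.one_apply_ne h, ArithmeticFunction.one_apply_ne h]
    simp

theorem cA_summable (a : ArithmeticFunction ℝ) (ha : ∀ n, |a n| ≤ 1) (s : ℂ) (hs : 1 < s.re) :
    LSeriesSummable (fun n => cA a n) s := by
  refine LSeriesSummable_of_bounded_of_one_lt_re (m := 1) (fun n _ => ?_) hs
  rw [cA_apply, Complex.norm_real]
  exact ha n

theorem f_le_one (hg : ∀ p : ℕ, p.Prime → 0 ≤ g p ∧ g p ≤ 1) (n : ℕ) : |fA g n| ≤ 1 :=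
  (f_le hg n).trans (g_nonneg hg n).2

theorem F_G (hg : ∀ p : ℕ, p.Prime → 0 ≤ g p ∧ g p ≤ 1) (s : ℂ) (hs : 1 < s.re) :
    LSeries (fun n => cA (fA g) n) s * LSeries (fun n => cA (gA g) n) s = 1 := by
  have h1 := cA_summable (fA g) (f_le_one hg) s hs
  have h2 := cA_summable (gA g) (fun n => by
    rw [gA_apply, abs_of_nonneg (g_nonneg hg n).1]; exact (g_nonneg hg n).2) s hs
  rw [← ArithmeticFunction.LSeries_mul' h1 h2, ← cA_mul, fg, cA_one]
  rw [show (fun n => (1 : ArithmeticFunction ℂ) n) = LSeries.delta from ArithmeticFunction.one_eq_delta,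
    LSeries_delta]
  rfl

theorem U_eq (hg : ∀ p : ℕ, p.Prime → 0 ≤ g p ∧ g p ≤ 1) (s : ℂ) (hs : 1 < s.re) :
    LSeriesSummable (fun n => cA (uA g) n) s ∧
    LSeries (fun n => cA (uA g) n) s = riemannZeta s * LSeries (fun n => cA (fA g) n) s := by
  have h1 := cA_summable (fA g) (f_le_one hg) s hs
  have hz : ∀ n, n ≠ 0 → zA n = 1 := by
    intro n hn
    unfold zA
    rw [ArithmeticFunction.natCoe_apply, ArithmeticFunction.zeta_apply_ne hn]
    simp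
  have h2 := cA_summable zA (fun n => by
    by_cases hn : n = 0
    · subst hn; simp
    · rw [hz n hn]; simp) s hs
  have h3 : LSeries (fun n => cA zA n) s = riemannZeta s := by
    rw [← LSeries_one_eq_riemannZeta hs]
    refine LSeries_congr (fun {n} hn => ?_) s
    rw [cA_apply, hz n hn]
    simp
  refine ⟨?_, ?_⟩
  · unfold uA
    rw [cA_mul]
    exact ArithmeticFunction.LSeriesSummable_mul h2 h1
  · unfold uA
    rw [cA_mul, ArithmeticFunction.LSeries_mul' h2 h1, h3]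

end

end H353
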