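import Pool.Agent.H353R2.P3
import Pool.Agent.H353R2.K2
import Pool.Agent.H332R2.FL.ZeroExists

open Complex Filter Topology Set

namespace H353

noncomputable section

/-- a power saving for the Mertens function gives a zero-free half plane -/
theorem zero_free_of_M (θ C : ℝ) (h0 : 0 ≤ θ) (h1 : θ < 1)
    (hM : ∀ x : ℝ, 1 ≤ x → |∑ n ∈ Finset.Icc 1 ⌊x⌋₊, (ArithmeticFunction.moebius n : ℝ)| ≤ C * x ^ θ) :
    ∀ s : ℂ, θ < s.re → riemannZeta s ≠ 0 := by
  have hC : 0 ≤ C := by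
    have := (abs_nonneg _).trans (hM 1 le_rfl)
    simpa using this
  have hμ : ∀ s : ℂ, 1 < s.re → LSeriesSummable (fun n => ((ArithmeticFunction.moebius n : ℤ) : ℂ)) s := fun s hs =>
    ArithmeticFunction.LSeriesSummable_moebius_iff.2 hs
  obtain ⟨F, hF, hFe⟩ := cont_F (fun n => ((ArithmeticFunction.moebius n : ℤ) : ℂ)) θ C h0 hC hμ h1.le (by
    intro x hx
    have := hM x hx
    rw [← Real.norm_eq_abs, ← Complex.norm_real] at this
    convert this using 2
    push_cast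
    rfl)
  set U : Set ℂ := {s : ℂ | θ < s.re} with hU
  have hUo : IsOpen U := isOpen_lt continuous_const Complex.continuous_re
  have hUc : IsPreconnected U := (convex_halfSpace_re_gt θ).isPreconnected
  have hA1 : AnalyticOnNhd ℂ (fun s => FF s * F s) U := by
    have : DifferentiableOn ℂ (fun s => FF s * F s) U := fun s hs =>
      ((ZU.J_g2b.FF_diff s).mul (hF s hs)).differentiableWithinAt
    exact this.analyticOnNhd hUo
  have hA2 : AnalyticOnNhd ℂ (fun s : ℂ => s - 1) U := by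
    have : DifferentiableOn ℂ (fun s : ℂ => s - 1) U := (differentiable_id.sub_const 1).differentiableOn
    exact this.analyticOnNhd hUo
  have hEq : EqOn (fun s => FF s * F s) (fun s : ℂ => s - 1) U := by
    refine hA1.eqOn_of_preconnected_of_eventuallyEq hA2 hUc (z₀ := 2) (by show θ < (2:ℂ).re; simp; linarith) ?_
    have : {s : ℂ | 1 < s.re} ∈ 𝓝 (2:ℂ) :=
      (isOpen_lt continuous_const Complex.continuous_re).mem_nhds (by simp)
    filter_upwards [this] with s hs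
    have hs' : 1 < s.re := hs
    have hs1 : s ≠ 1 := by
      rintro rfl
      simp at hs'
    rw [show FF s = (s - 1) * riemannZeta s from ZU.J_g2b.FF_ne hs1, hFe s hs', mul_assoc]
    have h2 := ArithmeticFunction.LSeries_zeta_mul_Lseries_moebius hs'
    rw [ArithmeticFunction.LSeries_zeta_eq_riemannZeta hs'] at h2
    have h3 : LSeries (fun n => ((ArithmeticFunction.moebius n : ℤ) : ℂ)) s =
      LSeries (fun n => (ArithmeticFunction.moebius n : ℂ)) s := rfl
    rw [h3, h2, mul_one]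
  intro s hs hz
  have hs1 : s ≠ 1 := by
    rintro rfl
    exact riemannZeta_one_ne_zero hz
  have h2 := hEq hs
  simp only at h2
  rw [show FF s = (s - 1) * riemannZeta s from ZU.J_g2b.FF_ne hs1, hz, mul_zero, zero_mul] at h2
  exact sub_ne_zero.2 hs1 h2.symm

variable {g : ℕ →*₀ ℝ}

theorem summ_of_LS (h : ArithmeticFunction ℝ) (hn : ∀ n, 0 ≤ h n) (σ : ℝ)
    (hs : LSeriesSummable (fun n => (h n : ℂ)) σ) : Summable (fun n : ℕ => h n / (n : ℝ) ^ σ) := by
  have h1 := hs.norm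
  convert h1 using 2 with n
  by_cases h0 : n = 0
  · subst h0; simp
  · rw [LSeries.norm_term_eq, if_neg h0, Complex.norm_real, Real.norm_eq_abs, abs_of_nonneg (hn n), Complex.ofReal_re]

theorem need (hg : ∀ p : ℕ, p.Prime → 0 ≤ g p ∧ g p ≤ 1) (θ C : ℝ) (hθ : θ < 1)
    (hS : ∀ x : ℝ, 1 ≤ x → |∑ n ∈ Finset.Icc 1 ⌊x⌋₊, fA g n| ≤ C * x ^ θ) :
    (∃ σ < (1:ℝ), Summable (fun p : Nat.Primes => g p / ((p : ℕ) : ℝ) ^ σ)) ∨
      (1 / 2 ≤ θ ∧ ∀ θ' : ℝ, θ < θ' → Summable (fun p : Nat.Primes => (1 - g p) / ((p : ℕ) : ℝ) ^ θ') ∧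
        ∃ C' : ℝ, ∀ x : ℝ, 1 ≤ x →
          |∑ n ∈ Finset.Icc 1 ⌊x⌋₊, (ArithmeticFunction.moebius n : ℝ)| ≤ C' * x ^ θ') := by
  have hC : 0 ≤ C := by
    have := (abs_nonneg _).trans (hS 1 le_rfl)
    simpa using this
  set κ : ℝ := max θ 0 with hκ
  have hκ0 : 0 ≤ κ := le_max_right _ _
  have hκ1 : κ < 1 := max_lt hθ one_pos
  have hS' : ∀ θ' : ℝ, θ ≤ θ' → ∀ x : ℝ, 1 ≤ x → |∑ n ∈ Finset.Icc 1 ⌊x⌋₊, fA g n| ≤ C * x ^ θ' :=
    fun θ' h x hx => (hS x hx).trans
      (mul_le_mul_of_nonneg_left (Real.rpow_le_rpow_of_exponent_le hx h) hC)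
  have hsumF : ∀ s : ℂ, 1 < s.re → LSeriesSummable (fun n => cA (fA g) n) s := fun s hs =>
    cA_summable (fA g) (f_le_one hg) s hs
  obtain ⟨F, hF, hFe⟩ := cont_F (fun n => cA (fA g) n) κ C hκ0 hC hsumF hκ1.le (by
    intro x hx
    have := hS' κ (le_max_left _ _) x hx
    rw [← Real.norm_eq_abs, ← Complex.norm_real] at this
    convert this using 2
    push_cast
    rfl)
  set U : Set ℂ := {s : ℂ | κ < s.re} with hU
  have hUo : IsOpen U := isOpen_lt continuous_const Complex.continuous_re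
  have h1U : (1:ℂ) ∈ U := by show κ < (1:ℂ).re; simpa using hκ1
  have hne1 : ∀ s : ℂ, 1 < s.re → s ≠ 1 := by
    rintro s hs rfl
    simp at hs
  by_cases hF1 : F 1 = 0
  · right
    have hD1 : DifferentiableOn ℂ (dslope F 1) U :=
      (Complex.differentiableOn_dslope (hUo.mem_nhds h1U)).2 fun s hs => (hF s hs).differentiableWithinAt
    have hHd : DifferentiableOn ℂ (fun s => FF s * dslope F 1 s) U := by
      have : DifferentiableOn ℂ FF U := ZU.J_g2b.FF_diff.differentiableOn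
      exact this.mul hD1
    have hHe : ∀ s : ℂ, 1 < s.re → FF s * dslope F 1 s = LSeries (fun n => (uA g n : ℂ)) s := by
      intro s hs
      have h2 := (U_eq hg s hs).2
      rw [show (fun n => (uA g n : ℂ)) = fun n => cA (uA g) n from rfl, h2, ← hFe s hs,
        dslope_of_ne _ (hne1 s hs), slope_def_field, hF1,
        show FF s = (s - 1) * riemannZeta s from ZU.J_g2b.FF_ne (hne1 s hs)]
      have hs1 : s - 1 ≠ 0 := sub_ne_zero.2 (hne1 s hs)
      field_simp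
      ring
    have hL := landau_half (uA g) (u_nonneg hg) _ κ hκ1 hHd (fun s hs => (U_eq hg s hs).1) hHe
    have hsu : ∀ θ' : ℝ, κ < θ' → Summable (fun n : ℕ => uA g n / (n : ℝ) ^ θ') := fun θ' h =>
      summ_of_LS (uA g) (u_nonneg hg) θ' (hL θ' h)
    have hMb : ∀ θ' : ℝ, κ < θ' → ∃ C' : ℝ, ∀ x : ℝ, 1 ≤ x →
          |∑ n ∈ Finset.Icc 1 ⌊x⌋₊, (ArithmeticFunction.moebius n : ℝ)| ≤ C' * x ^ θ' := by
      intro θ' h
      have h3 : Summable (fun n : ℕ => |vA g n| / (n : ℝ) ^ θ') :=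
        Summable.of_nonneg_of_le (fun n => by positivity)
          (fun n => div_le_div_of_nonneg_right (v_le_u hg n) (by positivity)) (hsu θ' h)
      obtain ⟨C', hC'⟩ := conv_bound (vA g) (fA g) θ' C (hS' θ' ((le_max_left _ _).trans h.le)) h3
      rw [← m_eq] at hC'
      exact ⟨C', hC'⟩
    have hhalf : 1 / 2 ≤ κ := by
      obtain ⟨ρ, r0, r1, _, _, _⟩ := H332.FL.exists_zero_re_ge_half 0
      by_contra hcon
      push Not at hcon
      obtain ⟨C', hC'⟩ := hMb ((κ + 1 / 2) / 2) (by linarith)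
      exact zero_free_of_M _ C' (by linarith) (by linarith) hC' ρ (by linarith) r0
    have hκθ : κ = θ := by
      rcases max_choice θ 0 with h | h
      · exact h
      · rw [← hκ] at h; linarith
    rw [hκθ] at hhalf hsu hMb
    refine ⟨hhalf, fun θ' h => ⟨?_, hMb θ' h⟩⟩
    have h5 := (hsu θ' h).comp_injective Nat.Primes.coe_nat_injective
    refine h5.congr fun p => ?_
    have := uA_pow g p p.2 0
    rw [zero_add, pow_one] at this
    simp only [Function.comp_apply, this]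
  · left
    have hcF : ContinuousAt F 1 := (hF 1 h1U).continuousAt
    have hev : ∀ᶠ s in 𝓝 (1:ℂ), F s ≠ 0 ∧ s ∈ U := (hcF.eventually_ne hF1).and (hUo.mem_nhds h1U)
    obtain ⟨r, hr, hball⟩ := Metric.eventually_nhds_iff.1 hev
    set τ : ℝ := min (1 / 2) (r ^ 2 / 4) with hτ
    have hτ0 : 0 < τ := lt_min (by norm_num) (by positivity)
    have hτ1 : τ ≤ 1 / 2 := min_le_left _ _
    have hτ2 : τ ≤ r ^ 2 / 4 := min_le_right _ _
    have hcase : ∀ z ∈ Metric.ball (2:ℂ) (2 - (1 - τ)), F z ≠ 0 ∧ z ∈ U := by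
      intro z hz
      by_cases h1 : 1 < z.re
      · refine ⟨?_, lt_trans hκ1 h1⟩
        intro h0
        have := F_G hg z h1
        rw [← hFe z h1, h0, zero_mul] at this
        exact zero_ne_one this
      · push Not at h1
        apply hball
        rw [Metric.mem_ball, dist_eq_norm] at hz
        rw [dist_eq_norm]
        have h2 : ‖z - 2‖ ^ 2 < (1 + τ) ^ 2 := by
          have := norm_nonneg (z - 2)
          have h3 : ‖z - 2‖ < 1 + τ := by linarith
          nlinarith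
        rw [Complex.sq_norm, Complex.normSq_apply] at h2
        simp only [sub_re, sub_im, re_ofNat, im_ofNat, sub_zero] at h2
        have h4 : ‖z - 1‖ ^ 2 < r ^ 2 := by
          rw [Complex.sq_norm, Complex.normSq_apply]
          simp only [sub_re, sub_im, one_re, one_im, sub_zero]
          nlinarith
        exact lt_of_pow_lt_pow_left₀ 2 hr.le h4
    have hL := landau_ball (gA g) (fun n => (g_nonneg hg n).1) (fun s => (F s)⁻¹) (1 - τ) (by linarith)
      (fun z hz => ((hF z (hcase z hz).2).inv (hcase z hz).1).differentiableWithinAt)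
      (fun s hs => cA_summable (gA g) (fun n => by
        rw [gA_apply, abs_of_nonneg (g_nonneg hg n).1]; exact (g_nonneg hg n).2) s hs)
      (fun s hs => by
        have := F_G hg s hs
        rw [← hFe s hs] at this
        exact (eq_inv_of_mul_eq_one_right this).symm)
    refine ⟨1 - τ / 2, by linarith, ?_⟩
    have h5 := (summ_of_LS (gA g) (fun n => (g_nonneg hg n).1) (1 - τ / 2) (hL _ (by linarith))).comp_injective
      Nat.Primes.coe_nat_injective
    exact h5.congr fun p => rfl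

theorem thinned_main (g : ℕ →*₀ ℝ) (hg : ∀ p : ℕ, p.Prime → 0 ≤ g p ∧ g p ≤ 1) :
    ((∃ θ < (1:ℝ), ∃ C : ℝ, ∀ x : ℝ, 1 ≤ x →
        |∑ n ∈ Finset.Icc 1 ⌊x⌋₊, (ArithmeticFunction.moebius n : ℝ) * g n| ≤ C * x ^ θ) ↔
      ((∃ σ < (1:ℝ), Summable (fun p : Nat.Primes => g p / ((p : ℕ) : ℝ) ^ σ)) ∨
        ((∃ σ < (1:ℝ), Summable (fun p : Nat.Primes => (1 - g p) / ((p : ℕ) : ℝ) ^ σ)) ∧
          ∃ θ < (1:ℝ), ∃ C : ℝ, ∀ x : ℝ, 1 ≤ x →
            |∑ n ∈ Finset.Icc 1 ⌊x⌋₊, (ArithmeticFunction.moebius n : ℝ)| ≤ C * x ^ θ))) ∧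
    ∀ θ < (1:ℝ), ∀ C : ℝ, (∀ x : ℝ, 1 ≤ x →
        |∑ n ∈ Finset.Icc 1 ⌊x⌋₊, (ArithmeticFunction.moebius n : ℝ) * g n| ≤ C * x ^ θ) →
      (∃ σ < (1:ℝ), Summable (fun p : Nat.Primes => g p / ((p : ℕ) : ℝ) ^ σ)) ∨
      (1 / 2 ≤ θ ∧ ∀ θ' : ℝ, θ < θ' → Summable (fun p : Nat.Primes => (1 - g p) / ((p : ℕ) : ℝ) ^ θ') ∧
        ∃ C' : ℝ, ∀ x : ℝ, 1 ≤ x →
          |∑ n ∈ Finset.Icc 1 ⌊x⌋₊, (ArithmeticFunction.moebius n : ℝ)| ≤ C' * x ^ θ') := by
  refine ⟨⟨?_, ?_⟩, fun θ hθ C h => need hg θ C hθ h⟩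
  · rintro ⟨θ, hθ, C, h⟩
    rcases need hg θ C hθ h with h1 | ⟨_, h1⟩
    · exact Or.inl h1
    · obtain ⟨h2, C', h3⟩ := h1 ((θ + 1) / 2) (by linarith)
      exact Or.inr ⟨⟨(θ + 1) / 2, by linarith, h2⟩, (θ + 1) / 2, by linarith, C', h3⟩
  · rintro (⟨σ, hσ, h⟩ | ⟨⟨σ, hσ, h⟩, θ, hθ, C, hM⟩)
    · exact suff_sparse hg σ hσ h
    · exact suff_dense hg σ hσ h θ hθ C hM

end

end H353
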