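import Mathlib

open Complex Filter Topology Set
open scoped Nat

namespace H353

theorem logMul_iter (f : ℕ → ℂ) (k n : ℕ) : (LSeries.logMul^[k] f) n = (Real.log n : ℂ) ^ k * f n := by
  induction k with
  | zero => simp
  | succ k ih =>
    rw [Function.iterate_succ_apply']
    unfold LSeries.logMul at ih ⊢
    rw [ih, ← Complex.natCast_log]
    ring

/-- Landau's theorem on Dirichlet series with nonnegative coefficients, in a half plane -/
theorem landau_half (h : ℕ → ℝ) (hn : ∀ n, 0 ≤ h n) (H : ℂ → ℂ) (θ : ℝ) (hθ : θ < 1)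
    (hH : DifferentiableOn ℂ H {s : ℂ | θ < s.re})
    (hsum : ∀ s : ℂ, 1 < s.re → LSeriesSummable (fun n => (h n : ℂ)) s)
    (heq : ∀ s : ℂ, 1 < s.re → H s = LSeries (fun n => (h n : ℂ)) s) (σ : ℝ) (hσ : θ < σ) :
    LSeriesSummable (fun n => (h n : ℂ)) σ := by
  by_cases h1 : 1 < σ
  · exact hsum σ (by simpa using h1)
  push Not at h1
  set a : ℕ → ℂ := fun n => (h n : ℂ) with ha
  have habs : LSeries.abscissaOfAbsConv a ≤ 1 :=
    LSeries.abscissaOfAbsConv_le_of_forall_lt_LSeriesSummable fun y hy =>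
      hsum y (by simpa using hy)
  have habs2 : LSeries.abscissaOfAbsConv a < ((2 : ℂ).re : EReal) := by
    refine lt_of_le_of_lt habs ?_
    simp only [re_ofNat]
    norm_cast
  have hopen : IsOpen {s : ℂ | θ < s.re} := isOpen_lt continuous_const Complex.continuous_re
  have hball : Metric.ball (2 : ℂ) (2 - θ) ⊆ {s : ℂ | θ < s.re} := by
    intro z hz
    rw [Metric.mem_ball, dist_eq_norm] at hz
    have h2 := (abs_lt.1 ((Complex.abs_re_le_norm (z - 2)).trans_lt hz)).1
    simp only [sub_re, re_ofNat] at h2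
    show θ < z.re
    linarith
  have hr : 0 < 2 - θ := by linarith
  have hT := Complex.hasSum_taylorSeries_on_ball (c := (2:ℂ)) (r := (2 - θ).toNNReal) (f := H) (by
      intro z hz
      rw [Real.coe_toNNReal _ hr.le] at hz
      exact ((hH z (hball hz)).differentiableAt (hopen.mem_nhds (hball hz))).differentiableWithinAt)
    (z := (σ : ℂ)) (by
      rw [Real.coe_toNNReal _ hr.le, Metric.mem_ball, dist_eq_norm]
      have : (σ : ℂ) - 2 = ((σ - 2 : ℝ) : ℂ) := by push_cast; rfl
      rw [this, Complex.norm_real, Real.norm_eq_abs, abs_of_neg (by linarith)]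
      linarith)
  have hder : ∀ k, iteratedDeriv k H 2 = (-1) ^ k * LSeries (LSeries.logMul^[k] a) 2 := by
    intro k
    rw [← LSeries_iteratedDeriv k habs2]
    have hU : IsOpen {s : ℂ | 1 < s.re} := isOpen_lt continuous_const Complex.continuous_re
    have hE : EqOn H (LSeries a) {s : ℂ | 1 < s.re} := fun s hs => heq s hs
    exact hE.iteratedDeriv_of_isOpen hU k (by simp)
  have hTre := Complex.hasSum_re hT
  set b : ℕ → ℝ := fun k => ((k ! : ℂ)⁻¹ • ((σ : ℂ) - 2) ^ k • iteratedDeriv k H 2).re with hb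
  have hsk : ∀ k, LSeriesSummable (LSeries.logMul^[k] a) 2 := fun k =>
    LSeriesSummable_of_abscissaOfAbsConv_lt_re (by rwa [LSeries.absicssaOfAbsConv_logPowMul])
  -- real terms
  set t : ℕ → ℕ → ℝ := fun k n => (2 - σ) ^ k / (k ! : ℝ) * ((Real.log n) ^ k * (if n = 0 then 0 else h n / (n:ℝ) ^ (2:ℝ))) with ht
  have htn : ∀ k n, 0 ≤ t k n := by
    intro k n
    have h2 : 0 ≤ (2 - σ) ^ k / (k ! : ℝ) := by
      have : 0 ≤ 2 - σ := by linarith
      positivity
    refine mul_nonneg h2 (mul_nonneg (pow_nonneg (Real.log_natCast_nonneg n) k) ?_)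
    split_ifs
    · exact le_rfl
    · exact div_nonneg (hn n) (by positivity)
  have hterm : ∀ k n, LSeries.term (LSeries.logMul^[k] a) 2 n =
      (((Real.log n) ^ k * (if n = 0 then 0 else h n / (n:ℝ) ^ (2:ℝ)) : ℝ) : ℂ) := by
    intro k n
    by_cases h0 : n = 0
    · simp [h0]
    · rw [LSeries.term_of_ne_zero h0, logMul_iter, if_neg h0, ha]
      push_cast
      rw [Complex.ofReal_cpow (Nat.cast_nonneg n)]
      push_cast
      ring
  have hbk : ∀ k, HasSum (t k) (b k) := by
    intro k
    have h2 : HasSum (LSeries.term (LSeries.logMul^[k] a) 2) (LSeries (LSeries.logMul^[k] a) 2) :=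
      (hsk k).hasSum
    rw [funext (hterm k)] at h2
    have h3 := Complex.hasSum_re h2
    simp only [Complex.ofReal_re] at h3
    have h4 := h3.mul_left ((2 - σ) ^ k / (k ! : ℝ))
    have e : b k = (2 - σ) ^ k / (k ! : ℝ) * (LSeries (LSeries.logMul^[k] a) 2).re := by
      rw [hb]
      simp only [smul_eq_mul]
      rw [hder k]
      have e2 : ((k ! : ℂ))⁻¹ * (((σ : ℂ) - 2) ^ k * ((-1) ^ k * LSeries (LSeries.logMul^[k] a) 2)) =
          (((2 - σ) ^ k / (k ! : ℝ) : ℝ) : ℂ) * LSeries (LSeries.logMul^[k] a) 2 := by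
        push_cast
        have : ((2:ℂ) - σ) ^ k = ((σ : ℂ) - 2) ^ k * (-1) ^ k := by
          rw [← mul_pow]
          congr 1
          ring
        rw [this]
        ring
      rw [e2, Complex.re_ofReal_mul]
    rw [e]
    exact h4
  -- bound the partial sums
  have hmain : ∀ N : ℕ, ∑ n ∈ Finset.range N, (if n = 0 then 0 else h n / (n:ℝ) ^ σ) ≤ (H σ).re := by
    intro N
    have h2 : HasSum (fun k => ∑ n ∈ Finset.range N, t k n)
        (∑ n ∈ Finset.range N, (if n = 0 then 0 else h n / (n:ℝ) ^ σ)) := by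
      refine hasSum_sum fun n _ => ?_
      by_cases h0 : n = 0
      · simp only [ht, h0, if_true, mul_zero]
        exact hasSum_zero
      · simp only [ht, if_neg h0]
        have hn0 : (0:ℝ) < n := by exact_mod_cast Nat.pos_of_ne_zero h0
        have h3' := NormedSpace.expSeries_div_hasSum_exp ((2 - σ) * Real.log n)
        rw [← Real.exp_eq_exp_ℝ] at h3'
        have h3 := h3'.mul_right (h n / (n:ℝ) ^ (2:ℝ))
        have e : Real.exp ((2 - σ) * Real.log n) * (h n / (n:ℝ) ^ (2:ℝ)) = h n / (n:ℝ) ^ σ := by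
          rw [Real.rpow_def_of_pos hn0, Real.rpow_def_of_pos hn0, div_eq_mul_inv, div_eq_mul_inv,
            ← Real.exp_neg, ← Real.exp_neg]
          rw [mul_left_comm, ← Real.exp_add]
          congr 2
          ring
        rw [e] at h3
        have e5 : (fun k : ℕ => (2 - σ) ^ k / (k ! : ℝ) * (Real.log n ^ k * (h n / (n:ℝ) ^ (2:ℝ)))) =
            fun k : ℕ => ((2 - σ) * Real.log n) ^ k / (k ! : ℝ) * (h n / (n:ℝ) ^ (2:ℝ)) := by
          funext k
          rw [mul_pow]
          ring
        rw [e5]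
        exact h3
    refine hasSum_le (fun k => ?_) h2 hTre
    exact sum_le_hasSum _ (fun n _ => htn k n) (hbk k)
  have hS : Summable (fun n : ℕ => if n = 0 then 0 else h n / (n:ℝ) ^ σ) :=
    summable_of_sum_range_le (fun n => by
      split_ifs
      · exact le_rfl
      · exact div_nonneg (hn n) (by positivity)) hmain
  refine Summable.of_norm ?_
  convert hS using 2 with n
  by_cases h0 : n = 0
  · simp [h0]
  · rw [LSeries.norm_term_eq, if_neg h0, if_neg h0, ha]
    simp only [Complex.norm_real, Real.norm_eq_abs, abs_of_nonneg (hn n), Complex.ofReal_re]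

end H353
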