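import Pool.Agent.H353R2.Z2
import Pool.Agent.H353R2.Z3
import Pool.Agent.Helper240.ZU.A1
import Pool.Agent.Helper240.ZU.A2

open Complex Filter Topology Set MeasureTheory

namespace H353

open ZU (DN)

/-- the mollifier `∑_{m ≤ X} μ(m) m^{-s}` -/
noncomputable def MX (X : ℕ) (s : ℂ) : ℂ :=
  ∑ m ∈ Finset.Icc 1 X, ((ArithmeticFunction.moebius m : ℤ) : ℂ) * (m : ℂ) ^ (-s)

/-- coefficients of the product -/
noncomputable def aa (L X n : ℕ) : ℝ :=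
  ∑ p ∈ (Finset.Icc 1 L ×ˢ Finset.Icc 1 X).filter (fun p => p.1 * p.2 = n),
    ((ArithmeticFunction.moebius p.2 : ℤ) : ℝ)

theorem prod_expand (L X : ℕ) (s : ℂ) : DN L s * MX X s =
    ∑ n ∈ Finset.Icc 1 (L * X), (aa L X n : ℂ) * (n : ℂ) ^ (-s) := by
  unfold ZU.DN MX
  rw [Finset.sum_mul_sum, ← Finset.sum_product']
  have hmaps : ∀ p ∈ Finset.Icc 1 L ×ˢ Finset.Icc 1 X, p.1 * p.2 ∈ Finset.Icc 1 (L * X) := by
    intro p hp
    rw [Finset.mem_product, Finset.mem_Icc, Finset.mem_Icc] at hp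
    rw [Finset.mem_Icc]
    exact ⟨Nat.mul_pos hp.1.1 hp.2.1, Nat.mul_le_mul hp.1.2 hp.2.2⟩
  rw [← Finset.sum_fiberwise_of_maps_to hmaps]
  refine Finset.sum_congr rfl fun n hn => ?_
  unfold aa
  push_cast
  rw [Finset.sum_mul]
  refine Finset.sum_congr rfl fun p hp => ?_
  rw [Finset.mem_filter, Finset.mem_product, Finset.mem_Icc, Finset.mem_Icc] at hp
  obtain ⟨⟨h1, h2⟩, h3⟩ := hp
  have e : ((n : ℕ) : ℂ) ^ (-s) = (p.1 : ℂ) ^ (-s) * (p.2 : ℂ) ^ (-s) := by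
    rw [← h3]
    push_cast
    rw [Complex.natCast_mul_natCast_cpow]
  rw [e]
  ring

theorem aa_eq_filter_antidiag (L X n : ℕ) (hn : 1 ≤ n) :
    (Finset.Icc 1 L ×ˢ Finset.Icc 1 X).filter (fun p => p.1 * p.2 = n) ⊆
      n.divisorsAntidiagonal := by
  intro p hp
  rw [Finset.mem_filter] at hp
  rw [Nat.mem_divisorsAntidiagonal]
  exact ⟨hp.2, by omega⟩

theorem aa_abs (L X n : ℕ) (hn : 1 ≤ n) : |aa L X n| ≤ (n.divisors.card : ℝ) := by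
  unfold aa
  refine (Finset.abs_sum_le_sum_abs _ _).trans ?_
  have h1 : ∀ p ∈ (Finset.Icc 1 L ×ˢ Finset.Icc 1 X).filter (fun p => p.1 * p.2 = n),
      |((ArithmeticFunction.moebius p.2 : ℤ) : ℝ)| ≤ 1 := by
    intro p _
    exact_mod_cast ArithmeticFunction.abs_moebius_le_one
  refine (Finset.sum_le_card_nsmul _ _ _ h1).trans ?_
  rw [nsmul_eq_mul, mul_one]
  have h2 := Finset.card_le_card (aa_eq_filter_antidiag L X n hn)
  have h3 : n.divisorsAntidiagonal.card = n.divisors.card := by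
    rw [← Nat.map_div_right_divisors, Finset.card_map]
  rw [h3] at h2
  exact_mod_cast h2

theorem aa_small (L X n : ℕ) (hn : 1 ≤ n) (hnX : n ≤ X) (hXL : X ≤ L) :
    aa L X n = if n = 1 then 1 else 0 := by
  unfold aa
  have h1 : (Finset.Icc 1 L ×ˢ Finset.Icc 1 X).filter (fun p => p.1 * p.2 = n) =
      n.divisorsAntidiagonal := by
    apply Finset.Subset.antisymm (aa_eq_filter_antidiag L X n hn)
    intro p hp
    rw [Nat.mem_divisorsAntidiagonal] at hp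
    rw [Finset.mem_filter, Finset.mem_product, Finset.mem_Icc, Finset.mem_Icc]
    have h1 : 1 ≤ p.1 := by
      by_contra h
      have : p.1 = 0 := by omega
      rw [this, zero_mul] at hp
      omega
    have h2 : 1 ≤ p.2 := by
      by_contra h
      have : p.2 = 0 := by omega
      rw [this, mul_zero] at hp
      omega
    have h3 : p.1 ≤ n := hp.1 ▸ Nat.le_mul_of_pos_right _ h2
    have h4 : p.2 ≤ n := hp.1 ▸ Nat.le_mul_of_pos_left _ h1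
    exact ⟨⟨⟨h1, by omega⟩, ⟨h2, by omega⟩⟩, hp.1⟩
  rw [h1]
  have h2 := congrArg (fun f : ArithmeticFunction ℤ => f n)
    ArithmeticFunction.coe_zeta_mul_moebius
  simp only [ArithmeticFunction.mul_apply, ArithmeticFunction.one_apply] at h2
  have h3 : ∑ p ∈ n.divisorsAntidiagonal, (ArithmeticFunction.moebius p.2 : ℤ) =
      if n = 1 then 1 else 0 := by
    rw [← h2]
    refine Finset.sum_congr rfl fun p hp => ?_
    have : p.1 ≠ 0 := by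
      rw [Nat.mem_divisorsAntidiagonal] at hp
      intro h
      rw [h, zero_mul] at hp
      omega
    rw [ArithmeticFunction.natCoe_apply, ArithmeticFunction.zeta_apply_ne this]
    simp
  have h4 := congrArg (fun z : ℤ => (z : ℝ)) h3
  push_cast at h4
  exact h4

theorem prod_sub_one (L X : ℕ) (hX : 1 ≤ X) (hXL : X ≤ L) (s : ℂ) : DN L s * MX X s - 1 =
    ∑ n ∈ Finset.Ioc X (L * X), (aa L X n : ℂ) * (n : ℂ) ^ (-s) := by
  rw [prod_expand]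
  have hLX : X ≤ L * X := Nat.le_mul_of_pos_left _ (by omega)
  have e : Finset.Icc 1 (L * X) = Finset.Icc 1 X ∪ Finset.Ioc X (L * X) := by
    ext n
    simp only [Finset.mem_Icc, Finset.mem_union, Finset.mem_Ioc]
    omega
  have hd : Disjoint (Finset.Icc 1 X) (Finset.Ioc X (L * X)) := by
    rw [Finset.disjoint_left]
    intro n h1 h2
    rw [Finset.mem_Icc] at h1
    rw [Finset.mem_Ioc] at h2
    omega
  rw [e, Finset.sum_union hd]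
  have h1 : ∑ n ∈ Finset.Icc 1 X, (aa L X n : ℂ) * (n : ℂ) ^ (-s) = 1 := by
    rw [Finset.sum_eq_single 1]
    · rw [aa_small L X 1 le_rfl hX hXL]
      simp
    · intro n hn hn1
      rw [Finset.mem_Icc] at hn
      rw [aa_small L X n hn.1 hn.2 hXL, if_neg hn1]
      simp
    · intro h
      exfalso
      apply h
      rw [Finset.mem_Icc]
      exact ⟨le_rfl, hX⟩
  rw [h1]
  ring

theorem MX_norm (X : ℕ) (s : ℂ) (hs : 0 ≤ s.re) : ‖MX X s‖ ≤ X := by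
  unfold MX
  refine (norm_sum_le _ _).trans ?_
  have h1 : ∀ m ∈ Finset.Icc 1 X,
      ‖((ArithmeticFunction.moebius m : ℤ) : ℂ) * (m : ℂ) ^ (-s)‖ ≤ 1 := by
    intro m hm
    rw [Finset.mem_Icc] at hm
    rw [norm_mul]
    have e1 : ‖((ArithmeticFunction.moebius m : ℤ) : ℂ)‖ ≤ 1 := by
      rw [Complex.norm_intCast]
      exact_mod_cast ArithmeticFunction.abs_moebius_le_one
    have e2 : ‖(m : ℂ) ^ (-s)‖ ≤ 1 := by
      rw [Complex.norm_natCast_cpow_of_pos (by omega)]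
      apply Real.rpow_le_one_of_one_le_of_nonpos
      · exact_mod_cast hm.1
      · simp only [neg_re]; linarith
    exact mul_le_one₀ e1 (norm_nonneg _) e2
  refine (Finset.sum_le_card_nsmul _ _ _ h1).trans ?_
  simp

/-- `ζ M_X - 1` -/
noncomputable def fz (X : ℕ) (s : ℂ) : ℂ := riemannZeta s * MX X s - 1

theorem fz_split (L X : ℕ) (hX : 1 ≤ X) (hXL : X ≤ L) (s : ℂ) (hs : 0 < s.re) (hs1 : s ≠ 1) :
    fz X s = ∑ n ∈ Finset.Ioc X (L * X), (aa L X n : ℂ) * (n : ℂ) ^ (-s) +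
      (L : ℂ) ^ (1 - s) / (s - 1) * MX X s -
      s * (∫ u in Ioi (L : ℝ), ((Int.fract u : ℝ) : ℂ) * (u : ℂ) ^ (-s - 1)) * MX X s := by
  unfold fz
  rw [← prod_sub_one L X hX hXL s, ZU.zeta_formula L (by omega) s hs hs1]
  ring

theorem zm_sq3' (a b c : ℂ) : ‖a + b - c‖ ^ 2 ≤ 3 * (‖a‖ ^ 2 + ‖b‖ ^ 2 + ‖c‖ ^ 2) := by
  have h1 : ‖a + b - c‖ ≤ ‖a‖ + ‖b‖ + ‖c‖ :=
    (norm_sub_le _ _).trans (add_le_add_left (norm_add_le _ _) _)
  have h2 : ‖a + b - c‖ ^ 2 ≤ (‖a‖ + ‖b‖ + ‖c‖) ^ 2 := pow_le_pow_left₀ (norm_nonneg _) h1 2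
  nlinarith [sq_nonneg (‖a‖ - ‖b‖), sq_nonneg (‖b‖ - ‖c‖), sq_nonneg (‖a‖ - ‖c‖)]

theorem fz_pointwise (L X : ℕ) (hX : 1 ≤ X) (hXL : X ≤ L) (σ T t : ℝ) (hσ : 1 / 2 ≤ σ)
    (hσ2 : σ ≤ 3 / 2) (hT : 1 ≤ T) (ht : t ∈ Icc (T / 2) (3 * T)) :
    ‖fz X ((σ : ℂ) + t * I)‖ ^ 2 ≤
      3 * Real.exp 9 * (Real.exp (-(t / T) ^ 2) *
        ‖∑ n ∈ Finset.Ioc X (L * X), (aa L X n : ℂ) * (n : ℂ) ^ (-((σ : ℂ) + t * I))‖ ^ 2) +
      12 * ((L : ℝ) ^ (1 - σ) * X) ^ 2 / T ^ 2 +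
      3 * Real.exp 9 * (12 * T ^ 2) * (X : ℝ) ^ 2 * (Real.exp (-(t / T) ^ 2) *
        ‖∫ u in Ioi (L : ℝ), ((Int.fract u : ℝ) : ℂ) * (u : ℂ) ^ (-((σ : ℂ) + t * I) - 1)‖ ^ 2) := by
  have hT0 : 0 < T := by linarith
  obtain ⟨ht1, ht2⟩ := ht
  have ht0 : 0 < t := by linarith
  set s : ℂ := (σ : ℂ) + t * I with hs
  have hre : s.re = σ := by simp [hs]
  have him : s.im = t := by simp [hs]
  have hs1 : s ≠ 1 := by
    intro h
    have := congrArg Complex.im h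
    rw [him, Complex.one_im] at this
    linarith
  rw [fz_split L X hX hXL s (by rw [hre]; linarith) hs1]
  set A : ℂ := ∑ n ∈ Finset.Ioc X (L * X), (aa L X n : ℂ) * (n : ℂ) ^ (-s) with hA
  set J : ℂ := ∫ u in Ioi (L : ℝ), ((Int.fract u : ℝ) : ℂ) * (u : ℂ) ^ (-s - 1) with hJ
  have hE : 1 ≤ Real.exp 9 * Real.exp (-(t / T) ^ 2) := by
    rw [← Real.exp_add]
    apply Real.one_le_exp
    have h5 : t / T ≤ 3 := by rw [div_le_iff₀ hT0]; exact ht2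
    have h5' : 0 ≤ t / T := by positivity
    nlinarith
  have hMn := MX_norm X s (by rw [hre]; linarith)
  have hM2 : ‖MX X s‖ ^ 2 ≤ (X : ℝ) ^ 2 := pow_le_pow_left₀ (norm_nonneg _) hMn 2
  have hb : ‖(L : ℂ) ^ (1 - s) / (s - 1) * MX X s‖ ^ 2 ≤
      4 * ((L : ℝ) ^ (1 - σ) * X) ^ 2 / T ^ 2 := by
    have hL0 : 0 < L := by omega
    rw [norm_mul, norm_div, Complex.norm_natCast_cpow_of_pos hL0]
    have h7 : (1 - s).re = 1 - σ := by simp [hre]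
    have h8 : T / 2 ≤ ‖s - 1‖ := by
      have := Complex.abs_im_le_norm (s - 1)
      rw [Complex.sub_im, him, Complex.one_im, sub_zero, abs_of_pos ht0] at this
      linarith
    rw [h7, mul_pow, div_pow]
    have h9 : (T / 2) ^ 2 ≤ ‖s - 1‖ ^ 2 := pow_le_pow_left₀ (by positivity) h8 2
    calc ((L : ℝ) ^ (1 - σ)) ^ 2 / ‖s - 1‖ ^ 2 * ‖MX X s‖ ^ 2
        ≤ ((L : ℝ) ^ (1 - σ)) ^ 2 / (T / 2) ^ 2 * (X : ℝ) ^ 2 := by gcongr
      _ = _ := by field_simp; ring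
  have hc : ‖s * J * MX X s‖ ^ 2 ≤ (12 * T ^ 2) * (X : ℝ) ^ 2 * ‖J‖ ^ 2 := by
    rw [norm_mul, norm_mul, mul_pow, mul_pow]
    have h8 : ‖s‖ ^ 2 = σ ^ 2 + t ^ 2 := by
      rw [← Complex.normSq_eq_norm_sq, Complex.normSq_apply, hre, him]
      ring
    have h9 : σ ^ 2 ≤ 9 / 4 := by nlinarith
    have h10 : t ^ 2 ≤ 9 * T ^ 2 := by nlinarith
    have h11 : ‖s‖ ^ 2 ≤ 12 * T ^ 2 := by rw [h8]; nlinarith
    calc ‖s‖ ^ 2 * ‖J‖ ^ 2 * ‖MX X s‖ ^ 2 ≤ (12 * T ^ 2) * ‖J‖ ^ 2 * (X : ℝ) ^ 2 := by gcongr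
      _ = _ := by ring
  have h20 := zm_sq3' A ((L : ℂ) ^ (1 - s) / (s - 1) * MX X s) (s * J * MX X s)
  have hA2 : ‖A‖ ^ 2 ≤ Real.exp 9 * (Real.exp (-(t / T) ^ 2) * ‖A‖ ^ 2) := by
    rw [← mul_assoc]
    exact le_mul_of_one_le_left (by positivity) hE
  have hJ2 : ‖J‖ ^ 2 ≤ Real.exp 9 * (Real.exp (-(t / T) ^ 2) * ‖J‖ ^ 2) := by
    rw [← mul_assoc]
    exact le_mul_of_one_le_left (by positivity) hE
  have hc2 : ‖s * J * MX X s‖ ^ 2 ≤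
      (12 * T ^ 2) * (X : ℝ) ^ 2 * (Real.exp 9 * (Real.exp (-(t / T) ^ 2) * ‖J‖ ^ 2)) :=
    hc.trans (mul_le_mul_of_nonneg_left hJ2 (by positivity))
  calc _ ≤ _ := h20
    _ ≤ 3 * (Real.exp 9 * (Real.exp (-(t / T) ^ 2) * ‖A‖ ^ 2) +
        4 * ((L : ℝ) ^ (1 - σ) * X) ^ 2 / T ^ 2 +
        (12 * T ^ 2) * (X : ℝ) ^ 2 * (Real.exp 9 * (Real.exp (-(t / T) ^ 2) * ‖J‖ ^ 2))) := by
          linarith
    _ = _ := by ring

/-- mean square bound, explicit form -/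
theorem fz_meansq (L X : ℕ) (hX : 1 ≤ X) (hXL : X ≤ L) (σ T : ℝ) (hσ : 1 / 2 ≤ σ)
    (hσ2 : σ ≤ 3 / 2) (hT : 1 ≤ T) :
    ∫ t in (T / 2)..(3 * T), ‖fz X ((σ : ℂ) + t * I)‖ ^ 2 ≤
      3 * Real.exp 9 * (√Real.pi * T * (∑ n ∈ Finset.Ioc X (L * X),
        aa L X n ^ 2 * (n : ℝ) ^ (-(2 * σ)) +
        (∑ n ∈ Finset.Ioc X (L * X), |aa L X n| * (n : ℝ) ^ (-σ)) ^ 2 *
          Real.exp (-(T ^ 2 / (4 * ((L * X : ℕ) : ℝ) ^ 2))))) +
      30 * ((L : ℝ) ^ (1 - σ) * X) ^ 2 / T +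
      3 * Real.exp 9 * (12 * T ^ 2) * (X : ℝ) ^ 2 *
        (2 * Real.pi * ((L : ℝ) ^ (-(2 * σ)) / (2 * σ))) := by
  have hT0 : 0 < T := by linarith
  have hσ0 : 0 < σ := by linarith
  obtain ⟨i1, b1⟩ := gauss_mv' σ (Finset.Ioc X (L * X)) (aa L X) (L * X)
    (fun n hn => by rw [Finset.mem_Ioc] at hn; exact ⟨by omega, hn.2⟩) T hT0
  obtain ⟨i2, b2⟩ := ZU.planch σ hσ0 L (by omega) T hT0
  have hle : T / 2 ≤ 3 * T := by linarith
  have j1 := i1.const_mul (3 * Real.exp 9)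
  have j2 := i2.const_mul (3 * Real.exp 9 * (12 * T ^ 2) * (X : ℝ) ^ 2)
  set c0 : ℝ := 12 * ((L : ℝ) ^ (1 - σ) * X) ^ 2 / T ^ 2 with hc0
  rw [intervalIntegral.integral_of_le hle]
  have hfin : (volume (Ioc (T / 2) (3 * T))) ≠ ⊤ := by simp
  have jc : IntegrableOn (fun _ : ℝ => c0) (Ioc (T / 2) (3 * T)) := integrableOn_const hfin
  have jadd : IntegrableOn (fun t : ℝ => 3 * Real.exp 9 * (Real.exp (-(t / T) ^ 2) *
        ‖∑ n ∈ Finset.Ioc X (L * X), (aa L X n : ℂ) * (n : ℂ) ^ (-((σ : ℂ) + t * I))‖ ^ 2) +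
      c0) (Ioc (T / 2) (3 * T)) := (j1.integrableOn (s := Ioc (T / 2) (3 * T))).add jc
  have jG := jadd.add (j2.integrableOn (s := Ioc (T / 2) (3 * T)))
  have step1 : ∫ t in Ioc (T / 2) (3 * T), ‖fz X ((σ : ℂ) + t * I)‖ ^ 2 ≤
      ∫ t in Ioc (T / 2) (3 * T), (3 * Real.exp 9 * (Real.exp (-(t / T) ^ 2) *
        ‖∑ n ∈ Finset.Ioc X (L * X), (aa L X n : ℂ) * (n : ℂ) ^ (-((σ : ℂ) + t * I))‖ ^ 2) +
      c0 +
      3 * Real.exp 9 * (12 * T ^ 2) * (X : ℝ) ^ 2 * (Real.exp (-(t / T) ^ 2) *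
        ‖∫ u in Ioi (L : ℝ), ((Int.fract u : ℝ) : ℂ) * (u : ℂ) ^ (-((σ : ℂ) + t * I) - 1)‖ ^ 2)) := by
    refine integral_mono_of_nonneg (Eventually.of_forall fun t => by positivity) jG ?_
    rw [EventuallyLE, ae_restrict_iff' measurableSet_Ioc]
    exact Eventually.of_forall fun t ht =>
      fz_pointwise L X hX hXL σ T t hσ hσ2 hT ⟨ht.1.le, ht.2⟩
  refine step1.trans ?_
  rw [integral_add jadd (j2.integrableOn), integral_add (j1.integrableOn) jc]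
  have k1 : ∫ t in Ioc (T / 2) (3 * T), 3 * Real.exp 9 * (Real.exp (-(t / T) ^ 2) *
        ‖∑ n ∈ Finset.Ioc X (L * X), (aa L X n : ℂ) * (n : ℂ) ^ (-((σ : ℂ) + t * I))‖ ^ 2) ≤
      3 * Real.exp 9 * (√Real.pi * T * (∑ n ∈ Finset.Ioc X (L * X),
        aa L X n ^ 2 * (n : ℝ) ^ (-(2 * σ)) +
        (∑ n ∈ Finset.Ioc X (L * X), |aa L X n| * (n : ℝ) ^ (-σ)) ^ 2 *
          Real.exp (-(T ^ 2 / (4 * ((L * X : ℕ) : ℝ) ^ 2))))) := by
    refine (setIntegral_le_integral j1 (Eventually.of_forall fun t => by positivity)).trans ?_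
    rw [integral_const_mul]
    exact mul_le_mul_of_nonneg_left b1 (by positivity)
  have k2 : ∫ t in Ioc (T / 2) (3 * T), 3 * Real.exp 9 * (12 * T ^ 2) * (X : ℝ) ^ 2 *
      (Real.exp (-(t / T) ^ 2) *
        ‖∫ u in Ioi (L : ℝ), ((Int.fract u : ℝ) : ℂ) * (u : ℂ) ^ (-((σ : ℂ) + t * I) - 1)‖ ^ 2) ≤
      3 * Real.exp 9 * (12 * T ^ 2) * (X : ℝ) ^ 2 *
        (2 * Real.pi * ((L : ℝ) ^ (-(2 * σ)) / (2 * σ))) := by
    refine (setIntegral_le_integral j2 (Eventually.of_forall fun t => by positivity)).trans ?_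
    rw [integral_const_mul]
    exact mul_le_mul_of_nonneg_left b2 (by positivity)
  have k3 : ∫ _t in Ioc (T / 2) (3 * T), c0 = 30 * ((L : ℝ) ^ (1 - σ) * X) ^ 2 / T := by
    rw [setIntegral_const, Measure.real, Real.volume_Ioc, ENNReal.toReal_ofReal (by linarith),
      smul_eq_mul, hc0]
    field_simp
    ring
  rw [k3]
  linarith

end H353
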