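import Pool.Agent.H353R2.Z4

open Complex Filter Topology Set MeasureTheory

namespace H353

theorem exp_kill (η : ℝ) (hη : 0 < η) : ∃ C : ℝ, 0 < C ∧ ∀ T : ℝ, 1 ≤ T →
    T ^ 4 * Real.exp (-(T ^ (η / 2) / 4)) ≤ C * T ^ (-1 : ℝ) := by
  obtain ⟨k, hk⟩ := exists_nat_gt (10 / η)
  refine ⟨4 ^ k * k.factorial, by positivity, fun T hT => ?_⟩
  have hT0 : 0 < T := by linarith
  set y : ℝ := T ^ (η / 2) with hy
  have hy0 : 0 < y := Real.rpow_pos_of_pos hT0 _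
  have h1 : T ^ 5 ≤ y ^ k := by
    rw [hy, ← Real.rpow_natCast (T ^ (η / 2)) k, ← Real.rpow_mul hT0.le, ← Real.rpow_natCast T 5]
    apply Real.rpow_le_rpow_of_exponent_le hT
    rw [div_lt_iff₀ hη] at hk
    push_cast
    nlinarith
  have h2 := Real.pow_div_factorial_le_exp (y / 4) (by positivity) k
  have hf : (0:ℝ) < k.factorial := by exact_mod_cast Nat.factorial_pos k
  have h3 : y ^ k ≤ 4 ^ k * k.factorial * Real.exp (y / 4) := by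
    rw [div_pow, div_div, div_le_iff₀ (by positivity)] at h2
    linarith
  rw [Real.exp_neg, Real.rpow_neg_one]
  have he := Real.exp_pos (y / 4)
  rw [← div_eq_mul_inv, ← div_eq_mul_inv, div_le_div_iff₀ he hT0]
  calc T ^ 4 * T = T ^ 5 := by ring
    _ ≤ y ^ k := h1
    _ ≤ _ := h3

theorem floor_bounds (y : ℝ) (hy : 1 ≤ y) : 1 ≤ ⌊y⌋₊ ∧ ((⌊y⌋₊ : ℕ) : ℝ) ≤ y ∧ y / 2 ≤ (⌊y⌋₊ : ℝ) := by
  have h1 : 1 ≤ ⌊y⌋₊ := Nat.le_floor (by simpa using hy)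
  have h2 := Nat.floor_le (by linarith : 0 ≤ y)
  have h3 := Nat.lt_floor_add_one y
  have h4 : (1:ℝ) ≤ (⌊y⌋₊ : ℝ) := by exact_mod_cast h1
  exact ⟨h1, h2, by linarith⟩

theorem fz_power (σ1 : ℝ) (h1 : 1 / 2 < σ1) (h1' : σ1 ≤ 1) :
    ∃ C δ : ℝ, 0 < C ∧ 0 < δ ∧ δ ≤ 1 ∧ ∀ T : ℝ, 1 ≤ T → ∃ X : ℕ, ∀ σ ∈ Icc σ1 (3 / 2),
      ∫ t in (T / 2)..(3 * T), ‖fz X ((σ : ℂ) + t * I)‖ ^ 2 ≤ C * T ^ (1 - δ) := by
  set η : ℝ := σ1 - 1 / 2 with hη
  have hη0 : 0 < η := by linarith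
  have hη1 : η ≤ 1 / 2 := by linarith
  obtain ⟨Cd, hCd0, hCd⟩ := divisor_bound_real (η / 2) (by positivity)
  obtain ⟨Ce, hCe0, hCe⟩ := exp_kill η hη0
  set S0 : ℝ := ∑' n : ℕ, (n : ℝ) ^ (-(1 + η / 2)) with hS0
  have hsum : Summable (fun n : ℕ => (n : ℝ) ^ (-(1 + η / 2))) :=
    Real.summable_nat_rpow.2 (by linarith)
  have hS00 : 0 ≤ S0 := tsum_nonneg fun n => by positivity
  set C : ℝ := 3 * Real.exp 9 * √Real.pi * (Cd ^ 2 * (2 * S0) + Ce) + 30 +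
    3 * Real.exp 9 * 12 * (2 * Real.pi * 4) with hC
  refine ⟨C, η ^ 2 / 8, by positivity, by positivity, by nlinarith, fun T hT => ?_⟩
  have hT0 : 0 < T := by linarith
  set δ : ℝ := η ^ 2 / 8 with hδ
  have hmono : ∀ {a b : ℝ}, a ≤ b → T ^ a ≤ T ^ b := fun h => Real.rpow_le_rpow_of_exponent_le hT h
  have hone : ∀ {a : ℝ}, 0 ≤ a → 1 ≤ T ^ a := fun h => Real.one_le_rpow hT h
  set x : ℝ := T ^ (η / 4) with hx
  set l : ℝ := T ^ (1 - η / 2) with hl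
  have hx1 : 1 ≤ x := hone (by positivity)
  have hl1 : 1 ≤ l := hone (by linarith)
  obtain ⟨hX1, hXle, hXge⟩ := floor_bounds x hx1
  obtain ⟨hL1, hLle, hLge⟩ := floor_bounds l hl1
  set X := ⌊x⌋₊ with hXdef
  set L := ⌊l⌋₊ with hLdef
  have hXL : X ≤ L := Nat.floor_mono (hmono (by linarith))
  have hXr : (1:ℝ) ≤ X := by exact_mod_cast hX1
  have hLr : (1:ℝ) ≤ L := by exact_mod_cast hL1
  refine ⟨X, fun σ hσ => ?_⟩
  obtain ⟨hσ1, hσ2⟩ := hσ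
  have hσ0 : 0 < σ := by linarith
  refine (fz_meansq L X hX1 hXL σ T (by linarith) hσ2 hT).trans ?_
  have hpi := Real.pi_pos
  have hE9 := Real.exp_pos 9
  -- A1
  have hA1 : ∑ n ∈ Finset.Ioc X (L * X), aa L X n ^ 2 * (n : ℝ) ^ (-(2 * σ)) ≤
      Cd ^ 2 * (2 * S0) * T ^ (-δ) := by
    have hXp : (X:ℝ) ^ (-(η / 2)) ≤ 2 * T ^ (-δ) := by
      have e1 : (X:ℝ) ^ (-(η / 2)) ≤ (x / 2) ^ (-(η / 2)) :=
        Real.rpow_le_rpow_of_nonpos (by positivity) hXge (by linarith)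
      have e2 : (x / 2) ^ (-(η / 2)) = T ^ (-δ) * 2 ^ (η / 2) := by
        rw [Real.div_rpow (by positivity) (by norm_num), hx, ← Real.rpow_mul hT0.le,
          Real.rpow_neg (by norm_num : (0:ℝ) ≤ 2), div_inv_eq_mul]
        congr 2
        rw [hδ]; ring
      have e3 : (2:ℝ) ^ (η / 2) ≤ 2 := by
        calc (2:ℝ) ^ (η / 2) ≤ (2:ℝ) ^ (1:ℝ) :=
              Real.rpow_le_rpow_of_exponent_le (by norm_num) (by linarith)
          _ = 2 := Real.rpow_one 2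
      have e4 : 0 < T ^ (-δ) := Real.rpow_pos_of_pos hT0 _
      rw [e2] at e1
      nlinarith
    have hterm : ∀ n ∈ Finset.Ioc X (L * X), aa L X n ^ 2 * (n : ℝ) ^ (-(2 * σ)) ≤
        Cd ^ 2 * (X:ℝ) ^ (-(η / 2)) * (n : ℝ) ^ (-(1 + η / 2)) := by
      intro n hn
      rw [Finset.mem_Ioc] at hn
      have hn1 : 1 ≤ n := by omega
      have hnr : (1:ℝ) ≤ n := by exact_mod_cast hn1
      have hn0 : (0:ℝ) < n := by linarith
      have hXn : (X:ℝ) ≤ n := by exact_mod_cast hn.1.le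
      have e1 : |aa L X n| ≤ Cd * (n:ℝ) ^ (η / 2) :=
        (aa_abs L X n hn1).trans (hCd n (by omega))
      have e2 : aa L X n ^ 2 ≤ (Cd * (n:ℝ) ^ (η / 2)) ^ 2 := by
        rw [← sq_abs]
        exact pow_le_pow_left₀ (abs_nonneg _) e1 2
      have e3 : (n : ℝ) ^ (-(2 * σ)) ≤ (n:ℝ) ^ (-(1 + 2 * η)) :=
        Real.rpow_le_rpow_of_exponent_le hnr (by linarith)
      have e4 : (n:ℝ) ^ (-(η / 2)) ≤ (X:ℝ) ^ (-(η / 2)) :=
        Real.rpow_le_rpow_of_nonpos (by linarith) hXn (by linarith)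
      calc aa L X n ^ 2 * (n : ℝ) ^ (-(2 * σ))
          ≤ (Cd * (n:ℝ) ^ (η / 2)) ^ 2 * (n:ℝ) ^ (-(1 + 2 * η)) := by gcongr
        _ = Cd ^ 2 * ((n:ℝ) ^ (-(η / 2)) * (n : ℝ) ^ (-(1 + η / 2))) := by
          rw [mul_pow, mul_assoc]
          congr 1
          rw [← Real.rpow_natCast ((n:ℝ) ^ (η / 2)) 2, ← Real.rpow_mul hn0.le,
            ← Real.rpow_add hn0, ← Real.rpow_add hn0]
          congr 1
          push_cast
          ring
        _ ≤ Cd ^ 2 * ((X:ℝ) ^ (-(η / 2)) * (n : ℝ) ^ (-(1 + η / 2))) := by gcongr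
        _ = _ := by ring
    refine (Finset.sum_le_sum hterm).trans ?_
    rw [← Finset.mul_sum]
    have e5 : ∑ n ∈ Finset.Ioc X (L * X), (n : ℝ) ^ (-(1 + η / 2)) ≤ S0 :=
      hsum.sum_le_tsum _ (fun n _ => by positivity)
    calc Cd ^ 2 * (X:ℝ) ^ (-(η / 2)) * ∑ n ∈ Finset.Ioc X (L * X), (n : ℝ) ^ (-(1 + η / 2))
        ≤ Cd ^ 2 * (2 * T ^ (-δ)) * S0 := by gcongr
      _ = _ := by ring
  -- A2
  have hLX : ((L * X : ℕ) : ℝ) ≤ T ^ (1 - η / 4) := by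
    push_cast
    calc (L:ℝ) * X ≤ l * x := by gcongr
      _ = T ^ (1 - η / 4) := by
        rw [hl, hx, ← Real.rpow_add hT0]
        congr 1
        ring
  have hLX1 : ((L * X : ℕ) : ℝ) ≤ T := by
    refine hLX.trans ?_
    calc T ^ (1 - η / 4) ≤ T ^ (1:ℝ) := hmono (by linarith)
      _ = T := Real.rpow_one T
  have hLXp : (1:ℝ) ≤ ((L * X : ℕ) : ℝ) := by
    have : 1 ≤ L * X := Nat.mul_pos hL1 hX1
    exact_mod_cast this
  have hA2 : (∑ n ∈ Finset.Ioc X (L * X), |aa L X n| * (n : ℝ) ^ (-σ)) ^ 2 *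
      Real.exp (-(T ^ 2 / (4 * ((L * X : ℕ) : ℝ) ^ 2))) ≤ Ce * T ^ (-δ) := by
    have e1 : ∑ n ∈ Finset.Ioc X (L * X), |aa L X n| * (n : ℝ) ^ (-σ) ≤ T ^ 2 := by
      have : ∀ n ∈ Finset.Ioc X (L * X), |aa L X n| * (n : ℝ) ^ (-σ) ≤ T := by
        intro n hn
        rw [Finset.mem_Ioc] at hn
        have hn1 : 1 ≤ n := by omega
        have hnr : (1:ℝ) ≤ n := by exact_mod_cast hn1
        have f1 : |aa L X n| ≤ T := by
          refine (aa_abs L X n hn1).trans ?_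
          have : (n.divisors.card : ℝ) ≤ n := by exact_mod_cast Nat.card_divisors_le_self n
          have h2 : (n:ℝ) ≤ ((L * X : ℕ) : ℝ) := by exact_mod_cast hn.2
          linarith
        have f2 : (n : ℝ) ^ (-σ) ≤ 1 := Real.rpow_le_one_of_one_le_of_nonpos hnr (by linarith)
        have f3 : 0 ≤ (n : ℝ) ^ (-σ) := by positivity
        calc |aa L X n| * (n : ℝ) ^ (-σ) ≤ T * 1 := by gcongr
          _ = T := mul_one T
      refine (Finset.sum_le_card_nsmul _ _ _ this).trans ?_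
      rw [nsmul_eq_mul, Nat.card_Ioc]
      have h2 : ((L * X - X : ℕ) : ℝ) ≤ T := by
        refine le_trans ?_ hLX1
        exact_mod_cast Nat.sub_le _ _
      nlinarith
    have e0 : 0 ≤ ∑ n ∈ Finset.Ioc X (L * X), |aa L X n| * (n : ℝ) ^ (-σ) :=
      Finset.sum_nonneg fun n _ => by positivity
    have e2 : T ^ (η / 2) / 4 ≤ T ^ 2 / (4 * ((L * X : ℕ) : ℝ) ^ 2) := by
      have g1 : ((L * X : ℕ) : ℝ) ^ 2 ≤ T ^ (2 - η / 2) := by
        calc ((L * X : ℕ) : ℝ) ^ 2 ≤ (T ^ (1 - η / 4)) ^ 2 := by gcongr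
          _ = T ^ (2 - η / 2) := by
            rw [← Real.rpow_natCast (T ^ (1 - η / 4)) 2, ← Real.rpow_mul hT0.le]
            congr 1
            push_cast
            ring
      rw [div_le_div_iff₀ (by norm_num) (by positivity)]
      have g2 : T ^ (η / 2) * T ^ (2 - η / 2) = T ^ 2 := by
        rw [← Real.rpow_add hT0, ← Real.rpow_two]
        congr 1
        ring
      have g3 : 0 < T ^ (η / 2) := Real.rpow_pos_of_pos hT0 _
      nlinarith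
    calc _ ≤ (T ^ 2) ^ 2 * Real.exp (-(T ^ (η / 2) / 4)) := by
          gcongr
      _ = T ^ 4 * Real.exp (-(T ^ (η / 2) / 4)) := by ring
      _ ≤ Ce * T ^ (-1 : ℝ) := hCe T hT
      _ ≤ Ce * T ^ (-δ) := by
          gcongr
          rw [hδ]; nlinarith
  -- B
  have hB : 30 * ((L : ℝ) ^ (1 - σ) * X) ^ 2 / T ≤ 30 * T ^ (1 - δ) := by
    have e1 : (L : ℝ) ^ (1 - σ) ≤ (L:ℝ) ^ (1 / 2 : ℝ) :=
      Real.rpow_le_rpow_of_exponent_le hLr (by linarith)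
    have e2 : ((L : ℝ) ^ (1 - σ) * X) ^ 2 ≤ T := by
      calc ((L : ℝ) ^ (1 - σ) * X) ^ 2 ≤ ((L:ℝ) ^ (1 / 2 : ℝ) * X) ^ 2 := by gcongr
        _ = (L:ℝ) * X ^ 2 := by
          rw [mul_pow, ← Real.rpow_natCast ((L:ℝ) ^ (1 / 2 : ℝ)) 2, ← Real.rpow_mul (by linarith)]
          norm_num
        _ ≤ l * x ^ 2 := by gcongr
        _ = T := by
          rw [hl, hx, ← Real.rpow_natCast (T ^ (η / 4)) 2, ← Real.rpow_mul hT0.le,
            ← Real.rpow_add hT0]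
          conv_rhs => rw [← Real.rpow_one T]
          congr 1
          push_cast
          ring
    have e3 : 1 ≤ T ^ (1 - δ) := hone (by rw [hδ]; nlinarith)
    rw [div_le_iff₀ hT0]
    nlinarith
  -- C
  have hCc : 3 * Real.exp 9 * (12 * T ^ 2) * (X : ℝ) ^ 2 *
        (2 * Real.pi * ((L : ℝ) ^ (-(2 * σ)) / (2 * σ))) ≤
      3 * Real.exp 9 * 12 * (2 * Real.pi * 4) * T ^ (1 - δ) := by
    have e1 : (L : ℝ) ^ (-(2 * σ)) / (2 * σ) ≤ 4 * T ^ (-((1 - η / 2) * (2 * σ1))) := by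
      have f1 : (L : ℝ) ^ (-(2 * σ)) ≤ (L:ℝ)^(-(2*σ1)) :=
        Real.rpow_le_rpow_of_exponent_le hLr (by linarith)
      have f2 : (L : ℝ) ^ (-(2 * σ)) / (2 * σ) ≤ (L:ℝ)^(-(2*σ1)) :=
        (div_le_self (by positivity) (by linarith)).trans f1
      have f3 : (L:ℝ)^(-(2*σ1)) ≤ (l / 2)^(-(2*σ1)) :=
        Real.rpow_le_rpow_of_nonpos (by positivity) hLge (by linarith)
      have f4 : (l / 2)^(-(2*σ1)) = T ^ (-((1 - η / 2) * (2 * σ1))) * 2 ^ (2*σ1) := by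
        rw [Real.div_rpow (by positivity) (by norm_num), hl, ← Real.rpow_mul hT0.le,
          Real.rpow_neg (by norm_num : (0:ℝ) ≤ 2), div_inv_eq_mul]
        congr 2
        ring
      have f5 : (2:ℝ)^(2*σ1) ≤ 4 := by
        calc (2:ℝ)^(2*σ1) ≤ (2:ℝ)^(2:ℝ) :=
              Real.rpow_le_rpow_of_exponent_le (by norm_num) (by linarith)
          _ = 4 := by norm_num
      have f6 : 0 < T ^ (-((1 - η / 2) * (2 * σ1))) := Real.rpow_pos_of_pos hT0 _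
      nlinarith
    have e2 : (X:ℝ) ^ 2 ≤ T ^ (η / 2) := by
      calc (X:ℝ) ^ 2 ≤ x ^ 2 := by gcongr
        _ = T ^ (η / 2) := by
          rw [hx, ← Real.rpow_natCast (T ^ (η / 4)) 2, ← Real.rpow_mul hT0.le]
          congr 1
          push_cast
          ring
    have e3 : T ^ 2 * T ^ (η / 2) * T ^ (-((1 - η / 2) * (2 * σ1))) ≤ T ^ (1 - δ) := by
      rw [← Real.rpow_two, ← Real.rpow_add hT0, ← Real.rpow_add hT0]
      apply hmono
      have : σ1 = η + 1 / 2 := by rw [hη]; ring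
      rw [this, hδ]
      nlinarith
    calc 3 * Real.exp 9 * (12 * T ^ 2) * (X : ℝ) ^ 2 *
        (2 * Real.pi * ((L : ℝ) ^ (-(2 * σ)) / (2 * σ)))
        ≤ 3 * Real.exp 9 * (12 * T ^ 2) * T ^ (η / 2) *
        (2 * Real.pi * (4 * T ^ (-((1 - η / 2) * (2 * σ1))))) := by
          have : 0 ≤ (L : ℝ) ^ (-(2 * σ)) / (2 * σ) := by positivity
          gcongr
      _ = 3 * Real.exp 9 * 12 * (2 * Real.pi * 4) *
          (T ^ 2 * T ^ (η / 2) * T ^ (-((1 - η / 2) * (2 * σ1)))) := by ring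
      _ ≤ _ := by gcongr
  have hsplit : T * T ^ (-δ) = T ^ (1 - δ) := by
    rw [sub_eq_add_neg, Real.rpow_add hT0, Real.rpow_one]
  have hA : 3 * Real.exp 9 * (√Real.pi * T * (∑ n ∈ Finset.Ioc X (L * X),
        aa L X n ^ 2 * (n : ℝ) ^ (-(2 * σ)) +
        (∑ n ∈ Finset.Ioc X (L * X), |aa L X n| * (n : ℝ) ^ (-σ)) ^ 2 *
          Real.exp (-(T ^ 2 / (4 * ((L * X : ℕ) : ℝ) ^ 2))))) ≤
      3 * Real.exp 9 * √Real.pi * (Cd ^ 2 * (2 * S0) + Ce) * T ^ (1 - δ) := by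
    calc _ ≤ 3 * Real.exp 9 * (√Real.pi * T * (Cd ^ 2 * (2 * S0) * T ^ (-δ) + Ce * T ^ (-δ))) := by
          gcongr
      _ = 3 * Real.exp 9 * √Real.pi * (Cd ^ 2 * (2 * S0) + Ce) * (T * T ^ (-δ)) := by ring
      _ = _ := by rw [hsplit]
  calc _ ≤ 3 * Real.exp 9 * √Real.pi * (Cd ^ 2 * (2 * S0) + Ce) * T ^ (1 - δ) +
        30 * T ^ (1 - δ) + 3 * Real.exp 9 * 12 * (2 * Real.pi * 4) * T ^ (1 - δ) := by
        linarith
    _ = C * T ^ (1 - δ) := by rw [hC]; ring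

end H353
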